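import Mathlib

namespace Pool.Agent.H1LA

open SimpleGraph

variable {V : Type*}

/-- `F` is a forest each of whose connected components is a path with at most `k` edges:
no cycle, all degrees at most two, and no path of `F` has more than `k` edges. -/
def IsLinearForest (k : ℕ) (F : SimpleGraph V) : Prop :=
  F.IsAcyclic ∧ (∀ v, (F.neighborSet v).encard ≤ 2) ∧
    ∀ (u v : V) (p : F.Walk u v), p.IsPath → p.length ≤ k

/-- Every vertex has exactly three neighbours. -/
def IsCubic (G : SimpleGraph V) : Prop := ∀ v, (G.neighborSet v).encard = 3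

/-- The edge set of `G` is the disjoint union of the edge sets of `F₁` and `F₂`. -/
def IsDecomp (G F₁ F₂ : SimpleGraph V) : Prop :=
  G.edgeSet = F₁.edgeSet ∪ F₂.edgeSet ∧ Disjoint F₁.edgeSet F₂.edgeSet

/-- fixed point free involutions on sets of the same size are conjugate -/
theorem conj_invol {S S' : Type*} [Fintype S] [Fintype S'] (h : Fintype.card S = Fintype.card S')
    (σ : Equiv.Perm S) (τ : Equiv.Perm S') (hσ : ∀ x, σ (σ x) = x) (hτ : ∀ x, τ (τ x) = x)
    (hσ' : ∀ x, σ x ≠ x) (hτ' : ∀ x, τ x ≠ x) :
    ∃ φ : S ≃ S', ∀ x, φ (σ x) = τ (φ x) := by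
  classical
  have key : ∀ ρ : Equiv.Perm S, (∀ x, ρ (ρ x) = x) → (∀ x, ρ x ≠ x) →
      ρ.cycleType = Multiset.replicate (Fintype.card S / 2) 2 := by
    intro ρ h1 h2
    have ho : orderOf ρ ∣ 2 := by
      apply orderOf_dvd_of_pow_eq_one
      ext x
      simp [pow_two, h1]
    have hall : ∀ n ∈ ρ.cycleType, n = 2 := by
      intro n hn
      have h3 := (Equiv.Perm.dvd_of_mem_cycleType hn).trans ho
      have h4 := Equiv.Perm.two_le_of_mem_cycleType hn
      have h5 := Nat.le_of_dvd (by norm_num) h3
      omega
    have hr := Multiset.eq_replicate_of_mem hall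
    have hs := Equiv.Perm.sum_cycleType ρ
    have hsup : ρ.support = Finset.univ := by
      ext x; simp [h2 x]
    rw [hsup, Finset.card_univ, hr, Multiset.sum_replicate] at hs
    rw [hr]
    congr 1
    simp only [smul_eq_mul] at hs
    omega
  obtain ⟨e⟩ := Fintype.card_eq.mp h
  set τ' : Equiv.Perm S := (e.trans τ).trans e.symm with hτdef
  have hc : IsConj σ τ' := by
    rw [Equiv.Perm.isConj_iff_cycleType_eq, key σ hσ hσ', key τ']
    · intro x; simp [hτdef, hτ]
    · intro x hx
      apply hτ' (e x)
      have : e (τ' x) = e x := by rw [hx]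
      simpa [hτdef] using this
  obtain ⟨π, hπ⟩ := isConj_iff.mp hc
  refine ⟨π.trans e, fun x => ?_⟩
  have h1 : π (σ x) = τ' (π x) := by
    rw [← hπ]; simp
  simp only [Equiv.trans_apply, h1, hτdef]
  simp

/-- The local structure of the two forests: `F`-neighbours of `x` are the partner `a x` and,
if `x` has colour `β`, also the partner `m x`. -/
theorem linear_of_local {F : SimpleGraph V} {c : V → Bool} {β : Bool} {m a : V → V}
    (hF : ∀ x y, F.Adj x y ↔ (c x = β ∧ y = m x) ∨ y = a x)
    (hm : ∀ x, m (m x) = x) (hcm : ∀ x, c (m x) = c x) (hca : ∀ x, c (a x) ≠ c x) :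
    IsLinearForest 3 F := by
  have key : ∀ x y z, F.Adj x y → F.Adj x z → y ≠ z → c x = β := by
    intro x y z h1 h2 h3
    rw [hF] at h1 h2
    rcases h1 with h1 | h1
    · exact h1.1
    · rcases h2 with h2 | h2
      · exact h2.1
      · exact absurd (h1.trans h2.symm) h3
  have key2 : ∀ x y, F.Adj x y → c x = β → c y = β → y = m x := by
    intro x y h1 h2 h3
    rw [hF] at h1
    rcases h1 with h1 | h1
    · exact h1.2
    · exfalso; apply hca x; rw [← h1, h2, h3]
  refine ⟨?_, ?_, ?_⟩
  · intro v w hw
    obtain ⟨u, h, p, rfl⟩ : ∃ u, ∃ (h : F.Adj v u) (p : F.Walk u v), w = Walk.cons h p := by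
      cases w with
      | nil => exact absurd hw (by simp)
      | cons h p => exact ⟨_, h, p, rfl⟩
    have hlen := hw.three_le_length
    rw [Walk.cons_isCycle_iff] at hw
    obtain ⟨hp, -⟩ := hw
    have hlen : 2 ≤ p.length := by simpa using hlen
    have inj := hp.getVert_injOn
    have h01 : F.Adj (p.getVert 0) (p.getVert 1) := p.adj_getVert_succ (by omega)
    have h12 : F.Adj (p.getVert 1) (p.getVert 2) := p.adj_getVert_succ (by omega)
    have hk : F.Adj (p.getVert (p.length - 1)) (p.getVert p.length) := by
      have := p.adj_getVert_succ (i := p.length - 1) (by omega)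
      rwa [Nat.sub_add_cancel (by omega)] at this
    have e0 : p.getVert 0 = u := by simp
    have ek : p.getVert p.length = v := by simp
    have n1 : p.getVert 1 ≠ v := by
      intro hh
      have : (1 : ℕ) = p.length := inj (by simp; omega) (by simp) (by rw [ek]; exact hh)
      omega
    have n2 : p.getVert 0 ≠ p.getVert 2 := by
      intro hh
      have : (0 : ℕ) = 2 := inj (by simp) (by simpa using hlen) hh
      omega
    have n3 : p.getVert (p.length - 1) ≠ u := by
      intro hh
      have : p.length - 1 = 0 := inj (by simp) (by simp) (by rw [e0]; exact hh)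
      omega
    rw [e0] at h01 n2
    rw [ek] at hk
    have cu : c u = β := key u v (p.getVert 1) h.symm h01 (Ne.symm n1)
    have cv : c v = β := key v u (p.getVert (p.length - 1)) h hk.symm (Ne.symm n3)
    have c1 : c (p.getVert 1) = β := key _ u (p.getVert 2) h01.symm h12 n2
    have := key2 u v h.symm cu cv
    have h' := key2 u _ h01 cu c1
    exact n1 (h'.trans this.symm)
  · intro x
    have hsub : F.neighborSet x ⊆ {m x, a x} := by
      intro y hy
      rw [mem_neighborSet, hF] at hy
      rcases hy with hy | hy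
      · simp [hy.2]
      · simp [hy]
    refine (Set.encard_le_encard hsub).trans ((Set.encard_insert_le _ _).trans ?_)
    rw [Set.encard_singleton]; norm_num
  · intro u v p hp
    by_contra hlen
    push Not at hlen
    have inj := hp.getVert_injOn
    have h01 : F.Adj (p.getVert 0) (p.getVert 1) := p.adj_getVert_succ (by omega)
    have h12 : F.Adj (p.getVert 1) (p.getVert 2) := p.adj_getVert_succ (by omega)
    have h23 : F.Adj (p.getVert 2) (p.getVert 3) := p.adj_getVert_succ (by omega)
    have h34 : F.Adj (p.getVert 3) (p.getVert 4) := p.adj_getVert_succ (by omega)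
    have ne : ∀ i j, i ≤ 4 → j ≤ 4 → i ≠ j → p.getVert i ≠ p.getVert j := by
      intro i j hi hj hij hh
      exact hij (inj (by simp; omega) (by simp; omega) hh)
    have c1 : c (p.getVert 1) = β := key _ _ _ h01.symm h12 (ne 0 2 (by omega) (by omega) (by omega))
    have c2 : c (p.getVert 2) = β := key _ _ _ h12.symm h23 (ne 1 3 (by omega) (by omega) (by omega))
    have c3 : c (p.getVert 3) = β := key _ _ _ h23.symm h34 (ne 2 4 (by omega) (by omega) (by omega))
    have a1 := key2 _ _ h12.symm c2 c1
    have a3 := key2 _ _ h23 c2 c3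
    exact ne 1 3 (by omega) (by omega) (by omega) (a1.trans a3.symm)

end Pool.Agent.H1LA
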