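import Pool.Agent.H1LA.Solve2

namespace Pool.Agent.H1LA

open SimpleGraph Finset

theorem third {X : Type*} [Fintype X] {G : SimpleGraph X} (hG : IsCubic G) (x y z : X)
    (hy : G.Adj x y) (hz : G.Adj x z) (hyz : y ≠ z) :
    ∃ w, w ≠ y ∧ w ≠ z ∧ G.Adj x w ∧ ∀ u, G.Adj x u → u = y ∨ u = z ∨ u = w := by
  classical
  have h3 := hG x
  rw [← coe_neighborFinset, Set.encard_coe_eq_coe_finsetCard] at h3
  have h4 : (G.neighborFinset x).card = 3 := by exact_mod_cast h3
  have h5 : (((G.neighborFinset x).erase y).erase z).card = 1 := by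
    rw [Finset.card_erase_of_mem, Finset.card_erase_of_mem, h4]
    · simpa using hy
    · simpa using ⟨hyz.symm, hz⟩
  obtain ⟨w, hw⟩ := Finset.card_eq_one.mp h5
  have hmem : ∀ u, (u ≠ z ∧ u ≠ y ∧ G.Adj x u) ↔ u = w := by
    intro u
    rw [← Finset.mem_singleton, ← hw]
    simp
  have hw' := (hmem w).mpr rfl
  refine ⟨w, hw'.2.1, hw'.1, hw'.2.2, ?_⟩
  intro u hu
  by_cases h1 : u = y
  · exact Or.inl h1
  by_cases h2 : u = z
  · exact Or.inr (Or.inl h2)
  · exact Or.inr (Or.inr ((hmem u).mp ⟨h2, h1, hu⟩))

theorem claw_main {X : Type*} [Finite X] {G : SimpleGraph X} (hG : IsCubic G)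
    (hconn : G.Connected) (h4 : 4 ∣ Nat.card X)
    (htri : ∀ x, ∃ y z, G.Adj x y ∧ G.Adj x z ∧ G.Adj y z)
    (hdia : ∀ x y z w, G.Adj x y → G.Adj x z → G.Adj y z → G.Adj x w → G.Adj y w → z = w)
    (hN : ∃ N : G.Subgraph, N.IsPerfectMatching ∧
      ∀ x y z, G.Adj x y → G.Adj x z → G.Adj y z → N.Adj x y ∨ N.Adj x z ∨ N.Adj y z) :
    ∃ F₁ F₂ : SimpleGraph X, IsDecomp G F₁ F₂ ∧ IsLinearForest 4 F₁ ∧
      IsLinearForest 4 F₂ ∧ Nonempty (F₁ ≃g F₂) := by
  classical
  haveI := Fintype.ofFinite X
  obtain ⟨N, hNp, hNt⟩ := hN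
  rw [Subgraph.isPerfectMatching_iff] at hNp
  choose n hn hnu using hNp
  have hn' : ∀ x, N.Adj x (n x) := hn
  have hnu' : ∀ x y, N.Adj x y → y = n x := hnu
  have nn : ∀ x, n (n x) = x := fun x => (hnu' (n x) x (hn' x).symm).symm
  have nadj : ∀ x, G.Adj x (n x) := fun x => (hn' x).adj_sub
  have nx : ∀ x, n x ≠ x := fun x h => by
    have := nadj x
    rw [h] at this
    exact G.irrefl this
  have ninj : ∀ x y, n x = n y → x = y := by
    intro x y h
    rw [← nn x, h, nn]
  let P : X → Prop := fun x => ¬ ∃ z, G.Adj x z ∧ G.Adj (n x) z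
  let top : X → X := fun x => if h : ∃ z, G.Adj x z ∧ G.Adj (n x) z then h.choose else x
  have top_spec : ∀ x, ¬ P x → G.Adj x (top x) ∧ G.Adj (n x) (top x) := by
    intro x hx
    have h : ∃ z, G.Adj x z ∧ G.Adj (n x) z := not_not.mp hx
    have e : top x = h.choose := dif_pos h
    rw [e]
    exact h.choose_spec
  have top_uniq : ∀ x z, G.Adj x z → G.Adj (n x) z → ¬ P x ∧ top x = z := by
    intro x z h1 h2
    have hx : ¬ P x := not_not.mpr ⟨z, h1, h2⟩
    have h3 := top_spec x hx
    exact ⟨hx, hdia x (n x) _ _ (nadj x) h3.1 h3.2 h1 h2⟩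
  have nP : ∀ x, ¬ P x → ¬ P (n x) ∧ top (n x) = top x := by
    intro x hx
    have h3 := top_spec x hx
    exact top_uniq (n x) (top x) h3.2 (by rw [nn]; exact h3.1)
  have nP' : ∀ x, P x → P (n x) := by
    intro x hx h
    apply (nP (n x) (not_not.mpr (not_not.mp (fun h' => h' h)))).1
    rw [nn]; exact hx
  have topP : ∀ x, ¬ P x → P (top x) := by
    intro x hx
    rintro ⟨u, hu1, hu2⟩
    have h3 := top_spec x hx
    have d1 : x ≠ n x := (nx x).symm
    obtain ⟨w, hw1, hw2, hw3, hw4⟩ := third hG (top x) x (n x) h3.1.symm h3.2.symm d1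
    have e1 : n (top x) ≠ x := by
      intro h
      have : top x = n x := by rw [← nn (top x), h]
      rw [this] at h3
      exact G.irrefl h3.2
    have e2 : n (top x) ≠ n x := by
      intro h
      have := ninj _ _ h
      rw [this] at h3
      exact G.irrefl h3.1
    have e3 : n (top x) = w := by
      rcases hw4 _ (nadj (top x)) with h | h | h
      · exact absurd h e1
      · exact absurd h e2
      · exact h
    rcases hw4 u hu1 with h | h | h
    · rw [h] at hu2
      exact e2 (hdia (top x) x (n (top x)) (n x) h3.1.symm (nadj _) hu2.symm h3.2.symm (nadj x))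
    · rw [h] at hu2
      exact e1 (hdia (top x) (n x) (n (top x)) x h3.2.symm (nadj _) hu2.symm h3.1.symm (nadj x).symm)
    · rw [h, e3] at hu2
      exact G.irrefl hu2
  have exY : ∀ v, P v → ∃ y, ¬ P y ∧ top y = v := by
    intro v hv
    obtain ⟨y, z, h1, h2, h3⟩ := htri v
    rcases hNt v y z h1 h2 h3 with h | h | h
    · exfalso
      apply hv
      exact ⟨z, h2, by rw [← hnu' v y h]; exact h3⟩
    · exfalso
      apply hv
      exact ⟨y, h1, by rw [← hnu' v z h]; exact h3.symm⟩
    · have : z = n y := hnu' y z h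
      refine ⟨y, top_uniq y v h1.symm ?_⟩
      rw [← this]; exact h2.symm
  have nbrP : ∀ v y, P v → ¬ P y → top y = v → ∀ u, G.Adj v u → u = y ∨ u = n y ∨ u = n v := by
    intro v y hv hy ht u hu
    have h3 := top_spec y hy
    rw [ht] at h3
    obtain ⟨w, hw1, hw2, hw3, hw4⟩ := third hG v y (n y) h3.1.symm h3.2.symm (nx y).symm
    have e3 : n v = w := by
      rcases hw4 _ (nadj v) with h | h | h
      · exfalso; apply hy; rw [← h]; exact nP' v hv
      · exfalso; apply (nP y hy).1; rw [← h]; exact nP' v hv
      · exact h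
    rw [e3]; exact hw4 u hu
  have char : ∀ v y x, P v → ¬ P y → top y = v → ¬ P x → top x = v → x = y ∨ x = n y := by
    intro v y x hv hy ht hx htx
    have h3 := (top_spec x hx).1
    rw [htx] at h3
    rcases nbrP v y hv hy ht x h3.symm with h | h | h
    · exact Or.inl h
    · exact Or.inr h
    · exfalso; apply hx; rw [h]; exact nP' v hv
  have hout : ∀ x, ∃ w, ¬ P x → (w ≠ n x ∧ w ≠ top x ∧ G.Adj x w ∧
      ∀ u, G.Adj x u → u = n x ∨ u = top x ∨ u = w) := by
    intro x
    by_cases hx : P x
    · exact ⟨x, fun h => absurd hx h⟩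
    · have h3 := top_spec x hx
      obtain ⟨w, hw⟩ := third hG x (n x) (top x) (nadj x) h3.1 h3.2.ne
      exact ⟨w, fun _ => hw⟩
  choose out out_spec using hout
  have outP : ∀ x, ¬ P x → ¬ P (out x) := by
    intro x hx hy
    obtain ⟨o1, o2, o3, o4⟩ := out_spec x hx
    obtain ⟨y', hy', hty⟩ := exY (out x) hy
    rcases nbrP _ y' hy hy' hty x o3.symm with h | h | h
    · exact o2 (hty.symm.trans (congrArg top h.symm))
    · exact o2 (hty.symm.trans ((nP y' hy').2.symm.trans (congrArg top h.symm)))
    · apply o1; rw [h, nn, ← h]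
  have outout : ∀ x, ¬ P x → out (out x) = x := by
    intro x hx
    obtain ⟨o1, o2, o3, o4⟩ := out_spec x hx
    obtain ⟨p1, p2, p3, p4⟩ := out_spec (out x) (outP x hx)
    rcases p4 x o3.symm with h | h | h
    · exfalso; apply o1; rw [h, nn, ← h]
    · exfalso; apply hx; rw [h]; exact topP _ (outP x hx)
    · exact h.symm
  have topout : ∀ x, ¬ P x → top (out x) ≠ top x := by
    intro x hx h
    obtain ⟨o1, o2, o3, o4⟩ := out_spec x hx
    rcases char (top x) x (out x) (topP x hx) hx rfl (outP x hx) h with h' | h'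
    · exact o3.ne h'.symm
    · exact o1 h'
  -- Hall
  let A : {v // P v} → Finset X := fun v => Finset.univ.filter (fun x => ¬ P x ∧ top x = v.1)
  have memA : ∀ v x, x ∈ A v ↔ ¬ P x ∧ top x = v.1 := by
    intro v x; simp only [A, Finset.mem_filter, Finset.mem_univ, true_and]
  have cardA : ∀ v, (A v).card = 2 := by
    intro v
    obtain ⟨y, hy, hty⟩ := exY v.1 v.2
    rw [Finset.card_eq_two]
    refine ⟨y, n y, (nx y).symm, ?_⟩
    ext x
    rw [memA, Finset.mem_insert, Finset.mem_singleton]
    constructor
    · rintro ⟨h1, h2⟩; exact char v.1 y x v.2 hy hty h1 h2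
    · rintro (rfl | rfl)
      · exact ⟨hy, hty⟩
      · exact ⟨(nP y hy).1, (nP y hy).2.trans hty⟩
  let t : {v // P v} → Finset (Sym2 X) := fun v => (A v).image (fun x => s(x, out x))
  have symeq : ∀ x x', ¬ P x → ¬ P x' → s(x, out x) = s(x', out x') → x = x' ∨ x = out x' := by
    intro x x' _ _ h
    rw [Sym2.eq_iff] at h
    rcases h with h | h
    · exact Or.inl h.1
    · exact Or.inr h.1
  have cardt : ∀ v, (t v).card = 2 := by
    intro v
    rw [← cardA v]
    apply Finset.card_image_of_injOn
    intro a ha b hb h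
    have ha' := (memA v a).mp ha
    have hb' := (memA v b).mp hb
    rcases symeq a b ha'.1 hb'.1 h with h' | h'
    · exact h'
    · exfalso
      apply topout b hb'.1
      rw [← h', ha'.2, hb'.2]
  obtain ⟨b, hbinj, hbt⟩ := (Finset.all_card_le_biUnion_card_iff_exists_injective t).mp (by
    intro S
    have h := Finset.card_mul_le_card_mul (s := S) (t := S.biUnion t) (m := 2) (n := 2)
      (fun (v : {v // P v}) (e : Sym2 X) => e ∈ t v) ?_ ?_
    · omega
    · intro v hv
      rw [← cardt v]
      apply Finset.card_le_card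
      intro e he
      rw [Finset.mem_bipartiteAbove, Finset.mem_biUnion]
      exact ⟨⟨v, hv, he⟩, he⟩
    · intro e _
      induction e using Sym2.ind with
      | _ x y =>
        have hsub : ∀ v ∈ Finset.bipartiteBelow (fun (v : {v // P v}) (e : Sym2 X) => e ∈ t v) S s(x, y),
            v.1 ∈ ({top x, top y} : Finset X) := by
          intro v hv
          rw [Finset.mem_bipartiteBelow] at hv
          have h2 := hv.2
          simp only [t, Finset.mem_image] at h2
          obtain ⟨a, ha, hae⟩ := h2
          have ha' := (memA v a).mp ha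
          rw [Sym2.eq_iff] at hae
          rw [Finset.mem_insert, Finset.mem_singleton]
          rcases hae with h' | h'
          · left; rw [← h'.1]; exact ha'.2.symm
          · right; rw [← h'.1]; exact ha'.2.symm
        refine (Finset.card_le_card_of_injOn (t := {top x, top y}) (fun v => v.1)
          (fun v hv => Finset.mem_coe.mpr (hsub v (Finset.mem_coe.mp hv))) ?_).trans
            Finset.card_le_two
        intro v _ w _ h
        exact Subtype.ext h)
  have hi : ∀ v, ∃ x, x ∈ A v ∧ s(x, out x) = b v := by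
    intro v
    have := hbt v
    simp only [t, Finset.mem_image] at this
    exact this
  choose i hiA hib using hi
  have iP : ∀ v, ¬ P (i v) := fun v => ((memA _ _).mp (hiA v)).1
  have itop : ∀ v, top (i v) = v.1 := fun v => ((memA _ _).mp (hiA v)).2
  have iinj : ∀ v w, i v = i w → v = w := by
    intro v w h
    apply Subtype.ext
    rw [← itop v, ← itop w, h]
  let q : {v // P v} → {v // P v} := fun v => ⟨top (out (i v)), topP _ (outP _ (iP v))⟩
  have qne : ∀ v, q v ≠ v := by
    intro v h
    have h1 : top (out (i v)) = v.1 := congrArg Subtype.val h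
    apply topout (i v) (iP v)
    rw [h1, itop]
  have key : ∀ v, out (i v) = n (i (q v)) := by
    intro v
    rcases char (q v).1 (i (q v)) (out (i v)) (q v).2 (iP _) (itop _) (outP _ (iP v)) rfl with h | h
    · exfalso
      apply qne v
      apply hbinj
      rw [← hib (q v), ← hib v, ← h, outout _ (iP v)]
      exact Sym2.eq_swap
    · exact h
  have qinj : Function.Injective q := by
    intro v w h
    apply iinj
    rw [← outout _ (iP v), ← outout _ (iP w), key v, key w, h]
  let s : Equiv.Perm {v // P v} :=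
    (Equiv.ofBijective q (Finite.injective_iff_bijective.mp qinj)).symm
  have hs : ∀ v, s.symm v = q v := fun _ => rfl
  have hqs : ∀ v, q (s v) = v := fun v => s.symm_apply_apply v
  have key2 : ∀ v, out (n (i v)) = i (s v) := by
    intro v
    have := key (s v)
    rw [hqs] at this
    rw [← this, outout _ (iP _)]
  let m : {v // P v} → {v // P v} := fun v => ⟨n v.1, nP' v.1 v.2⟩
  have mm : ∀ v, m (m v) = v := fun v => Subtype.ext (nn v.1)
  have mx : ∀ v, m v ≠ v := fun v h => nx v.1 (congrArg Subtype.val h)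
  have sx : ∀ v, s v ≠ v := by
    intro v h
    apply qne v
    have := hqs v
    rwa [h] at this
  -- port coordinates
  let g : {v // P v} × Port → X := fun a => match a with
    | (v, .m) => v.1
    | (v, .o) => n (i v)
    | (v, .i) => i v
  have g1 : ∀ v, g (v, .m) = v.1 := fun _ => rfl
  have g2 : ∀ v, g (v, .o) = n (i v) := fun _ => rfl
  have g3 : ∀ v, g (v, .i) = i v := fun _ => rfl
  have gbij : Function.Bijective g := by
    constructor
    · rintro ⟨v, p⟩ ⟨w, r⟩ h
      cases p <;> cases r <;> simp only [g1, g2, g3] at h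
      · rw [Subtype.ext h]
      · exfalso; apply (nP _ (iP w)).1; rw [← h]; exact v.2
      · exfalso; apply iP w; rw [← h]; exact v.2
      · exfalso; apply (nP _ (iP v)).1; rw [h]; exact w.2
      · rw [iinj _ _ (ninj _ _ h)]
      · exfalso
        have h1 : v.1 = w.1 := by rw [← itop v, ← (nP _ (iP v)).2, h, itop]
        have h2 : v = w := Subtype.ext h1
        rw [h2] at h
        exact nx _ h
      · exfalso; apply iP v; rw [h]; exact w.2
      · exfalso
        have h1 : v.1 = w.1 := by rw [← itop v, h, (nP _ (iP w)).2, itop]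
        have h2 : v = w := Subtype.ext h1
        rw [h2] at h
        exact nx _ h.symm
      · rw [iinj _ _ h]
    · intro x
      by_cases hx : P x
      · exact ⟨(⟨x, hx⟩, .m), rfl⟩
      · rcases char (top x) (i ⟨top x, topP x hx⟩) x (topP x hx) (iP _) (itop _) hx rfl with h | h
        · exact ⟨(⟨top x, topP x hx⟩, .i), h.symm⟩
        · exact ⟨(⟨top x, topP x hx⟩, .o), h.symm⟩
  have hcardX : Fintype.card {v // P v} * 3 = Nat.card X := by
    letI : Fintype Port := ⟨{.m, .o, .i}, fun p => by cases p <;> simp⟩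
    rw [← Nat.card_congr (Equiv.ofBijective g gbij), Nat.card_eq_fintype_card, Fintype.card_prod]
    rfl
  have h4' : 4 ∣ Fintype.card {v // P v} := by omega
  have hconst : ∀ C : {v // P v} → ZMod 2, (∀ x, C (m x) = C x) → (∀ x, C (s x) = C x) →
      ∀ x y, C x = C y := by
    intro C c1 c2
    let T' : X → {v // P v} := fun x => if h : P x then ⟨x, h⟩ else ⟨top x, topP x h⟩
    have T1 : ∀ x (h : P x), T' x = ⟨x, h⟩ := fun x h => dif_pos h
    have T2 : ∀ x (h : ¬ P x), T' x = ⟨top x, topP x h⟩ := fun x h => dif_neg h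
    have half : ∀ x y, P x → G.Adj x y → C (T' x) = C (T' y) := by
      intro x y hx hxy
      obtain ⟨y0, hy0, hty0⟩ := exY x hx
      rcases nbrP x y0 hx hy0 hty0 y hxy with h | h | h
      · subst h
        rw [T1 x hx, T2 y hy0]
        congr 1
        exact Subtype.ext hty0.symm
      · subst h
        rw [T1 x hx, T2 _ (nP y0 hy0).1]
        congr 1
        exact Subtype.ext ((nP y0 hy0).2.trans hty0).symm
      · subst h
        rw [T1 x hx, T1 _ (nP' x hx)]
        exact (c1 ⟨x, hx⟩).symm
    have step : ∀ x y, G.Adj x y → C (T' x) = C (T' y) := by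
      intro x y hxy
      by_cases hx : P x
      · exact half x y hx hxy
      by_cases hy : P y
      · exact (half y x hy hxy.symm).symm
      obtain ⟨o1, o2, o3, o4⟩ := out_spec x hx
      rw [T2 x hx, T2 y hy]
      rcases o4 y hxy with h | h | h
      · subst h
        congr 1
        exact Subtype.ext (nP x hx).2.symm
      · exfalso; apply hy; rw [h]; exact topP x hx
      · subst h
        rcases char (top x) (i ⟨top x, topP x hx⟩) x (topP x hx) (iP _) (itop _) hx rfl with h | h
        · have e : (⟨top (out x), topP _ hy⟩ : {v // P v}) = q ⟨top x, topP x hx⟩ := by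
            apply Subtype.ext
            simp only [q]
            rw [← h]
          rw [e]
          have := c2 (q ⟨top x, topP x hx⟩)
          rw [← hs, s.apply_symm_apply] at this
          exact this
        · have e : (⟨top (out x), topP _ hy⟩ : {v // P v}) = s ⟨top x, topP x hx⟩ := by
            apply Subtype.ext
            change top (out x) = _
            rw [← itop (s ⟨top x, topP x hx⟩), ← key2, ← h]
          rw [e]
          exact (c2 _).symm
    have all : ∀ x y, C (T' x) = C (T' y) := by
      intro x y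
      obtain ⟨p⟩ := hconn.preconnected x y
      induction p with
      | nil => rfl
      | cons h _ ih => exact (step _ _ h).trans ih
    intro x y
    have := all x.1 y.1
    rw [T1 _ x.2, T1 _ y.2] at this
    exact this
  obtain ⟨l, hl⟩ := solve' m s mm mx hconst h4'
  have conv : ∀ a b c d : ZMod 2, a + b + (c + d) = 1 →
      ((decide (a = 1)).xor (decide (b = 1))).xor ((decide (c = 1)).xor (decide (d = 1))) = true := by
    decide
  let D : Dat {v // P v} :=
    { m := m
      s := s
      l := fun x => decide (l x = 1)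
      mm := mm
      mx := mx
      sx := sx
      sys := fun x => conv _ _ _ _ (hl x) }
  refine port_transfer D g gbij ?_ ?_ ?_
  · intro v y
    change G.Adj v.1 y ↔ y = n v.1 ∨ y = n (i v) ∨ y = i v
    constructor
    · intro h
      rcases nbrP v.1 (i v) v.2 (iP v) (itop v) y h with h' | h' | h'
      · exact Or.inr (Or.inr h')
      · exact Or.inr (Or.inl h')
      · exact Or.inl h'
    · have h3 := top_spec (i v) (iP v)
      rw [itop] at h3
      rintro (h | h | h)
      · rw [h]; exact nadj _
      · rw [h]; exact h3.2.symm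
      · rw [h]; exact h3.1.symm
  · intro v y
    change G.Adj (n (i v)) y ↔ y = v.1 ∨ y = i v ∨ y = i (s v)
    obtain ⟨o1, o2, o3, o4⟩ := out_spec (n (i v)) (nP _ (iP v)).1
    rw [key2] at o1 o2 o3 o4
    rw [(nP _ (iP v)).2, itop] at o2 o4
    rw [nn] at o1 o4
    have h3 := top_spec (i v) (iP v)
    rw [itop] at h3
    constructor
    · intro h
      rcases o4 y h with h' | h' | h'
      · exact Or.inr (Or.inl h')
      · exact Or.inl h'
      · exact Or.inr (Or.inr h')
    · rintro (h | h | h)
      · rw [h]; exact h3.2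
      · rw [h]; exact (nadj (i v)).symm
      · rw [h]; exact o3
  · intro v y
    change G.Adj (i v) y ↔ y = v.1 ∨ y = n (i v) ∨ y = n (i (s.symm v))
    rw [hs]
    obtain ⟨o1, o2, o3, o4⟩ := out_spec (i v) (iP v)
    rw [key] at o1 o2 o3 o4
    rw [itop] at o2 o4
    have h3 := top_spec (i v) (iP v)
    rw [itop] at h3
    constructor
    · intro h
      rcases o4 y h with h' | h' | h'
      · exact Or.inr (Or.inl h')
      · exact Or.inl h'
      · exact Or.inr (Or.inr h')
    · rintro (h | h | h)
      · rw [h]; exact h3.1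
      · rw [h]; exact nadj (i v)
      · rw [h]; exact o3

end Pool.Agent.H1LA
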