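import Pool.Agent.H1LA.Basic

namespace Pool.Agent.H1LA

open SimpleGraph

variable {V W : Type*}

/-- `f` maps the neighbours of each vertex `x` bijectively onto the neighbours of `f x`. -/
def IsCovering (G : SimpleGraph V) (H : SimpleGraph W) (f : V → W) : Prop :=
  ∀ x, Set.BijOn f (G.neighborSet x) (H.neighborSet (f x))

/-- the part of `G` above the subgraph `F` -/
def lift (G : SimpleGraph V) (F : SimpleGraph W) (f : V → W) : SimpleGraph V where
  Adj x y := G.Adj x y ∧ F.Adj (f x) (f y)
  symm := ⟨fun _ _ h => ⟨h.1.symm, h.2.symm⟩⟩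
  loopless := ⟨fun _ h => h.1.ne rfl⟩

theorem lift_covering {G : SimpleGraph V} {H F : SimpleGraph W} {f : V → W}
    (hf : IsCovering G H f) (hF : F ≤ H) : IsCovering (lift G F f) F f := by
  intro x
  refine ⟨?_, ?_, ?_⟩
  · intro y hy
    exact hy.2
  · intro y hy z hz h
    exact (hf x).2.1 hy.1 hz.1 h
  · intro w hw
    obtain ⟨y, hy, rfl⟩ := (hf x).2.2 (hF hw : H.Adj (f x) w)
    exact ⟨y, ⟨hy, hw⟩, rfl⟩

section
variable {E : SimpleGraph V} {F : SimpleGraph W} {f : V → W}

/-- the graph homomorphism given by a covering -/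
def covHom (h : IsCovering E F f) : E →g F where
  toFun := f
  map_rel' := fun {x _} hxy => (h x).1 hxy

theorem map_isPath (h : IsCovering E F f) (hF : F.IsAcyclic) {x y : V} (p : E.Walk x y)
    (hp : p.IsPath) : (p.map (covHom h)).IsPath := by
  rw [hF.isPath_iff_isChain]
  induction p with
  | nil => simp
  | @cons u v w huv p ih =>
    have hp' := (Walk.cons_isPath_iff huv p).mp hp
    have ih' := ih hp'.1
    cases p with
    | nil => simp
    | @cons _ v' _ hvv' p' =>
      simp only [Walk.map_cons, Walk.edges_cons] at ih' ⊢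
      rw [List.isChain_cons_cons]
      refine ⟨?_, ih'⟩
      intro he
      rw [Sym2.eq_iff] at he
      have hne : u ≠ v' := by
        intro h'
        apply hp'.2
        rw [h']
        simp
      rcases he with he | he
      · have h1 : F.Adj (f u) (f v) := (h u).1 huv
        exact h1.ne he.1
      · apply hne
        have m1 : u ∈ E.neighborSet v := huv.symm
        have m2 : v' ∈ E.neighborSet v := hvv'
        exact (h v).2.1 m1 m2 he.1

theorem inj_of_reachable (h : IsCovering E F f) (hF : F.IsAcyclic) {x y : V}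
    (hr : E.Reachable x y) (he : f x = f y) : x = y := by
  classical
  obtain ⟨p, hp⟩ := hr.exists_isPath
  have hq := map_isPath h hF p hp
  have hl : (p.map (covHom h)).length = 0 := by
    have inj := hq.getVert_injOn
    have := @inj 0 (Set.mem_setOf_eq ▸ Nat.zero_le _) (p.map (covHom h)).length
      (Set.mem_setOf_eq ▸ le_refl _)
      (by rw [Walk.getVert_zero, Walk.getVert_length]; exact he)
    exact this.symm
  rw [Walk.length_map] at hl
  exact Walk.eq_of_length_eq_zero hl

theorem exists_lift (h : IsCovering E F f) {w w' : W} (q : F.Walk w w') :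
    ∀ x, f x = w → ∃ y, E.Reachable x y ∧ f y = w' := by
  induction q with
  | nil => intro x hx; exact ⟨x, Reachable.refl x, hx⟩
  | @cons a b c hab q ih =>
    intro x hx
    subst hx
    obtain ⟨z, hz, hzb⟩ := (h x).2.2 hab
    obtain ⟨y, hy, hyc⟩ := ih z hzb
    exact ⟨y, (Adj.reachable hz).trans hy, hyc⟩

theorem linear_lift (h : IsCovering E F f) {k : ℕ} (hF : IsLinearForest k F) :
    IsLinearForest k E := by
  refine ⟨?_, ?_, ?_⟩
  · intro v w hw
    obtain ⟨u, e, p, rfl⟩ : ∃ u, ∃ (e : E.Adj v u) (p : E.Walk u v), w = Walk.cons e p := by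
      cases w with
      | nil => exact absurd hw (by simp)
      | cons e p => exact ⟨_, e, p, rfl⟩
    have hlen := hw.three_le_length
    rw [Walk.cons_isCycle_iff] at hw
    have hlen : 2 ≤ p.length := by simpa using hlen
    have hq := map_isPath h hF.1 p hw.1
    have hadj : F.Adj (f u) (f v) := ((h v).1 e).symm
    have hq1 : (Walk.cons hadj Walk.nil : F.Walk (f u) (f v)).IsPath := by
      simp [Walk.cons_isPath_iff, hadj.ne]
    have := hF.1.path_unique ⟨p.map (covHom h), hq⟩ ⟨_, hq1⟩
    have h2 : p.map (covHom h) = Walk.cons hadj Walk.nil := congrArg Subtype.val this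
    have h3 := congrArg Walk.length h2
    rw [Walk.length_map] at h3
    have h4 : p.length = 1 := h3
    omega
  · intro x
    have h1 : f '' (E.neighborSet x) ⊆ F.neighborSet (f x) := by
      rintro _ ⟨y, hy, rfl⟩
      exact (h x).1 hy
    rw [← (h x).2.1.encard_image]
    exact (Set.encard_le_encard h1).trans (hF.2.1 (f x))
  · intro u v p hp
    have := hF.2.2 _ _ (p.map (covHom h)) (map_isPath h hF.1 p hp)
    rwa [Walk.length_map] at this

/-- A covering of a forest with all fibres of size `d` is `d` disjoint copies of it. -/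
theorem trivialise [Finite V] (h : IsCovering E F f) (hF : F.IsAcyclic) {d : ℕ}
    (hd : ∀ w, Nat.card {x // f x = w} = d) :
    ∃ Ψ : V ≃ W × Fin d, ∀ x y, E.Adj x y ↔ F.Adj (Ψ x).1 (Ψ y).1 ∧ (Ψ x).2 = (Ψ y).2 := by
  classical
  let e : ∀ w, {x // f x = w} ≃ Fin d := fun w => Finite.equivFinOfCardEq (hd w)
  let β : W → V → Fin d := fun w x => if hx : f x = w then e w ⟨x, hx⟩ else e (f x) ⟨x, rfl⟩
  have β1 : ∀ w x (hx : f x = w), β w x = e w ⟨x, hx⟩ := by
    intro w x hx; simp only [β, dif_pos hx]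
  have βinj : ∀ w x y, f x = w → f y = w → β w x = β w y → x = y := by
    intro w x y hx hy hxy
    rw [β1 w x hx, β1 w y hy] at hxy
    exact congrArg Subtype.val ((e w).injective hxy)
  have βsurj : ∀ w i, ∃ x, f x = w ∧ β w x = i := by
    intro w i
    refine ⟨((e w).symm i).1, ((e w).symm i).2, ?_⟩
    rw [β1 w _ ((e w).symm i).2]
    exact (e w).apply_symm_apply i
  -- roots
  let r : W → W := fun w => (F.connectedComponentMk w).out
  have hr : ∀ w, F.Reachable w (r w) := by
    intro w
    have : F.connectedComponentMk (r w) = F.connectedComponentMk w := Quot.out_eq _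
    exact (ConnectedComponent.exact this).symm
  have hr' : ∀ w w', F.Reachable w w' → r w = r w' := by
    intro w w' hw
    simp only [r]
    rw [ConnectedComponent.sound hw]
  have hex : ∀ x, ∃ y, E.Reachable x y ∧ f y = r (f x) := by
    intro x
    obtain ⟨q⟩ := hr (f x)
    exact exists_lift h q x rfl
  choose t ht htr using hex
  have hmap : ∀ x y, E.Reachable x y → F.Reachable (f x) (f y) := by
    intro x y hxy
    exact hxy.map (covHom h)
  have tuniq : ∀ x y, E.Reachable x y → t x = t y := by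
    intro x y hxy
    apply inj_of_reachable h hF ((ht x).symm.trans (hxy.trans (ht y)))
    rw [htr, htr]
    exact hr' _ _ (hmap _ _ hxy)
  let Ψ : V → W × Fin d := fun x => (f x, β (r (f x)) (t x))
  have key : ∀ x y, F.Reachable (f x) (f y) → β (r (f x)) (t x) = β (r (f y)) (t y) →
      E.Reachable x y := by
    intro x y hxy hb
    rw [hr' _ _ hxy] at hb
    have h1 : f (t x) = r (f y) := by rw [htr, hr' _ _ hxy]
    have h2 := βinj _ _ _ h1 (htr y) hb
    exact (ht x).trans (h2 ▸ (ht y).symm)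
  have hbij : Function.Bijective Ψ := by
    constructor
    · intro x y hxy
      have h1 : f x = f y := congrArg Prod.fst hxy
      have h2 : β (r (f x)) (t x) = β (r (f y)) (t y) := congrArg Prod.snd hxy
      exact inj_of_reachable h hF (key x y (h1 ▸ Reachable.refl _) h2) h1
    · rintro ⟨w, i⟩
      obtain ⟨y0, hy0, hβ⟩ := βsurj (r w) i
      obtain ⟨q⟩ := (hr w).symm
      obtain ⟨x, hx, hxw⟩ := exists_lift h q y0 hy0
      refine ⟨x, ?_⟩
      have h3 : t x = y0 := by
        apply inj_of_reachable h hF ((ht x).symm.trans hx.symm)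
        rw [htr, hxw, hy0]
      simp only [Ψ, hxw, h3, hβ]
  refine ⟨Equiv.ofBijective Ψ hbij, ?_⟩
  intro x y
  simp only [Equiv.ofBijective_apply, Ψ]
  constructor
  · intro hxy
    have h1 : F.Adj (f x) (f y) := (h x).1 hxy
    refine ⟨h1, ?_⟩
    rw [hr' _ _ h1.reachable, tuniq x y hxy.reachable]
  · rintro ⟨h1, h2⟩
    have h3 := key x y h1.reachable h2
    obtain ⟨y', hy', he⟩ := (h x).2.2 h1
    have h4 : E.Adj x y' := hy'
    have h5 : y' = y := inj_of_reachable h hF (h4.reachable.symm.trans h3) he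
    rw [← h5]; exact h4

end

theorem cover_main [Finite V] {G : SimpleGraph V} {H : SimpleGraph W} {f : V → W} {d k : ℕ}
    (hf : IsCovering G H f) (hd : ∀ w, Nat.card {x // f x = w} = d)
    (hH : ∃ F₁ F₂ : SimpleGraph W, IsDecomp H F₁ F₂ ∧ IsLinearForest k F₁ ∧
      IsLinearForest k F₂ ∧ Nonempty (F₁ ≃g F₂)) :
    ∃ F₁ F₂ : SimpleGraph V, IsDecomp G F₁ F₂ ∧ IsLinearForest k F₁ ∧
      IsLinearForest k F₂ ∧ Nonempty (F₁ ≃g F₂) := by
  obtain ⟨F₁, F₂, hD, h1, h2, ⟨φ⟩⟩ := hH
  have hadj : ∀ x y, H.Adj x y ↔ F₁.Adj x y ∨ F₂.Adj x y := by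
    intro x y
    rw [← mem_edgeSet, hD.1, Set.mem_union, mem_edgeSet, mem_edgeSet]
  have le1 : F₁ ≤ H := fun x y hxy => (hadj x y).mpr (Or.inl hxy)
  have le2 : F₂ ≤ H := fun x y hxy => (hadj x y).mpr (Or.inr hxy)
  have c1 := lift_covering hf le1
  have c2 := lift_covering hf le2
  obtain ⟨Ψ₁, hΨ₁⟩ := trivialise c1 h1.1 hd
  obtain ⟨Ψ₂, hΨ₂⟩ := trivialise c2 h2.1 hd
  refine ⟨lift G F₁ f, lift G F₂ f, ⟨?_, ?_⟩, linear_lift c1 h1, linear_lift c2 h2, ⟨?_⟩⟩
  · ext s
    induction s using Sym2.ind with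
    | _ x y =>
      rw [Set.mem_union, mem_edgeSet, mem_edgeSet, mem_edgeSet]
      constructor
      · intro hxy
        rcases (hadj _ _).mp ((hf x).1 hxy) with h | h
        · exact Or.inl ⟨hxy, h⟩
        · exact Or.inr ⟨hxy, h⟩
      · rintro (h | h)
        · exact h.1
        · exact h.1
  · rw [Set.disjoint_left]
    intro s
    induction s using Sym2.ind with
    | _ x y =>
      rw [mem_edgeSet, mem_edgeSet]
      intro h h'
      exact Set.disjoint_left.mp hD.2 ((mem_edgeSet F₁).mpr h.2) ((mem_edgeSet F₂).mpr h'.2)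
  · refine ⟨Ψ₁.trans ((Equiv.prodCongr φ.toEquiv (Equiv.refl _)).trans Ψ₂.symm), ?_⟩
    intro x y
    rw [hΨ₂, hΨ₁]
    simp only [Equiv.trans_apply, Equiv.apply_symm_apply, Equiv.prodCongr_apply, Prod.map_fst,
      Prod.map_snd, Equiv.refl_apply]
    have : F₂.Adj (φ.toEquiv (Ψ₁ x).1) (φ.toEquiv (Ψ₁ y).1) ↔ F₁.Adj (Ψ₁ x).1 (Ψ₁ y).1 :=
      φ.map_adj_iff
    rw [this]

end Pool.Agent.H1LA
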