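import Pool.Agent.H1LA.Claw

namespace Pool.Agent.H1LA

open SimpleGraph

variable {V W : Type*}

/-- the edge `uv` of `G` is replaced by a diamond: the edge is deleted, four new vertices
`0, 1, 2, 3` are added, joined by all edges except `03`, and `u` is joined to `0`, `v` to `3`. -/
def diamond (G : SimpleGraph V) (u v : V) : SimpleGraph (V ⊕ Fin 4) where
  Adj a b := match a, b with
    | .inl x, .inl y => G.Adj x y ∧ ¬ (x = u ∧ y = v) ∧ ¬ (x = v ∧ y = u)
    | .inl x, .inr i => (x = u ∧ i = 0) ∨ (x = v ∧ i = 3)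
    | .inr i, .inl x => (x = u ∧ i = 0) ∨ (x = v ∧ i = 3)
    | .inr i, .inr j => i ≠ j ∧ ¬ (i = 0 ∧ j = 3) ∧ ¬ (i = 3 ∧ j = 0)
  symm := ⟨by
    rintro (x | i) (y | j) h
    · exact ⟨h.1.symm, fun h' => h.2.2 ⟨h'.2, h'.1⟩, fun h' => h.2.1 ⟨h'.2, h'.1⟩⟩
    · exact h
    · exact h
    · exact ⟨h.1.symm, fun h' => h.2.2 ⟨h'.2, h'.1⟩, fun h' => h.2.1 ⟨h'.2, h'.1⟩⟩⟩
  loopless := ⟨by
    rintro (x | i) h
    · exact h.1.ne rfl
    · exact h.1 rfl⟩

/-- same with inner edges `S` -/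
def ins (F : SimpleGraph V) (u v : V) (S : SimpleGraph (Fin 4)) : SimpleGraph (V ⊕ Fin 4) where
  Adj a b := match a, b with
    | .inl x, .inl y => F.Adj x y ∧ ¬ (x = u ∧ y = v) ∧ ¬ (x = v ∧ y = u)
    | .inl x, .inr i => (x = u ∧ i = 0) ∨ (x = v ∧ i = 3)
    | .inr i, .inl x => (x = u ∧ i = 0) ∨ (x = v ∧ i = 3)
    | .inr i, .inr j => S.Adj i j
  symm := ⟨by
    rintro (x | i) (y | j) h
    · exact ⟨h.1.symm, fun h' => h.2.2 ⟨h'.2, h'.1⟩, fun h' => h.2.1 ⟨h'.2, h'.1⟩⟩
    · exact h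
    · exact h
    · exact h.symm⟩
  loopless := ⟨by
    rintro (x | i) h
    · exact h.1.ne rfl
    · exact h.ne rfl⟩

def pth : SimpleGraph (Fin 4) where
  Adj i j := i.val + 1 = j.val ∨ j.val + 1 = i.val
  symm := ⟨fun _ _ h => h.symm⟩
  loopless := ⟨fun i h => by omega⟩

def sA : SimpleGraph (Fin 4) where
  Adj i j := (i = 0 ∧ j = 1) ∨ (i = 1 ∧ j = 0) ∨ (i = 2 ∧ j = 3) ∨ (i = 3 ∧ j = 2)
  symm := ⟨by decide⟩
  loopless := ⟨by decide⟩

def sA' : SimpleGraph (Fin 4) where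
  Adj i j := (i = 0 ∧ j = 2) ∨ (i = 2 ∧ j = 0) ∨ (i = 1 ∧ j = 2) ∨ (i = 2 ∧ j = 1) ∨
    (i = 1 ∧ j = 3) ∨ (i = 3 ∧ j = 1)
  symm := ⟨by decide⟩
  loopless := ⟨by decide⟩

def sB : SimpleGraph (Fin 4) where
  Adj i j := (i = 0 ∧ j = 1) ∨ (i = 1 ∧ j = 0) ∨ (i = 1 ∧ j = 2) ∨ (i = 2 ∧ j = 1)
  symm := ⟨by decide⟩
  loopless := ⟨by decide⟩

def sB' : SimpleGraph (Fin 4) where
  Adj i j := (i = 0 ∧ j = 2) ∨ (i = 2 ∧ j = 0) ∨ (i = 2 ∧ j = 3) ∨ (i = 3 ∧ j = 2) ∨
    (i = 1 ∧ j = 3) ∨ (i = 3 ∧ j = 1)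
  symm := ⟨by decide⟩
  loopless := ⟨by decide⟩

instance : DecidableRel pth.Adj := fun i j => by unfold pth; infer_instance
instance : DecidableRel sA.Adj := fun i j => by unfold sA; infer_instance
instance : DecidableRel sA'.Adj := fun i j => by unfold sA'; infer_instance
instance : DecidableRel sB.Adj := fun i j => by unfold sB; infer_instance
instance : DecidableRel sB'.Adj := fun i j => by unfold sB'; infer_instance

theorem pth_linear : IsLinearForest 4 pth := by
  refine linear_of_pos (fun i => i.val) ?_ ?_ ?_ ?_ <;> decide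

def isoA : sA' ≃g pth where
  toFun := ![0, 2, 1, 3]
  invFun := ![0, 2, 1, 3]
  left_inv := by decide
  right_inv := by decide
  map_rel_iff' := by decide

def isoB : sB' ≃g pth where
  toFun := ![0, 3, 1, 2]
  invFun := ![0, 2, 3, 1]
  left_inv := by decide
  right_inv := by decide
  map_rel_iff' := by decide

theorem walk_pull {U V' : Type*} {F : SimpleGraph U} {G' : SimpleGraph V'} (φ : U → V')
    (h : ∀ x z, G'.Adj (φ x) z → ∃ y, z = φ y ∧ F.Adj x y) :
    ∀ (a b : V') (p : G'.Walk a b) (x : U), a = φ x →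
      ∃ y, ∃ q : F.Walk x y, b = φ y ∧ q.length = p.length ∧ q.support.map φ = p.support := by
  intro a b p
  induction p with
  | nil => intro x hx; exact ⟨x, Walk.nil, hx, rfl, by simp [hx]⟩
  | @cons a c b hac p ih =>
    intro x hx
    subst hx
    obtain ⟨y, rfl, hxy⟩ := h x c hac
    obtain ⟨z, q, hz, hl, hs⟩ := ih y rfl
    exact ⟨z, Walk.cons hxy q, hz, by simp [hl], by simp [hs]⟩

theorem pull_cyc {U V' : Type*} {H : SimpleGraph U} {G' : SimpleGraph V'} (φ : U → V')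
    (hφ : Function.Injective φ) (hh : ∀ x z, G'.Adj (φ x) z → ∃ y, z = φ y ∧ H.Adj x y)
    (hH : H.IsAcyclic) (x : U) (w : G'.Walk (φ x) (φ x)) : ¬ w.IsCycle := by
  intro hw
  obtain ⟨u, e, p, rfl⟩ : ∃ u, ∃ (e : G'.Adj (φ x) u) (p : G'.Walk u (φ x)),
      w = Walk.cons e p := by
    cases w with
    | nil => exact absurd hw (by simp)
    | cons e p => exact ⟨_, e, p, rfl⟩
  have hlen := hw.three_le_length
  rw [Walk.cons_isCycle_iff] at hw
  have hlen : 2 ≤ p.length := by simpa using hlen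
  obtain ⟨x', rfl, hxx'⟩ := hh x u e
  obtain ⟨y, q, hy, hql, hqs⟩ := walk_pull φ hh _ _ p x' rfl
  have : x = y := hφ hy
  subst this
  have hqp : q.IsPath := by
    rw [Walk.isPath_def]
    have := hw.1.support_nodup
    rw [← hqs] at this
    exact this.of_map _
  have hq1 : (Walk.cons hxx'.symm Walk.nil : H.Walk x' x).IsPath := by
    simp [Walk.cons_isPath_iff, hxx'.ne.symm]
  have := hH.path_unique ⟨q, hqp⟩ ⟨_, hq1⟩
  have h2 : q = Walk.cons hxx'.symm Walk.nil := congrArg Subtype.val this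
  rw [h2] at hql
  simp at hql
  omega

theorem pull_len {U V' : Type*} {H : SimpleGraph U} {G' : SimpleGraph V'} {k : ℕ} (φ : U → V')
    (hh : ∀ x z, G'.Adj (φ x) z → ∃ y, z = φ y ∧ H.Adj x y)
    (hH : IsLinearForest k H) (x : U) (b : V') (w : G'.Walk (φ x) b) (hw : w.IsPath) :
    w.length ≤ k := by
  obtain ⟨y, q, hy, hql, hqs⟩ := walk_pull φ hh _ _ w x rfl
  have hqp : q.IsPath := by
    rw [Walk.isPath_def]
    have := hw.support_nodup
    rw [← hqs] at this
    exact this.of_map _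
  rw [← hql]
  exact hH.2.2 _ _ q hqp

theorem sum_linear {F : SimpleGraph V} {E : SimpleGraph W} {k : ℕ} (hF : IsLinearForest k F)
    (hE : IsLinearForest k E) : IsLinearForest k (F ⊕g E) := by
  have hl : ∀ x z, (F ⊕g E).Adj (Sum.inl x) z → ∃ y, z = Sum.inl y ∧ F.Adj x y := by
    rintro x (y | y) h
    · exact ⟨y, rfl, by simpa using h⟩
    · exact absurd h (by simp)
  have hr : ∀ x z, (F ⊕g E).Adj (Sum.inr x) z → ∃ y, z = Sum.inr y ∧ E.Adj x y := by
    rintro x (y | y) h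
    · exact absurd h (by simp)
    · exact ⟨y, rfl, by simpa using h⟩
  refine ⟨?_, ?_, ?_⟩
  · rintro (x | x) w
    · exact pull_cyc Sum.inl Sum.inl_injective hl hF.1 x w
    · exact pull_cyc Sum.inr Sum.inr_injective hr hE.1 x w
  · rintro (x | x)
    · have : (F ⊕g E).neighborSet (Sum.inl x) ⊆ Sum.inl '' (F.neighborSet x) := by
        intro z hz
        obtain ⟨y, rfl, hy⟩ := hl x z hz
        exact ⟨y, hy, rfl⟩
      refine (Set.encard_le_encard this).trans ?_
      rw [Sum.inl_injective.injOn.encard_image]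
      exact hF.2.1 x
    · have : (F ⊕g E).neighborSet (Sum.inr x) ⊆ Sum.inr '' (E.neighborSet x) := by
        intro z hz
        obtain ⟨y, rfl, hy⟩ := hr x z hz
        exact ⟨y, hy, rfl⟩
      refine (Set.encard_le_encard this).trans ?_
      rw [Sum.inr_injective.injOn.encard_image]
      exact hE.2.1 x
  · rintro (x | x) b w hw
    · exact pull_len Sum.inl hl hF x b w hw
    · exact pull_len Sum.inr hr hE x b w hw

theorem iso_covering {G : SimpleGraph V} {H : SimpleGraph W} (e : G ≃g H) : IsCovering G H e := by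
  intro x
  refine ⟨?_, ?_, ?_⟩
  · intro y hy; exact e.map_adj_iff.mpr hy
  · intro y _ z _ h; exact e.injective h
  · intro w hw
    refine ⟨e.symm w, ?_, e.apply_symm_apply w⟩
    have : H.Adj (e x) (e (e.symm w)) := by rw [e.apply_symm_apply]; exact hw
    exact e.map_adj_iff.mp this

theorem iso_linear {G : SimpleGraph V} {H : SimpleGraph W} (e : G ≃g H) {k : ℕ}
    (h : IsLinearForest k H) : IsLinearForest k G := linear_lift (iso_covering e) h


/-- the end of the path of `F` on the side of `u` (seen from the edge `uv`) is `u` itself or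
the next vertex. -/
def GoodEnd (F : SimpleGraph V) (u v : V) : Prop :=
  (∀ z, F.Adj u z → z = v) ∨
    ∃ a, a ≠ v ∧ F.Adj u a ∧ (∀ z, F.Adj u z → z = v ∨ z = a) ∧ ∀ z, F.Adj a z → z = u

theorem nb_two {F : SimpleGraph V} {x a b c : V} (h : (F.neighborSet x).encard ≤ 2)
    (ha : F.Adj x a) (hb : F.Adj x b) (hc : F.Adj x c) (hab : a ≠ b) : c = a ∨ c = b := by
  by_contra hcon
  push Not at hcon
  have hsub : ({a, b, c} : Set V) ⊆ F.neighborSet x := by
    intro z hz
    simp only [Set.mem_insert_iff, Set.mem_singleton_iff] at hz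
    rcases hz with rfl | rfl | rfl
    · exact ha
    · exact hb
    · exact hc
  have h3 : ({a, b, c} : Set V).encard = 3 := by
    rw [Set.encard_eq_three]
    exact ⟨a, b, c, hab, hcon.1.symm, hcon.2.symm, rfl⟩
  have := (Set.encard_le_encard hsub).trans h
  rw [h3] at this
  exact absurd this (by norm_num)

theorem goodEnd_or {F : SimpleGraph V} (hF : IsLinearForest 4 F) {u v : V} (huv : F.Adj u v) :
    GoodEnd F u v ∨ GoodEnd F v u := by
  by_contra hcon
  push Not at hcon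
  have side : ∀ u v, F.Adj u v → ¬ GoodEnd F u v → ∃ a a', a ≠ v ∧ F.Adj u a ∧ F.Adj a a' ∧ a' ≠ u := by
    intro u v huv h
    unfold GoodEnd at h
    push Not at h
    obtain ⟨⟨a, ha, hav⟩, h2⟩ := h
    have h3 : ∀ z, F.Adj u z → z = v ∨ z = a := fun z hz => nb_two (hF.2.1 u) huv ha hz hav.symm
    obtain ⟨a', ha', hne⟩ := h2 a hav ha h3
    exact ⟨a, a', hav, ha, ha', hne⟩
  obtain ⟨a, a', hav, hua, haa', ha'u⟩ := side u v huv hcon.1
  obtain ⟨b, b', hbu, hvb, hbb', hb'v⟩ := side v u huv.symm hcon.2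
  let p : F.Walk a' b' := Walk.cons haa'.symm (Walk.cons hua.symm (Walk.cons huv
    (Walk.cons hvb (Walk.cons hbb' Walk.nil))))
  have hp : p.IsPath := by
    rw [hF.1.isPath_iff_isChain]
    have ne2 : ∀ x y z : V, F.Adj x y → x ≠ z → s(x, y) ≠ s(y, z) := by
      intro x y z hxy hxz h
      rw [Sym2.eq_iff] at h
      rcases h with h | h
      · exact hxy.ne h.1
      · exact hxz h.1
    simp only [p, Walk.edges_cons, Walk.edges_nil]
    simp only [List.isChain_cons_cons, List.isChain_singleton, and_true]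
    exact ⟨ne2 _ _ _ haa'.symm ha'u, ne2 _ _ _ hua.symm hav, ne2 _ _ _ huv hbu.symm,
      ne2 _ _ _ hvb hb'v.symm⟩
  have := hF.2.2 a' b' p hp
  simp [p] at this

end Pool.Agent.H1LA
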