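import Pool.Agent.H1LA.InsertC

namespace Pool.Agent.H1LA

open SimpleGraph

universe u0

variable {V : Type u0}

def TwoEdge' (G : SimpleGraph V) : Prop :=
  ∀ S : Set V, S.Nonempty → Sᶜ.Nonempty → ∃ x y x' y', x ∈ S ∧ y ∉ S ∧ G.Adj x y ∧
    x' ∈ S ∧ y' ∉ S ∧ G.Adj x' y' ∧ ¬ (x = x' ∧ y = y')

theorem nbr_iff {G : SimpleGraph V} (hG : IsCubic G) {a b c d : V} (hb : G.Adj a b)
    (hc : G.Adj a c) (hd : G.Adj a d) (hbc : b ≠ c) (hbd : b ≠ d) (hcd : c ≠ d) (t : V) :
    G.Adj a t ↔ t = b ∨ t = c ∨ t = d := by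
  have h3 := hG a
  have hsub : ({b, c, d} : Set V) ⊆ G.neighborSet a := by
    intro z hz
    simp only [Set.mem_insert_iff, Set.mem_singleton_iff] at hz
    rcases hz with rfl | rfl | rfl
    · exact hb
    · exact hc
    · exact hd
  have hc3 : ({b, c, d} : Set V).encard = 3 := by
    rw [Set.encard_eq_three]
    exact ⟨b, c, d, hbc, hbd, hcd, rfl⟩
  have hfin : (G.neighborSet a).Finite := Set.finite_of_encard_eq_coe h3
  have heq : ({b, c, d} : Set V) = G.neighborSet a :=
    hfin.eq_of_subset_of_encard_le' hsub (by rw [h3, hc3])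
  constructor
  · intro h
    have : t ∈ ({b, c, d} : Set V) := by rw [heq]; exact h
    simpa using this
  · rintro (rfl | rfl | rfl)
    · exact hb
    · exact hc
    · exact hd

/-- the data of a diamond `z, x, y, w` with outer neighbours `u`, `v` -/
structure Ext (G : SimpleGraph V) (x y z w u v : V) : Prop where
  Nx : ∀ t, G.Adj x t ↔ t = y ∨ t = z ∨ t = w
  Ny : ∀ t, G.Adj y t ↔ t = x ∨ t = z ∨ t = w
  Nz : ∀ t, G.Adj z t ↔ t = x ∨ t = y ∨ t = u
  Nw : ∀ t, G.Adj w t ↔ t = x ∨ t = y ∨ t = v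
  xy : x ≠ y
  xz : x ≠ z
  xw : x ≠ w
  yz : y ≠ z
  yw : y ≠ w
  zw : z ≠ w
  ux : u ≠ x
  uy : u ≠ y
  uz : u ≠ z
  uw : u ≠ w
  vx : v ≠ x
  vy : v ≠ y
  vz : v ≠ z
  vw : v ≠ w
  uv : u ≠ v
  nadj : ¬ G.Adj u v

theorem exists_ext [Finite V] {G : SimpleGraph V} (hG : IsCubic G)
    (htri : ∀ x, ∃ y z, G.Adj x y ∧ G.Adj x z ∧ G.Adj y z) (h2 : TwoEdge' G)
    (hcard : Nat.card V ≠ 4) {x y z w : V} (hxy : G.Adj x y) (hxz : G.Adj x z)
    (hyz : G.Adj y z) (hxw : G.Adj x w) (hyw : G.Adj y w) (hzw : z ≠ w) :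
    ∃ u v, Ext G x y z w u v := by
  classical
  have := Fintype.ofFinite V
  have Nx := nbr_iff hG hxy hxz hxw hyz.ne hyw.ne hzw
  have Ny := nbr_iff hG hxy.symm hyz hyw hxz.ne hxw.ne hzw
  obtain ⟨u, ux, uy, zu, Nz'⟩ := third hG z x y hxz.symm hyz.symm hxy.ne
  obtain ⟨v, vx, vy, wv, Nw'⟩ := third hG w x y hxw.symm hyw.symm hxy.ne
  have Nz := nbr_iff hG hxz.symm hyz.symm zu hxy.ne ux.symm uy.symm
  have Nw := nbr_iff hG hxw.symm hyw.symm wv hxy.ne vx.symm vy.symm
  have nzw : ¬ G.Adj z w := by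
    intro hadj
    have hu : w = u := by
      rcases (Nz w).mp hadj with h | h | h
      · exact absurd h hxw.ne.symm
      · exact absurd h hyw.ne.symm
      · exact h
    have hv : z = v := by
      rcases (Nw z).mp hadj.symm with h | h | h
      · exact absurd h hxz.ne.symm
      · exact absurd h hyz.ne.symm
      · exact h
    have hne : ({x, y, z, w} : Set V)ᶜ.Nonempty := by
      by_contra hcon
      rw [Set.not_nonempty_iff_eq_empty, Set.compl_empty_iff] at hcon
      apply hcard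
      have hcd : (({x, y, z, w} : Finset V) : Set V) = Set.univ := by
        rw [← hcon]; simp
      have h5 : ({x, y, z, w} : Finset V) = Finset.univ := by
        rw [← Finset.coe_univ] at hcd
        exact_mod_cast hcd
      rw [Nat.card_eq_fintype_card, ← Finset.card_univ, ← h5]
      rw [Finset.card_insert_of_notMem, Finset.card_insert_of_notMem,
        Finset.card_insert_of_notMem, Finset.card_singleton]
      · simpa using hzw
      · simpa using ⟨hyz.ne, hyw.ne⟩
      · simpa using ⟨hxy.ne, hxz.ne, hxw.ne⟩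
    obtain ⟨p, q, _, _, hp, hq, hpq, _⟩ := h2 {x, y, z, w} ⟨x, by simp⟩ hne
    simp only [Set.mem_insert_iff, Set.mem_singleton_iff] at hp hq
    apply hq
    rcases hp with rfl | rfl | rfl | rfl
    · rcases (Nx q).mp hpq with h | h | h <;> simp [h]
    · rcases (Ny q).mp hpq with h | h | h <;> simp [h]
    · rcases (Nz q).mp hpq with h | h | h <;> simp [h, hu]
    · rcases (Nw q).mp hpq with h | h | h <;> simp [h, hv]
  have uw : u ≠ w := by rintro rfl; exact nzw zu
  have vz : v ≠ z := by rintro rfl; exact nzw wv.symm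
  have uz : u ≠ z := zu.ne.symm
  have vw : v ≠ w := wv.ne.symm
  have Ax : ∀ t, t ≠ y → t ≠ z → t ≠ w → ¬ G.Adj x t := fun t h1 h2 h3 h => by
    rcases (Nx t).mp h with h' | h' | h' <;> contradiction
  have Ay : ∀ t, t ≠ x → t ≠ z → t ≠ w → ¬ G.Adj y t := fun t h1 h2 h3 h => by
    rcases (Ny t).mp h with h' | h' | h' <;> contradiction
  have uv : u ≠ v := by
    intro huv
    rw [← huv] at Nw wv
    obtain ⟨t, tz, tw, ut, Nu⟩ := third hG u z w zu.symm wv.symm hzw
    have tx : t ≠ x := by rintro rfl; exact Ax u uy uz uw ut.symm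
    have ty : t ≠ y := by rintro rfl; exact Ay u ux uz uw ut.symm
    have hne : ({x, y, z, w, u} : Set V)ᶜ.Nonempty := ⟨t, by simp [tx, ty, tz, tw, ut.ne.symm]⟩
    obtain ⟨p, q, p', q', hp, hq, hpq, hp', hq', hpq', hd⟩ :=
      h2 {x, y, z, w, u} ⟨x, by simp⟩ hne
    have key : ∀ p q, p ∈ ({x, y, z, w, u} : Set V) → q ∉ ({x, y, z, w, u} : Set V) →
        G.Adj p q → p = u ∧ q = t := by
      intro p q hp hq hpq
      simp only [Set.mem_insert_iff, Set.mem_singleton_iff] at hp hq
      push Not at hq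
      obtain ⟨q1, q2, q3, q4, q5⟩ := hq
      rcases hp with rfl | rfl | rfl | rfl | rfl
      · rcases (Nx q).mp hpq with h | h | h <;> contradiction
      · rcases (Ny q).mp hpq with h | h | h <;> contradiction
      · rcases (Nz q).mp hpq with h | h | h <;> contradiction
      · rcases (Nw q).mp hpq with h | h | h <;> contradiction
      · rcases Nu q hpq with h | h | h
        · contradiction
        · contradiction
        · exact ⟨rfl, h⟩
    obtain ⟨e1, e2⟩ := key p q hp hq hpq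
    obtain ⟨e3, e4⟩ := key p' q' hp' hq' hpq'
    exact hd ⟨e1.trans e3.symm, e2.trans e4.symm⟩
  have Az : ∀ t, t ≠ x → t ≠ y → t ≠ u → ¬ G.Adj z t := fun t h1 h2 h3 h => by
    rcases (Nz t).mp h with h' | h' | h' <;> contradiction
  have Aw : ∀ t, t ≠ x → t ≠ y → t ≠ v → ¬ G.Adj w t := fun t h1 h2 h3 h => by
    rcases (Nw t).mp h with h' | h' | h' <;> contradiction
  refine ⟨u, v, Nx, Ny, Nz, Nw, hxy.ne, hxz.ne, hxw.ne, hyz.ne, hyw.ne, hzw, ux, uy, uz, uw,
    vx, vy, vz, vw, uv, ?_⟩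
  intro huv
  -- third neighbour of u and of v
  obtain ⟨t, tz, tv, ut, Nu⟩ := third hG u z v zu.symm huv vz.symm
  obtain ⟨t', t'w, t'u, vt', Nv⟩ := third hG v w u wv.symm huv.symm uw.symm
  have tx : t ≠ x := by rintro rfl; exact Ax u uy uz uw ut.symm
  have ty : t ≠ y := by rintro rfl; exact Ay u ux uz uw ut.symm
  have tw : t ≠ w := by rintro rfl; exact Aw u ux uy uv ut.symm
  have hvt : G.Adj v t := by
    obtain ⟨p, q, hp, hq, hpq⟩ := htri u
    have zq : ∀ q, G.Adj u q → ¬ G.Adj z q := by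
      intro q h1 h2
      rcases (Nz q).mp h2 with h | h | h
      · subst h; exact Ax u uy uz uw h1.symm
      · subst h; exact Ay u ux uz uw h1.symm
      · subst h; exact G.irrefl h1
    rcases Nu p hp with rfl | rfl | rfl
    · exact absurd hpq (zq q hq)
    · rcases Nu q hq with rfl | rfl | rfl
      · exact absurd hpq.symm (zq _ hp)
      · exact absurd hpq G.irrefl
      · exact hpq
    · rcases Nu q hq with rfl | rfl | rfl
      · exact absurd hpq.symm (zq _ hp)
      · exact hpq.symm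
      · exact absurd hpq G.irrefl
  have htt : t = t' := by
    rcases Nv t hvt with h | h | h
    · exact absurd h tw
    · exact absurd h ut.ne.symm
    · exact h
  rw [← htt] at Nv
  obtain ⟨s, su, sv, ts, Nt⟩ := third hG t u v ut.symm hvt.symm uv
  have sx : s ≠ x := by rintro rfl; exact Ax t ty tz tw ts.symm
  have sy : s ≠ y := by rintro rfl; exact Ay t tx tz tw ts.symm
  have sz : s ≠ z := by rintro rfl; exact Az t tx ty ut.ne.symm ts.symm
  have sw : s ≠ w := by rintro rfl; exact Aw t tx ty tv ts.symm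
  have hne : ({x, y, z, w, u, v, t} : Set V)ᶜ.Nonempty :=
    ⟨s, by simp [sx, sy, sz, sw, su, sv, ts.ne.symm]⟩
  obtain ⟨p, q, p', q', hp, hq, hpq, hp', hq', hpq', hd⟩ :=
    h2 {x, y, z, w, u, v, t} ⟨x, by simp⟩ hne
  have key : ∀ p q, p ∈ ({x, y, z, w, u, v, t} : Set V) →
      q ∉ ({x, y, z, w, u, v, t} : Set V) → G.Adj p q → p = t ∧ q = s := by
    intro p q hp hq hpq
    simp only [Set.mem_insert_iff, Set.mem_singleton_iff] at hp hq
    push Not at hq
    obtain ⟨q1, q2, q3, q4, q5, q6, q7⟩ := hq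
    rcases hp with rfl | rfl | rfl | rfl | rfl | rfl | rfl
    · rcases (Nx q).mp hpq with h | h | h <;> contradiction
    · rcases (Ny q).mp hpq with h | h | h <;> contradiction
    · rcases (Nz q).mp hpq with h | h | h <;> contradiction
    · rcases (Nw q).mp hpq with h | h | h <;> contradiction
    · rcases Nu q hpq with h | h | h <;> contradiction
    · rcases Nv q hpq with h | h | h <;> contradiction
    · rcases Nt q hpq with h | h | h
      · contradiction
      · contradiction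
      · exact ⟨rfl, h⟩
  obtain ⟨e1, e2⟩ := key p q hp hq hpq
  obtain ⟨e3, e4⟩ := key p' q' hp' hq' hpq'
  exact hd ⟨e1.trans e3.symm, e2.trans e4.symm⟩

end Pool.Agent.H1LA
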