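import Pool.Agent.H1LA.Reduce

namespace Pool.Agent.H1LA

open SimpleGraph

universe u0

theorem top_of_card {V : Type u0} [Finite V] {G : SimpleGraph V} (hG : IsCubic G)
    (h4 : Nat.card V = 4) : G = ⊤ := by
  classical
  have := Fintype.ofFinite V
  ext a b
  rw [top_adj]
  constructor
  · intro h; exact h.ne
  · intro h
    have hsub : G.neighborSet a ⊆ {a}ᶜ := fun t ht => by
      simpa using (show G.Adj a t from ht).ne.symm
    have hc : ({a}ᶜ : Set V).encard = 3 := by
      have : ({a}ᶜ : Set V) = ((Finset.univ.erase a : Finset V) : Set V) := by ext; simp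
      rw [this, Set.encard_coe_eq_coe_finsetCard, Finset.card_erase_of_mem (Finset.mem_univ a),
        Finset.card_univ, ← Nat.card_eq_fintype_card, h4]
      rfl
    have heq : G.neighborSet a = {a}ᶜ :=
      (Set.toFinite _).eq_of_subset_of_encard_le' hsub (by rw [hc, hG a])
    have : b ∈ G.neighborSet a := by rw [heq]; simpa using h.symm
    exact this

/-- the induction: reduction to the case without diamonds -/
theorem induct
    (base : ∀ (V : Type u0) [Finite V] (G : SimpleGraph V), Nonempty V → IsCubic G →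
      4 ∣ Nat.card V → (∀ x, ∃ y z, G.Adj x y ∧ G.Adj x z ∧ G.Adj y z) →
      (∀ x y z w, G.Adj x y → G.Adj x z → G.Adj y z → G.Adj x w → G.Adj y w → z = w) →
      TwoEdge' G → Splits 4 G) :
    ∀ (n : ℕ) (V : Type u0) [Finite V] (G : SimpleGraph V), Nat.card V = n → Nonempty V →
      IsCubic G → 4 ∣ n → (∀ x, ∃ y z, G.Adj x y ∧ G.Adj x z ∧ G.Adj y z) → TwoEdge' G →
      Splits 4 G := by
  intro n
  induction n using Nat.strong_induction_on with
  | _ n ih =>
    intro V _ G hn hne hG h4 htri h2
    by_cases hone : ∀ x y z w, G.Adj x y → G.Adj x z → G.Adj y z → G.Adj x w → G.Adj y w → z = w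
    · exact base V G hne hG (hn ▸ h4) htri hone h2
    by_cases hcard : Nat.card V = 4
    · rw [top_of_card hG hcard]
      exact splits_K4 hcard
    push Not at hone
    obtain ⟨x, y, z, w, hxy, hxz, hyz, hxw, hyw, hzw⟩ := hone
    obtain ⟨u, v, E⟩ := exists_ext hG htri h2 hcard hxy hxz hyz hxw hyw hzw
    obtain ⟨e⟩ := E.iso
    have hc := E.card
    have hr : Splits 4 (red G x y z w u v) := by
      refine ih _ ?_ _ _ rfl ⟨⟨u, E.ux, E.uy, E.uz, E.uw⟩⟩ (E.cubic hG) ?_ (E.tri htri)
        (E.two h2)
      · omega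
      · omega
    refine splits_iso e (splits_diamond hr ?_)
    exact Or.inr (Or.inl ⟨rfl, rfl, E.uv⟩)

end Pool.Agent.H1LA
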