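import Pool.Agent.H1LA.Local

namespace Pool.Agent.H1LA

open SimpleGraph

variable {V : Type*}

namespace Dat

variable (D : Dat V)

theorem sx_equiv (y : V) : (D.l (D.m y) = D.l (D.s (D.m y))) ↔ D.l y ≠ D.l (D.s y) := by
  have h := D.sys y
  cases h1 : D.l y <;> cases h2 : D.l (D.s y) <;> cases h3 : D.l (D.m y) <;>
    cases h4 : D.l (D.s (D.m y)) <;> simp_all

theorem plc_o (c : Bool) (x : V) :
    D.plc c (x, .o) ≠ 0 ∧ D.plc c (x, .o) ≠ 4 ∧ D.plc c (x, .o) ≠ 8 := by
  simp only [plc]
  split_ifs <;> decide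

theorem plc_i (c : Bool) (x : V) :
    D.plc c (x, .i) ≠ 0 ∧ D.plc c (x, .i) ≠ 4 ∧ D.plc c (x, .i) ≠ 8 := by
  simp only [plc]
  split_ifs <;> decide

theorem card_port (c : Bool) (j : Fin 12) (hj : j = 0 ∨ j = 4 ∨ j = 8) :
    Nat.card {a // D.plc c a = j} = Nat.card {x // D.plc c (x, .m) = j} := by
  have key : ∀ (x : V) (q : Port), D.plc c (x, q) = j → q = .m := by
    intro x q h
    cases q
    · rfl
    · exfalso
      have := D.plc_o c x
      rcases hj with rfl | rfl | rfl
      · exact this.1 h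
      · exact this.2.1 h
      · exact this.2.2 h
    · exfalso
      have := D.plc_i c x
      rcases hj with rfl | rfl | rfl
      · exact this.1 h
      · exact this.2.1 h
      · exact this.2.2 h
  apply Nat.card_congr
  refine Equiv.symm ⟨fun x => ⟨(x.1, .m), x.2⟩, fun a => ⟨a.1.1, ?_⟩, ?_, ?_⟩
  · obtain ⟨⟨x, q⟩, ha⟩ := a
    have := key x q ha
    subst this
    exact ha
  · intro x; rfl
  · rintro ⟨⟨x, q⟩, ha⟩
    have := key x q ha
    subst this
    rfl

theorem card_zero (c : Bool) :
    Nat.card {a // D.plc c a = 0} = Nat.card {x // D.l x = c ∧ D.l (D.s x) ≠ c} := by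
  rw [D.card_port c 0 (by simp)]
  apply Nat.card_congr
  refine Equiv.subtypeEquivRight (fun x => ?_)
  cases c <;> cases h1 : D.l x <;> cases h2 : D.l (D.s x) <;> cases h3 : D.l (D.m x) <;>
    simp [plc, h1, h2, h3]

theorem card_eight (c : Bool) :
    Nat.card {a // D.plc c a = 8} = Nat.card {x // D.l x ≠ c ∧ D.l (D.s x) = c} := by
  rw [D.card_port c 8 (by simp)]
  apply Nat.card_congr
  refine Equiv.subtypeEquivRight (fun x => ?_)
  cases c <;> cases h1 : D.l x <;> cases h2 : D.l (D.s x) <;> cases h3 : D.l (D.m x) <;>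
    simp [plc, h1, h2, h3]

theorem card_four (c : Bool) :
    Nat.card {a // D.plc c a = 4} = Nat.card {x // D.l x = c ∧ D.l (D.s x) ≠ c} := by
  rw [D.card_port c 4 (by simp)]
  apply Nat.card_congr
  refine Equiv.symm ⟨fun x => ⟨D.m x.1, ?_⟩, fun a => ⟨D.m a.1, ?_⟩, ?_, ?_⟩
  · obtain ⟨x, h1, h2⟩ := x
    have h3 : D.l (D.m x) = D.l (D.s (D.m x)) := by
      rw [D.sx_equiv, h1]; exact fun h => h2 h.symm
    simp only [plc, D.mm]
    rw [if_pos h3, if_pos h1.symm]
  · obtain ⟨x, ha⟩ := a
    have h := D.sys x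
    revert ha
    cases c <;> cases h1 : D.l x <;> cases h2 : D.l (D.s x) <;> cases h3 : D.l (D.m x) <;>
        cases h4 : D.l (D.s (D.m x)) <;> simp [plc, h1, h2, h3, h4] at h ⊢
  · intro x; exact Subtype.ext (D.mm x.1)
  · intro x; exact Subtype.ext (D.mm x.1)

theorem balance [Finite V] :
    Nat.card {x // D.l x = true ∧ D.l (D.s x) ≠ true} =
      Nat.card {x // D.l x ≠ true ∧ D.l (D.s x) = true} := by
  haveI := Fintype.ofFinite V
  rw [Nat.card_eq_fintype_card, Nat.card_eq_fintype_card, Fintype.card_subtype,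
    Fintype.card_subtype]
  have h1 : (Finset.univ.filter (fun x => D.l x = true)).card =
      (Finset.univ.filter (fun x => D.l (D.s x) = true)).card := by
    symm
    apply Finset.card_bij (fun x _ => D.s x)
    · intro x hx; simpa using hx
    · intro x _ y _ h; exact D.s.injective h
    · intro y hy
      exact ⟨D.s.symm y, by simpa using hy, by simp⟩
  have h2 := Finset.card_filter_add_card_filter_not
    (s := Finset.univ.filter (fun x => D.l x = true)) (fun x => D.l (D.s x) = true)
  have h3 := Finset.card_filter_add_card_filter_not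
    (s := Finset.univ.filter (fun x => D.l (D.s x) = true)) (fun x => D.l x = true)
  rw [Finset.filter_filter, Finset.filter_filter] at h2 h3
  have e1 : Finset.univ.filter (fun x => D.l x = true ∧ D.l (D.s x) = true) =
      Finset.univ.filter (fun x => D.l (D.s x) = true ∧ D.l x = true) := by
    ext x; simp [and_comm]
  have e2 : Finset.univ.filter (fun x => D.l (D.s x) = true ∧ ¬ D.l x = true) =
      Finset.univ.filter (fun x => D.l x ≠ true ∧ D.l (D.s x) = true) := by
    ext x; simp [and_comm]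
  have e3 : Finset.univ.filter (fun x => D.l x = true ∧ ¬ D.l (D.s x) = true) =
      Finset.univ.filter (fun x => D.l x = true ∧ D.l (D.s x) ≠ true) := by
    ext x; simp
  rw [e2] at h3
  rw [e1, e3] at h2
  omega

theorem fibres [Finite V] : ∃ d, ∀ c j, Nat.card {a // D.plc c a = j} = d := by
  haveI : Finite Port := by
    haveI : Fintype Port := ⟨{.m, .o, .i}, fun p => by cases p <;> simp⟩
    infer_instance
  refine ⟨Nat.card {x // D.l x = true ∧ D.l (D.s x) ≠ true}, ?_⟩
  intro c
  have b := D.balance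
  have b1 : Nat.card {x // D.l x = c ∧ D.l (D.s x) ≠ c} =
      Nat.card {x // D.l x = true ∧ D.l (D.s x) ≠ true} := by
    cases c
    · rw [b]
      apply Nat.card_congr
      exact Equiv.subtypeEquivRight (fun x => by simp)
    · rfl
  have b2 : Nat.card {x // D.l x ≠ c ∧ D.l (D.s x) = c} =
      Nat.card {x // D.l x = true ∧ D.l (D.s x) ≠ true} := by
    cases c
    · apply Nat.card_congr
      exact Equiv.subtypeEquivRight (fun x => by simp)
    · exact b.symm
  have c0 := (D.card_zero c).trans b1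
  have c8 := (D.card_eight c).trans b2
  have c4 := (D.card_four c).trans b1
  have adj := fun i j h => card_fibre_adj (D.covering c) (w := i) (w' := j) h
  have a01 := adj 0 1 (by decide)
  have a12 := adj 1 2 (by decide)
  have a23 := adj 2 3 (by decide)
  have a45 := adj 4 5 (by decide)
  have a56 := adj 5 6 (by decide)
  have a78 := adj 7 8 (by decide)
  have a89 := adj 8 9 (by decide)
  have a910 := adj 9 10 (by decide)
  have a1011 := adj 10 11 (by decide)
  intro j
  fin_cases j
  · exact c0
  · exact a01.symm.trans c0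
  · exact (a01.trans a12).symm.trans c0
  · exact ((a01.trans a12).trans a23).symm.trans c0
  · exact c4
  · exact a45.symm.trans c4
  · exact (a45.trans a56).symm.trans c4
  · exact a78.trans c8
  · exact c8
  · exact a89.symm.trans c8
  · exact (a89.trans a910).symm.trans c8
  · exact ((a89.trans a910).trans a1011).symm.trans c8

/-- the truncation in port coordinates -/
def T : SimpleGraph (V × Port) where
  Adj := D.TAdj
  symm := ⟨by
    rintro ⟨x, i⟩ ⟨y, j⟩ h
    cases i <;> cases j <;> simp only [TAdj] at h ⊢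
    · rw [h, D.mm]
    · exact h.symm
    · exact h.symm
    · exact h.symm
    · rcases h with h | h
      · exact Or.inl h.symm
      · exact Or.inr h
    · exact h.symm
    · rcases h with h | h
      · exact Or.inl h.symm
      · exact Or.inr h⟩
  loopless := ⟨by
    rintro ⟨x, i⟩ h
    cases i <;> simp only [TAdj] at h
    exact D.mx x h.symm⟩

theorem T_iff (a b : V × Port) : D.T.Adj a b ↔ D.FAdj true a b ∨ D.FAdj false a b := by
  obtain ⟨x, i⟩ := a
  obtain ⟨y, j⟩ := b
  change D.TAdj _ _ ↔ _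
  cases i <;> cases j <;> simp only [TAdj, FAdj]
  · cases D.kap x <;> simp
  · cases D.l x <;> simp
  · cases D.l x <;> simp
  · cases D.l x <;> simp
  · simp
  · cases D.l x <;> cases D.l y <;> simp <;> tauto
  · cases D.l x <;> simp
  · cases D.l x <;> cases D.l y <;> simp <;> tauto
  · simp

theorem F_disj (a b : V × Port) (h : D.FAdj true a b) (h' : D.FAdj false a b) : False := by
  obtain ⟨x, i⟩ := a
  obtain ⟨y, j⟩ := b
  cases i <;> cases j <;> simp only [FAdj] at h h'
  · have := h.2.trans h'.2.symm; simp at this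
  · have h1 := h.2; have h2 := h'.2; cases h3 : D.l x <;> simp [h3] at h1 h2
  · have h1 := h.2; have h2 := h'.2; cases h3 : D.l x <;> simp [h3] at h1 h2
  · have h1 := h.2; have h2 := h'.2; cases h3 : D.l x <;> simp [h3] at h1 h2
  · rcases h with ⟨e1, h⟩ | ⟨e1, h⟩ <;> rcases h' with ⟨e2, h'⟩ | ⟨e2, h'⟩
    · have := h.trans h'.symm; simp at this
    · exact D.sx x (e2.symm.trans e1)
    · exact D.sx x (e1.symm.trans e2)
    · cases h3 : D.l y <;> simp [h3] at h h'
  · have h1 := h.2; have h2 := h'.2; cases h3 : D.l x <;> simp [h3] at h1 h2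
  · rcases h with ⟨e1, h⟩ | ⟨e1, h⟩ <;> rcases h' with ⟨e2, h'⟩ | ⟨e2, h'⟩
    · have := h.trans h'.symm; simp at this
    · rw [e1] at e2; exact D.sx x e2.symm
    · rw [e2] at e1; exact D.sx x e1.symm
    · cases h3 : D.l x <;> simp [h3] at h h'

theorem T_main [Finite V] :
    ∃ F₁ F₂ : SimpleGraph (V × Port), IsDecomp D.T F₁ F₂ ∧ IsLinearForest 4 F₁ ∧
      IsLinearForest 4 F₂ ∧ Nonempty (F₁ ≃g F₂) := by
  haveI : Finite Port := by
    haveI : Fintype Port := ⟨{.m, .o, .i}, fun p => by cases p <;> simp⟩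
    infer_instance
  obtain ⟨d, hd⟩ := D.fibres
  obtain ⟨Ψ₁, hΨ₁⟩ := trivialise (D.covering true) base_linear.1 (hd true)
  obtain ⟨Ψ₂, hΨ₂⟩ := trivialise (D.covering false) base_linear.1 (hd false)
  refine ⟨D.F true, D.F false, ⟨?_, ?_⟩, D.F_linear true, D.F_linear false, ⟨?_⟩⟩
  · ext e
    induction e using Sym2.ind with
    | _ x y =>
      rw [Set.mem_union, mem_edgeSet, mem_edgeSet, mem_edgeSet, T_iff]
      rfl
  · rw [Set.disjoint_left]
    intro e
    induction e using Sym2.ind with
    | _ x y =>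
      rw [mem_edgeSet, mem_edgeSet]
      exact fun h h' => D.F_disj x y h h'
  · refine ⟨Ψ₁.trans Ψ₂.symm, ?_⟩
    intro x y
    rw [hΨ₂, hΨ₁]
    simp

end Dat

end Pool.Agent.H1LA
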