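import Pool.Agent.H1LA.Diamond

namespace Pool.Agent.H1LA

open SimpleGraph

variable {V W : Type*}

theorem insB [DecidableEq V] {F : SimpleGraph V} {u v : V} (huv : F.Adj u v)
    (h : ∀ z, F.Adj u z → z = v) : Nonempty (ins F u v sB ≃g F ⊕g pth) := by
  have hne := huv.ne
  let f : V ⊕ Fin 4 → V ⊕ Fin 4 := fun a => match a with
    | .inl x => if x = u then .inr 0 else .inl x
    | .inr 0 => .inr 1
    | .inr 1 => .inr 2
    | .inr 2 => .inr 3
    | .inr 3 => .inl u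
  let g : V ⊕ Fin 4 → V ⊕ Fin 4 := fun a => match a with
    | .inl x => if x = u then .inr 3 else .inl x
    | .inr 0 => .inl u
    | .inr 1 => .inr 0
    | .inr 2 => .inr 1
    | .inr 3 => .inr 2
  have f0 : f (.inr 0) = .inr 1 := rfl
  have f1 : f (.inr 1) = .inr 2 := rfl
  have f2 : f (.inr 2) = .inr 3 := rfl
  have f3 : f (.inr 3) = .inl u := rfl
  have g0 : g (.inr 0) = .inl u := rfl
  have g1 : g (.inr 1) = .inr 0 := rfl
  have g2 : g (.inr 2) = .inr 1 := rfl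
  have g3 : g (.inr 3) = .inr 2 := rfl
  have fu : f (.inl u) = .inr 0 := by simp [f]
  have fx : ∀ x, x ≠ u → f (.inl x) = .inl x := by intro x hx; simp [f, hx]
  have gu : g (.inl u) = .inr 3 := by simp [g]
  have gx : ∀ x, x ≠ u → g (.inl x) = .inl x := by intro x hx; simp [g, hx]
  have gf : ∀ a, g (f a) = a := by
    rintro (x | i)
    · by_cases hx : x = u
      · subst hx; rw [fu, g0]
      · rw [fx x hx, gx x hx]
    · fin_cases i
      · exact g1
      · exact g2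
      · exact g3
      · exact gu
  have fg : ∀ a, f (g a) = a := by
    rintro (x | i)
    · by_cases hx : x = u
      · subst hx; rw [gu, f3]
      · rw [gx x hx, fx x hx]
    · fin_cases i
      · exact fu
      · exact f0
      · exact f1
      · exact f2
  refine ⟨⟨⟨f, g, gf, fg⟩, ?_⟩⟩
  intro a b
  change (F ⊕g pth).Adj (f a) (f b) ↔ _
  have A1 : ∀ x, F.Adj x u ↔ x = v := fun x =>
    ⟨fun hx => h x hx.symm, fun hx => hx ▸ huv.symm⟩
  have A2 : ∀ x, F.Adj u x ↔ x = v := fun x => ⟨fun hx => h x hx, fun hx => hx ▸ huv⟩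
  rcases a with x | i <;> rcases b with y | j
  · by_cases hx : x = u
    · subst hx
      by_cases hy : y = x
      · subst hy; simp [fu, ins]
      · rw [fu, fx y hy]
        simp only [not_adj_sum_inl_inr, ins]
        constructor
        · intro hh; exact absurd hh (by simp)
        · rintro ⟨h1, h2, _⟩
          exact absurd ((A2 y).mp h1) (by simpa using h2)
    · by_cases hy : y = u
      · subst hy
        rw [fu, fx x hx]
        simp only [ins]
        constructor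
        · intro hh; exact absurd hh (by simp)
        · rintro ⟨h1, _, h2⟩
          exact absurd ((A1 x).mp h1) (by simpa using h2)
      · rw [fx x hx, fx y hy]
        simp [ins, hx, hy]
  · by_cases hx : x = u
    · subst hx
      rw [fu]
      fin_cases j
      · change (F ⊕g pth).Adj (.inr 0) (f (.inr 0)) ↔ (x = x ∧ (0 : Fin 4) = 0) ∨ (x = v ∧ (0 : Fin 4) = 3)
        rw [f0]; simp [pth]
      · change (F ⊕g pth).Adj (.inr 0) (f (.inr 1)) ↔ (x = x ∧ (1 : Fin 4) = 0) ∨ (x = v ∧ (1 : Fin 4) = 3)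
        rw [f1]; simp [pth]
      · change (F ⊕g pth).Adj (.inr 0) (f (.inr 2)) ↔ (x = x ∧ (2 : Fin 4) = 0) ∨ (x = v ∧ (2 : Fin 4) = 3)
        rw [f2]; simp [pth]
      · change (F ⊕g pth).Adj (.inr 0) (f (.inr 3)) ↔ (x = x ∧ (3 : Fin 4) = 0) ∨ (x = v ∧ (3 : Fin 4) = 3)
        rw [f3]; simp [hne]
    · rw [fx x hx]
      fin_cases j
      · change (F ⊕g pth).Adj (.inl x) (f (.inr 0)) ↔ (x = u ∧ (0 : Fin 4) = 0) ∨ (x = v ∧ (0 : Fin 4) = 3)
        rw [f0]; simp [hx]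
      · change (F ⊕g pth).Adj (.inl x) (f (.inr 1)) ↔ (x = u ∧ (1 : Fin 4) = 0) ∨ (x = v ∧ (1 : Fin 4) = 3)
        rw [f1]; simp
      · change (F ⊕g pth).Adj (.inl x) (f (.inr 2)) ↔ (x = u ∧ (2 : Fin 4) = 0) ∨ (x = v ∧ (2 : Fin 4) = 3)
        rw [f2]; simp
      · change (F ⊕g pth).Adj (.inl x) (f (.inr 3)) ↔ (x = u ∧ (3 : Fin 4) = 0) ∨ (x = v ∧ (3 : Fin 4) = 3)
        rw [f3]; simp [A1]
  · by_cases hy : y = u
    · subst hy
      rw [fu]
      fin_cases i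
      · change (F ⊕g pth).Adj (f (.inr 0)) (.inr 0) ↔ (y = y ∧ (0 : Fin 4) = 0) ∨ (y = v ∧ (0 : Fin 4) = 3)
        rw [f0]; simp [pth]
      · change (F ⊕g pth).Adj (f (.inr 1)) (.inr 0) ↔ (y = y ∧ (1 : Fin 4) = 0) ∨ (y = v ∧ (1 : Fin 4) = 3)
        rw [f1]; simp [pth]
      · change (F ⊕g pth).Adj (f (.inr 2)) (.inr 0) ↔ (y = y ∧ (2 : Fin 4) = 0) ∨ (y = v ∧ (2 : Fin 4) = 3)
        rw [f2]; simp [pth]
      · change (F ⊕g pth).Adj (f (.inr 3)) (.inr 0) ↔ (y = y ∧ (3 : Fin 4) = 0) ∨ (y = v ∧ (3 : Fin 4) = 3)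
        rw [f3]; simp [hne]
    · rw [fx y hy]
      fin_cases i
      · change (F ⊕g pth).Adj (f (.inr 0)) (.inl y) ↔ (y = u ∧ (0 : Fin 4) = 0) ∨ (y = v ∧ (0 : Fin 4) = 3)
        rw [f0]; simp [hy]
      · change (F ⊕g pth).Adj (f (.inr 1)) (.inl y) ↔ (y = u ∧ (1 : Fin 4) = 0) ∨ (y = v ∧ (1 : Fin 4) = 3)
        rw [f1]; simp
      · change (F ⊕g pth).Adj (f (.inr 2)) (.inl y) ↔ (y = u ∧ (2 : Fin 4) = 0) ∨ (y = v ∧ (2 : Fin 4) = 3)
        rw [f2]; simp
      · change (F ⊕g pth).Adj (f (.inr 3)) (.inl y) ↔ (y = u ∧ (3 : Fin 4) = 0) ∨ (y = v ∧ (3 : Fin 4) = 3)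
        rw [f3]; simp [A2]
  · change (F ⊕g pth).Adj (f (.inr i)) (f (.inr j)) ↔ sB.Adj i j
    fin_cases i <;> fin_cases j <;> simp [f, pth, sB]

end Pool.Agent.H1LA
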