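import Pool.Agent.H1LA.Insert

namespace Pool.Agent.H1LA

open SimpleGraph

variable {V W : Type*}

theorem insA [DecidableEq V] {F : SimpleGraph V} {u v a : V} (huv : F.Adj u v)
    (hav : a ≠ v) (hua : F.Adj u a) (h : ∀ z, F.Adj u z → z = v ∨ z = a)
    (h' : ∀ z, F.Adj a z → z = u) : Nonempty (ins F u v sA ≃g F ⊕g pth) := by
  have hne := huv.ne
  have hau : a ≠ u := hua.ne.symm
  let f : V ⊕ Fin 4 → V ⊕ Fin 4 := fun c => match c with
    | .inl x => if x = u then .inr 1 else if x = a then .inr 0 else .inl x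
    | .inr 0 => .inr 2
    | .inr 1 => .inr 3
    | .inr 2 => .inl a
    | .inr 3 => .inl u
  let g : V ⊕ Fin 4 → V ⊕ Fin 4 := fun c => match c with
    | .inl x => if x = u then .inr 3 else if x = a then .inr 2 else .inl x
    | .inr 0 => .inl a
    | .inr 1 => .inl u
    | .inr 2 => .inr 0
    | .inr 3 => .inr 1
  have f0 : f (.inr 0) = .inr 2 := rfl
  have f1 : f (.inr 1) = .inr 3 := rfl
  have f2 : f (.inr 2) = .inl a := rfl
  have f3 : f (.inr 3) = .inl u := rfl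
  have g0 : g (.inr 0) = .inl a := rfl
  have g1 : g (.inr 1) = .inl u := rfl
  have g2 : g (.inr 2) = .inr 0 := rfl
  have g3 : g (.inr 3) = .inr 1 := rfl
  have fu : f (.inl u) = .inr 1 := by simp [f]
  have fa : f (.inl a) = .inr 0 := by simp [f, hau]
  have fx : ∀ x, x ≠ u → x ≠ a → f (.inl x) = .inl x := by intro x hx hx'; simp [f, hx, hx']
  have gu : g (.inl u) = .inr 3 := by simp [g]
  have ga : g (.inl a) = .inr 2 := by simp [g, hau]
  have gx : ∀ x, x ≠ u → x ≠ a → g (.inl x) = .inl x := by intro x hx hx'; simp [g, hx, hx']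
  have gf : ∀ c, g (f c) = c := by
    rintro (x | i)
    · by_cases hx : x = u
      · rw [hx, fu, g1]
      · by_cases hx' : x = a
        · rw [hx', fa, g0]
        · rw [fx x hx hx', gx x hx hx']
    · fin_cases i
      · exact g2
      · exact g3
      · exact ga
      · exact gu
  have fg : ∀ c, f (g c) = c := by
    rintro (x | i)
    · by_cases hx : x = u
      · rw [hx, gu, f3]
      · by_cases hx' : x = a
        · rw [hx', ga, f2]
        · rw [gx x hx hx', fx x hx hx']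
    · fin_cases i
      · exact fa
      · exact fu
      · exact f0
      · exact f1
  refine ⟨⟨⟨f, g, gf, fg⟩, ?_⟩⟩
  intro c b
  change (F ⊕g pth).Adj (f c) (f b) ↔ _
  have A1 : ∀ x, F.Adj x u ↔ x = v ∨ x = a := fun x =>
    ⟨fun hx => h x hx.symm, fun hx => by rcases hx with rfl | rfl <;> [exact huv.symm; exact hua.symm]⟩
  have A2 : ∀ x, F.Adj u x ↔ x = v ∨ x = a := fun x =>
    ⟨fun hx => h x hx, fun hx => by rcases hx with rfl | rfl <;> [exact huv; exact hua]⟩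
  have B1 : ∀ x, F.Adj x a ↔ x = u := fun x => ⟨fun hx => h' x hx.symm, fun hx => hx ▸ hua⟩
  have B2 : ∀ x, F.Adj a x ↔ x = u := fun x => ⟨fun hx => h' x hx, fun hx => hx ▸ hua.symm⟩
  rcases c with x | i <;> rcases b with y | j
  · change _ ↔ F.Adj x y ∧ ¬ (x = u ∧ y = v) ∧ ¬ (x = v ∧ y = u)
    by_cases hx : x = u
    · by_cases hy : y = u
      · rw [hx, hy, fu]; simp
      · by_cases hy' : y = a
        · rw [hx, hy', fu, fa]; simp [pth, hua, hav, hne]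
        · rw [hx, fu, fx y hy hy', A2]; simp [hy, hy']
    · by_cases hx' : x = a
      · by_cases hy : y = u
        · rw [hx', hy, fu, fa]; simp [pth, hua.symm, hav, hne]
        · by_cases hy' : y = a
          · rw [hx', hy', fa]; simp
          · rw [hx', fa, fx y hy hy', B2]; simp [hy]
      · by_cases hy : y = u
        · rw [hy, fu, fx x hx hx', A1]; simp [hx']; tauto
        · by_cases hy' : y = a
          · rw [hy', fa, fx x hx hx', B1]; simp [hx]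
          · rw [fx x hx hx', fx y hy hy']; simp [hx, hy]
  · by_cases hx : x = u
    · fin_cases j
      · change (F ⊕g pth).Adj (f (.inl x)) (f (.inr 0)) ↔ (x = u ∧ (0 : Fin 4) = 0) ∨ (x = v ∧ (0 : Fin 4) = 3)
        rw [hx, fu, f0]; simp [pth, hne, hau, hau.symm, hav, A1, A2, B1, B2]
      · change (F ⊕g pth).Adj (f (.inl x)) (f (.inr 1)) ↔ (x = u ∧ (1 : Fin 4) = 0) ∨ (x = v ∧ (1 : Fin 4) = 3)
        rw [hx, fu, f1]; simp [pth, hne, hau, hau.symm, hav, A1, A2, B1, B2]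
      · change (F ⊕g pth).Adj (f (.inl x)) (f (.inr 2)) ↔ (x = u ∧ (2 : Fin 4) = 0) ∨ (x = v ∧ (2 : Fin 4) = 3)
        rw [hx, fu, f2]; simp [pth, hne, hau, hau.symm, hav, A1, A2, B1, B2]
      · change (F ⊕g pth).Adj (f (.inl x)) (f (.inr 3)) ↔ (x = u ∧ (3 : Fin 4) = 0) ∨ (x = v ∧ (3 : Fin 4) = 3)
        rw [hx, fu, f3]; simp [pth, hne, hau, hau.symm, hav, A1, A2, B1, B2]
    · by_cases hx' : x = a
      · fin_cases j
        · change (F ⊕g pth).Adj (f (.inl x)) (f (.inr 0)) ↔ (x = u ∧ (0 : Fin 4) = 0) ∨ (x = v ∧ (0 : Fin 4) = 3)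
          rw [hx', fa, f0]; simp [pth, hne, hau, hau.symm, hav, A1, A2, B1, B2]
        · change (F ⊕g pth).Adj (f (.inl x)) (f (.inr 1)) ↔ (x = u ∧ (1 : Fin 4) = 0) ∨ (x = v ∧ (1 : Fin 4) = 3)
          rw [hx', fa, f1]; simp [pth, hne, hau, hau.symm, hav, A1, A2, B1, B2]
        · change (F ⊕g pth).Adj (f (.inl x)) (f (.inr 2)) ↔ (x = u ∧ (2 : Fin 4) = 0) ∨ (x = v ∧ (2 : Fin 4) = 3)
          rw [hx', fa, f2]; simp [pth, hne, hau, hau.symm, hav, A1, A2, B1, B2]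
        · change (F ⊕g pth).Adj (f (.inl x)) (f (.inr 3)) ↔ (x = u ∧ (3 : Fin 4) = 0) ∨ (x = v ∧ (3 : Fin 4) = 3)
          rw [hx', fa, f3]; simp [pth, hne, hau, hau.symm, hav, A1, A2, B1, B2]
      · fin_cases j
        · change (F ⊕g pth).Adj (f (.inl x)) (f (.inr 0)) ↔ (x = u ∧ (0 : Fin 4) = 0) ∨ (x = v ∧ (0 : Fin 4) = 3)
          rw [fx x hx hx', f0]; simp [pth, hne, hau, hau.symm, hav, A1, A2, B1, B2, hx, hx']
        · change (F ⊕g pth).Adj (f (.inl x)) (f (.inr 1)) ↔ (x = u ∧ (1 : Fin 4) = 0) ∨ (x = v ∧ (1 : Fin 4) = 3)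
          rw [fx x hx hx', f1]; simp [pth, hne, hau, hau.symm, hav, A1, A2, B1, B2, hx, hx']
        · change (F ⊕g pth).Adj (f (.inl x)) (f (.inr 2)) ↔ (x = u ∧ (2 : Fin 4) = 0) ∨ (x = v ∧ (2 : Fin 4) = 3)
          rw [fx x hx hx', f2]; simp [pth, hne, hau, hau.symm, hav, A1, A2, B1, B2, hx, hx']
        · change (F ⊕g pth).Adj (f (.inl x)) (f (.inr 3)) ↔ (x = u ∧ (3 : Fin 4) = 0) ∨ (x = v ∧ (3 : Fin 4) = 3)
          rw [fx x hx hx', f3]; simp [pth, hne, hau, hau.symm, hav, A1, A2, B1, B2, hx, hx']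
  · by_cases hx : y = u
    · fin_cases i
      · change (F ⊕g pth).Adj (f (.inr 0)) (f (.inl y)) ↔ (y = u ∧ (0 : Fin 4) = 0) ∨ (y = v ∧ (0 : Fin 4) = 3)
        rw [hx, fu, f0]; simp [pth, hne, hau, hau.symm, hav, A1, A2, B1, B2]
      · change (F ⊕g pth).Adj (f (.inr 1)) (f (.inl y)) ↔ (y = u ∧ (1 : Fin 4) = 0) ∨ (y = v ∧ (1 : Fin 4) = 3)
        rw [hx, fu, f1]; simp [pth, hne, hau, hau.symm, hav, A1, A2, B1, B2]
      · change (F ⊕g pth).Adj (f (.inr 2)) (f (.inl y)) ↔ (y = u ∧ (2 : Fin 4) = 0) ∨ (y = v ∧ (2 : Fin 4) = 3)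
        rw [hx, fu, f2]; simp [pth, hne, hau, hau.symm, hav, A1, A2, B1, B2]
      · change (F ⊕g pth).Adj (f (.inr 3)) (f (.inl y)) ↔ (y = u ∧ (3 : Fin 4) = 0) ∨ (y = v ∧ (3 : Fin 4) = 3)
        rw [hx, fu, f3]; simp [pth, hne, hau, hau.symm, hav, A1, A2, B1, B2]
    · by_cases hx' : y = a
      · fin_cases i
        · change (F ⊕g pth).Adj (f (.inr 0)) (f (.inl y)) ↔ (y = u ∧ (0 : Fin 4) = 0) ∨ (y = v ∧ (0 : Fin 4) = 3)
          rw [hx', fa, f0]; simp [pth, hne, hau, hau.symm, hav, A1, A2, B1, B2]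
        · change (F ⊕g pth).Adj (f (.inr 1)) (f (.inl y)) ↔ (y = u ∧ (1 : Fin 4) = 0) ∨ (y = v ∧ (1 : Fin 4) = 3)
          rw [hx', fa, f1]; simp [pth, hne, hau, hau.symm, hav, A1, A2, B1, B2]
        · change (F ⊕g pth).Adj (f (.inr 2)) (f (.inl y)) ↔ (y = u ∧ (2 : Fin 4) = 0) ∨ (y = v ∧ (2 : Fin 4) = 3)
          rw [hx', fa, f2]; simp [pth, hne, hau, hau.symm, hav, A1, A2, B1, B2]
        · change (F ⊕g pth).Adj (f (.inr 3)) (f (.inl y)) ↔ (y = u ∧ (3 : Fin 4) = 0) ∨ (y = v ∧ (3 : Fin 4) = 3)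
          rw [hx', fa, f3]; simp [pth, hne, hau, hau.symm, hav, A1, A2, B1, B2]
      · fin_cases i
        · change (F ⊕g pth).Adj (f (.inr 0)) (f (.inl y)) ↔ (y = u ∧ (0 : Fin 4) = 0) ∨ (y = v ∧ (0 : Fin 4) = 3)
          rw [fx y hx hx', f0]; simp [pth, hne, hau, hau.symm, hav, A1, A2, B1, B2, hx, hx']
        · change (F ⊕g pth).Adj (f (.inr 1)) (f (.inl y)) ↔ (y = u ∧ (1 : Fin 4) = 0) ∨ (y = v ∧ (1 : Fin 4) = 3)
          rw [fx y hx hx', f1]; simp [pth, hne, hau, hau.symm, hav, A1, A2, B1, B2, hx, hx']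
        · change (F ⊕g pth).Adj (f (.inr 2)) (f (.inl y)) ↔ (y = u ∧ (2 : Fin 4) = 0) ∨ (y = v ∧ (2 : Fin 4) = 3)
          rw [fx y hx hx', f2]; simp [pth, hne, hau, hau.symm, hav, A1, A2, B1, B2, hx, hx']
        · change (F ⊕g pth).Adj (f (.inr 3)) (f (.inl y)) ↔ (y = u ∧ (3 : Fin 4) = 0) ∨ (y = v ∧ (3 : Fin 4) = 3)
          rw [fx y hx hx', f3]; simp [pth, hne, hau, hau.symm, hav, A1, A2, B1, B2, hx, hx']
  · change (F ⊕g pth).Adj (f (.inr i)) (f (.inr j)) ↔ sA.Adj i j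
    fin_cases i <;> fin_cases j <;> simp [f, pth, sA, hua, hua.symm]

end Pool.Agent.H1LA
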