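import Pool.Agent.H1LA.Match

namespace Pool.Agent.H1LA

open SimpleGraph Finset

variable {V : Type*}

/-- the forest with `x ~ m x` for `c x = β` and `x ~ a x` for all `x` -/
def locGraph (c : V → Bool) (β : Bool) (m a : V → V) (hm : ∀ x, m (m x) = x)
    (ha : ∀ x, a (a x) = x) (hcm : ∀ x, c (m x) = c x) (hca : ∀ x, c (a x) ≠ c x)
    (hmx : ∀ x, m x ≠ x) : SimpleGraph V where
  Adj x y := (c x = β ∧ y = m x) ∨ y = a x
  symm := ⟨by
    rintro x y (⟨h, rfl⟩ | rfl)
    · left; exact ⟨(hcm x).trans h, (hm x).symm⟩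
    · right; exact (ha x).symm⟩
  loopless := ⟨by
    rintro x (⟨_, h⟩ | h)
    · exact hmx x h.symm
    · exact hca x (congrArg c h.symm)⟩

theorem forward [Fintype V] {G : SimpleGraph V} {c : V → Bool} (hG : IsCubic G)
    (hc : ∀ v, ∃! w, G.Adj v w ∧ c w = c v) :
    ∃ F₁ F₂ : SimpleGraph V, IsDecomp G F₁ F₂ ∧ IsLinearForest 3 F₁ ∧ IsLinearForest 3 F₂ ∧
      Nonempty (F₁ ≃g F₂) := by
  classical
  obtain ⟨m, a, b, hm, ha, hb, cm, ca, cb, hab, hadj⟩ := exists_matchings hG hc
  have hmx : ∀ x, m x ≠ x := by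
    intro x h
    have : G.Adj x (m x) := (hadj x (m x)).mpr (Or.inl rfl)
    rw [h] at this
    exact G.irrefl this
  set F₁ := locGraph c true m a hm ha cm ca hmx with hF1
  set F₂ := locGraph c false m b hm hb cm cb hmx with hF2
  have A1 : ∀ x y, F₁.Adj x y ↔ (c x = true ∧ y = m x) ∨ y = a x := fun x y => Iff.rfl
  have A2 : ∀ x y, F₂.Adj x y ↔ (c x = false ∧ y = m x) ∨ y = b x := fun x y => Iff.rfl
  refine ⟨F₁, F₂, ⟨?_, ?_⟩, linear_of_local A1 hm cm ca, linear_of_local A2 hm cm cb, ?_⟩
  · ext e
    induction e using Sym2.ind with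
    | _ x y =>
      rw [Set.mem_union, mem_edgeSet, mem_edgeSet, mem_edgeSet, hadj, A1, A2]
      cases h : c x <;> simp <;> tauto
  · rw [Set.disjoint_left]
    intro e
    induction e using Sym2.ind with
    | _ x y =>
      rw [mem_edgeSet, mem_edgeSet, A1, A2]
      rintro (⟨h1, h2⟩ | h1) (⟨h3, h4⟩ | h3)
      · rw [h1] at h3; exact absurd h3 (by simp)
      · apply cb x; rw [← h3, h2, cm]
      · apply ca x; rw [← h1, h4, cm]
      · exact hab x (h1.symm.trans h3)
  · -- the isomorphism
    let σ : Equiv.Perm {v // c v = true} :=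
      { toFun := fun v => ⟨m v.1, (cm v.1).trans v.2⟩
        invFun := fun v => ⟨m v.1, (cm v.1).trans v.2⟩
        left_inv := fun v => Subtype.ext (hm v.1)
        right_inv := fun v => Subtype.ext (hm v.1) }
    let τ : Equiv.Perm {v // c v = false} :=
      { toFun := fun v => ⟨m v.1, (cm v.1).trans v.2⟩
        invFun := fun v => ⟨m v.1, (cm v.1).trans v.2⟩
        left_inv := fun v => Subtype.ext (hm v.1)
        right_inv := fun v => Subtype.ext (hm v.1) }
    have swap : ∀ d : V → V, (∀ x, c (d x) ≠ c x) → ∀ x, c (d x) = !(c x) := by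
      intro d hd x
      have := hd x
      cases h : c x <;> cases h' : c (d x) <;> simp_all
    have sa := swap a ca
    have sb := swap b cb
    have hcard : Fintype.card {v // c v = true} = Fintype.card {v // c v = false} := by
      apply Fintype.card_congr
      exact
        { toFun := fun v => ⟨a v.1, by rw [sa, v.2]; rfl⟩
          invFun := fun v => ⟨a v.1, by rw [sa, v.2]; rfl⟩
          left_inv := fun v => Subtype.ext (ha v.1)
          right_inv := fun v => Subtype.ext (ha v.1) }
    obtain ⟨φ, hφ⟩ := conj_invol hcard σ τ (fun v => Subtype.ext (hm v.1))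
      (fun v => Subtype.ext (hm v.1)) (fun v h => hmx v.1 (congrArg Subtype.val h))
      (fun v h => hmx v.1 (congrArg Subtype.val h))
    -- Ψ on all vertices
    let P : V → V := fun v => if h : c v = true then (φ ⟨v, h⟩).1
      else b (φ ⟨a v, by rw [sa]; simpa using h⟩).1
    let Q : V → V := fun v => if h : c v = false then (φ.symm ⟨v, h⟩).1
      else a (φ.symm ⟨b v, by rw [sb]; simpa using h⟩).1
    have P1 : ∀ v (h : c v = true), P v = (φ ⟨v, h⟩).1 := by
      intro v h; simp only [P, dif_pos h]
    have P2 : ∀ v (h : c v = false) (h' : c (a v) = true), P v = b (φ ⟨a v, h'⟩).1 := by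
      intro v h h'
      have : ¬ c v = true := by simp [h]
      simp only [P, dif_neg this]
    have Q1 : ∀ v (h : c v = false), Q v = (φ.symm ⟨v, h⟩).1 := by
      intro v h; simp only [Q, dif_pos h]
    have Q2 : ∀ v (h : c v = true) (h' : c (b v) = false), Q v = a (φ.symm ⟨b v, h'⟩).1 := by
      intro v h h'
      have : ¬ c v = false := by simp [h]
      simp only [Q, dif_neg this]
    have cP : ∀ v, c (P v) = !(c v) := by
      intro v
      cases h : c v with
      | true => rw [P1 v h]; simpa using (φ ⟨v, h⟩).2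
      | false =>
        have h' : c (a v) = true := by rw [sa, h]; rfl
        rw [P2 v h h', sb, (φ ⟨a v, h'⟩).2]
    have cQ : ∀ v, c (Q v) = !(c v) := by
      intro v
      cases h : c v with
      | false => rw [Q1 v h]; simpa using (φ.symm ⟨v, h⟩).2
      | true =>
        have h' : c (b v) = false := by rw [sb, h]; rfl
        rw [Q2 v h h', sa, (φ.symm ⟨b v, h'⟩).2]
    have QP : ∀ v, Q (P v) = v := by
      intro v
      cases h : c v with
      | true =>
        have h1 : c (P v) = false := by rw [cP, h]; rfl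
        rw [Q1 _ h1]
        have : (⟨P v, h1⟩ : {v // c v = false}) = φ ⟨v, h⟩ := Subtype.ext (P1 v h)
        rw [this, φ.symm_apply_apply]
      | false =>
        have h1 : c (P v) = true := by rw [cP, h]; rfl
        have h2 : c (b (P v)) = false := by rw [sb, h1]; rfl
        have h' : c (a v) = true := by rw [sa, h]; rfl
        rw [Q2 _ h1 h2]
        have : (⟨b (P v), h2⟩ : {v // c v = false}) = φ ⟨a v, h'⟩ :=
          Subtype.ext (by simp only [P2 v h h', hb])
        rw [this, φ.symm_apply_apply]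
        exact ha v
    have PQ : ∀ v, P (Q v) = v := by
      intro v
      cases h : c v with
      | false =>
        have h1 : c (Q v) = true := by rw [cQ, h]; rfl
        rw [P1 _ h1]
        have : (⟨Q v, h1⟩ : {v // c v = true}) = φ.symm ⟨v, h⟩ := Subtype.ext (Q1 v h)
        rw [this, φ.apply_symm_apply]
      | true =>
        have h1 : c (Q v) = false := by rw [cQ, h]; rfl
        have h2 : c (a (Q v)) = true := by rw [sa, h1]; rfl
        have h' : c (b v) = false := by rw [sb, h]; rfl
        rw [P2 _ h1 h2]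
        have : (⟨a (Q v), h2⟩ : {v // c v = true}) = φ.symm ⟨b v, h'⟩ :=
          Subtype.ext (by simp only [Q2 v h h', ha])
        rw [this, φ.apply_symm_apply]
        exact hb v
    have Pa : ∀ v, P (a v) = b (P v) := by
      intro v
      cases h : c v with
      | true =>
        have h1 : c (a v) = false := by rw [sa, h]; rfl
        have h2 : c (a (a v)) = true := by rw [ha, h]
        rw [P2 _ h1 h2, P1 v h]
        have : (⟨a (a v), h2⟩ : {v // c v = true}) = ⟨v, h⟩ := Subtype.ext (ha v)
        rw [this]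
      | false =>
        have h1 : c (a v) = true := by rw [sa, h]; rfl
        rw [P1 _ h1, P2 v h h1, hb]
    have Pm : ∀ v, c v = true → P (m v) = m (P v) := by
      intro v h
      have h1 : c (m v) = true := by rw [cm, h]
      rw [P1 _ h1, P1 v h]
      have := congrArg Subtype.val (hφ ⟨v, h⟩)
      exact this
    refine ⟨⟨⟨P, Q, QP, PQ⟩, ?_⟩⟩
    intro x y
    change F₂.Adj (P x) (P y) ↔ F₁.Adj x y
    have Pinj : Function.Injective P := Function.LeftInverse.injective QP
    rw [A1, A2, cP]
    constructor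
    · rintro (⟨h1, h2⟩ | h1)
      · have h3 : c x = true := by simpa using h1
        rw [← Pm x h3] at h2
        exact Or.inl ⟨h3, Pinj h2⟩
      · rw [← Pa] at h1
        exact Or.inr (Pinj h1)
    · rintro (⟨h1, h2⟩ | h1)
      · left
        refine ⟨by simp [h1], ?_⟩
        rw [h2, Pm x h1]
      · right
        rw [h1, Pa]

/-- In a linear forest with paths of length at most three and degrees 1 and 2, a vertex of
degree 2 has a neighbour of degree 1. -/
theorem exists_end [Fintype V] {F : SimpleGraph V} (hF : IsLinearForest 3 F)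
    (d : V → ℕ) (hd : ∀ v, (F.neighborSet v).encard = d v) (h12 : ∀ v, d v = 1 ∨ d v = 2)
    (v : V) (hv : d v = 2) : ∃ w, F.Adj v w ∧ d w = 1 := by
  classical
  by_contra hno
  push Not at hno
  have h2 : ∀ w, F.Adj v w → d w = 2 := fun w hw => (h12 w).resolve_left (hno w hw)
  have hvs := hd v
  rw [hv] at hvs
  obtain ⟨x, y, hxy, hset⟩ := Set.encard_eq_two.mp (by exact_mod_cast hvs)
  have hx : F.Adj v x := by
    rw [← mem_neighborSet, hset]; simp
  have hy : F.Adj v y := by
    rw [← mem_neighborSet, hset]; simp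
  have other : ∀ z, F.Adj v z → ∃ z', F.Adj z z' ∧ z' ≠ v := by
    intro z hz
    have hzs := hd z
    rw [h2 z hz] at hzs
    obtain ⟨p, q, hpq, hset'⟩ := Set.encard_eq_two.mp (by exact_mod_cast hzs)
    have hp : F.Adj z p := by rw [← mem_neighborSet, hset']; simp
    have hq : F.Adj z q := by rw [← mem_neighborSet, hset']; simp
    by_cases h : p = v
    · exact ⟨q, hq, fun h' => hpq (h.trans h'.symm)⟩
    · exact ⟨p, hp, h⟩
  obtain ⟨x', hx', hx'v⟩ := other x hx
  obtain ⟨y', hy', hy'v⟩ := other y hy
  let p : F.Walk x' y' := Walk.cons hx'.symm (Walk.cons hx.symm (Walk.cons hy (Walk.cons hy' Walk.nil)))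
  have hp : p.IsPath := by
    rw [hF.1.isPath_iff_isChain]
    have e1 : s(x', x) ≠ s(x, v) := by
      intro h
      rw [Sym2.eq_iff] at h
      rcases h with h | h
      · exact hx'.ne h.1.symm
      · exact hx'v h.1
    have e2 : s(x, v) ≠ s(v, y) := by
      intro h
      rw [Sym2.eq_iff] at h
      rcases h with h | h
      · exact hx.ne h.1.symm
      · exact hxy h.1
    have e3 : s(v, y) ≠ s(y, y') := by
      intro h
      rw [Sym2.eq_iff] at h
      rcases h with h | h
      · exact hy.ne h.1
      · exact hy'v h.1.symm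
    simp only [p, Walk.edges_cons, Walk.edges_nil]
    simp only [List.isChain_cons_cons, List.isChain_singleton, and_true]
    exact ⟨e1, e2, e3⟩
  have := hF.2.2 x' y' p hp
  simp [p] at this

theorem structure_of_card [Fintype V] {F : SimpleGraph V} (hF : IsLinearForest 3 F)
    (d : V → ℕ) (hd : ∀ v, (F.neighborSet v).encard = d v) (h12 : ∀ v, d v = 1 ∨ d v = 2) :
    Fintype.card {v // d v = 2} ≤ Fintype.card {v // d v = 1} ∧
    (Fintype.card {v // d v = 2} = Fintype.card {v // d v = 1} →
      (∀ v, d v = 2 → ∃! w, F.Adj v w ∧ d w = 2) ∧ (∀ w, d w = 1 → ∀ v, F.Adj w v → d v = 2)) := by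
  classical
  have hex := fun v : {v // d v = 2} => exists_end hF d hd h12 v.1 v.2
  choose g hg hg1 using hex
  have uniq : ∀ w, d w = 1 → ∀ x y, F.Adj w x → F.Adj w y → x = y := by
    intro w hw x y hx hy
    have h := hd w
    rw [hw] at h
    obtain ⟨z, hz⟩ := Set.encard_eq_one.mp (by exact_mod_cast h)
    have hx' : x ∈ F.neighborSet w := hx
    have hy' : y ∈ F.neighborSet w := hy
    rw [hz, Set.mem_singleton_iff] at hx' hy'
    rw [hx', hy']
  let g' : {v // d v = 2} → {v // d v = 1} := fun v => ⟨g v, hg1 v⟩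
  have hinj : Function.Injective g' := by
    intro x y h
    have h' : g x = g y := congrArg Subtype.val h
    apply Subtype.ext
    apply uniq (g x) (hg1 x) _ _ (hg x).symm
    rw [h']; exact (hg y).symm
  refine ⟨Fintype.card_le_of_injective g' hinj, fun heq => ?_⟩
  have hbij : Function.Bijective g' := (Fintype.bijective_iff_injective_and_card g').mpr ⟨hinj, heq⟩
  have hsurj : ∀ w, d w = 1 → ∃ v : {v // d v = 2}, g v = w := by
    intro w hw
    obtain ⟨v, hv⟩ := hbij.2 ⟨w, hw⟩
    exact ⟨v, congrArg Subtype.val hv⟩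
  refine ⟨?_, ?_⟩
  · intro v hv
    have hvs := hd v
    rw [hv] at hvs
    obtain ⟨x, y, hxy, hset⟩ := Set.encard_eq_two.mp (by exact_mod_cast hvs)
    have hmem : ∀ z, F.Adj v z ↔ z = x ∨ z = y := by
      intro z
      rw [← mem_neighborSet, hset]; simp
    have hgv : F.Adj v (g ⟨v, hv⟩) := hg ⟨v, hv⟩
    have d1 : d (g ⟨v, hv⟩) = 1 := hg1 ⟨v, hv⟩
    have claim : ∀ n, F.Adj v n → n ≠ g ⟨v, hv⟩ → d n = 2 := by
      intro n hn hne
      rcases h12 n with h | h
      · exfalso
        obtain ⟨v', hv'⟩ := hsurj n h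
        have h3 := hg v'
        rw [hv'] at h3
        have h4 := uniq n h _ _ hn.symm h3.symm
        apply hne
        rw [← hv']
        congr 1
        exact Subtype.ext h4.symm
      · exact h
    rcases (hmem _).mp hgv with h | h
    · refine ⟨y, ⟨(hmem y).mpr (Or.inr rfl), claim y ((hmem y).mpr (Or.inr rfl)) ?_⟩, ?_⟩
      · rw [h]; exact hxy.symm
      · rintro z ⟨hz, hz2⟩
        rcases (hmem z).mp hz with h' | h'
        · rw [h', ← h, d1] at hz2; omega
        · exact h'
    · refine ⟨x, ⟨(hmem x).mpr (Or.inl rfl), claim x ((hmem x).mpr (Or.inl rfl)) ?_⟩, ?_⟩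
      · rw [h]; exact hxy
      · rintro z ⟨hz, hz2⟩
        rcases (hmem z).mp hz with h' | h'
        · exact h'
        · rw [h', ← h, d1] at hz2; omega
  · intro w hw v hv
    obtain ⟨v', hv'⟩ := hsurj w hw
    have h3 := hg v'
    rw [hv'] at h3
    rw [uniq w hw _ _ hv h3.symm]
    exact v'.2

/-- From a decomposition into two linear forests with all paths of length at most three one
reads off the colouring. -/
theorem backward [Fintype V] {G F₁ F₂ : SimpleGraph V} (hG : IsCubic G)
    (hD : IsDecomp G F₁ F₂) (h1 : IsLinearForest 3 F₁) (h2 : IsLinearForest 3 F₂) :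
    ∃ c : V → Bool, ∀ v, ∃! w, G.Adj v w ∧ c w = c v := by
  classical
  have hadj : ∀ x y, G.Adj x y ↔ F₁.Adj x y ∨ F₂.Adj x y := by
    intro x y
    rw [← mem_edgeSet, hD.1, Set.mem_union, mem_edgeSet, mem_edgeSet]
  have hdis : ∀ x y, F₁.Adj x y → ¬ F₂.Adj x y := by
    intro x y h h'
    exact Set.disjoint_left.mp hD.2 ((mem_edgeSet F₁).mpr h) ((mem_edgeSet F₂).mpr h')
  set d₁ : V → ℕ := fun v => (F₁.neighborFinset v).card with hd₁
  set d₂ : V → ℕ := fun v => (F₂.neighborFinset v).card with hd₂
  have e1 : ∀ v, (F₁.neighborSet v).encard = d₁ v := by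
    intro v
    rw [← coe_neighborFinset, Set.encard_coe_eq_coe_finsetCard]
  have e2 : ∀ v, (F₂.neighborSet v).encard = d₂ v := by
    intro v
    rw [← coe_neighborFinset, Set.encard_coe_eq_coe_finsetCard]
  -- degrees
  have deg : ∀ v, d₁ v + d₂ v = 3 := by
    intro v
    have h3 := hG v
    rw [← coe_neighborFinset, Set.encard_coe_eq_coe_finsetCard] at h3
    have h4 : (G.neighborFinset v).card = 3 := by exact_mod_cast h3
    simp only [hd₁, hd₂]
    rw [← h4, ← Finset.card_union_of_disjoint]
    · congr 1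
      ext w
      simp [hadj]
    · rw [Finset.disjoint_left]
      intro w hw hw'
      exact hdis v w (by simpa using hw) (by simpa using hw')
  have le1 : ∀ v, d₁ v ≤ 2 := by
    intro v
    have := h1.2.1 v
    rw [e1] at this
    exact_mod_cast this
  have le2 : ∀ v, d₂ v ≤ 2 := by
    intro v
    have := h2.2.1 v
    rw [e2] at this
    exact_mod_cast this
  have o1 : ∀ v, d₁ v = 1 ∨ d₁ v = 2 := by
    intro v; have := deg v; have := le1 v; have := le2 v; omega
  have o2 : ∀ v, d₂ v = 1 ∨ d₂ v = 2 := by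
    intro v; have := deg v; have := le1 v; have := le2 v; omega
  obtain ⟨c1, s1⟩ := structure_of_card h1 d₁ e1 o1
  obtain ⟨c2, s2⟩ := structure_of_card h2 d₂ e2 o2
  have q1 : Fintype.card {v // d₂ v = 2} = Fintype.card {v // d₁ v = 1} := by
    apply Fintype.card_congr
    exact Equiv.subtypeEquivRight (fun v => by have := deg v; omega)
  have q2 : Fintype.card {v // d₂ v = 1} = Fintype.card {v // d₁ v = 2} := by
    apply Fintype.card_congr
    exact Equiv.subtypeEquivRight (fun v => by have := deg v; omega)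
  obtain ⟨A1, B1⟩ := s1 (by omega)
  obtain ⟨A2, B2⟩ := s2 (by omega)
  refine ⟨fun v => decide (d₁ v = 2), fun v => ?_⟩
  have cc : ∀ v w, (decide (d₁ w = 2) = decide (d₁ v = 2)) ↔ (d₁ w = 2 ↔ d₁ v = 2) := by
    intro v w; exact decide_eq_decide
  rcases o1 v with h | h
  · have h' : d₂ v = 2 := by have := deg v; omega
    obtain ⟨w, ⟨hw, hw2⟩, hwu⟩ := A2 v h'
    refine ⟨w, ⟨(hadj _ _).mpr (Or.inr hw), (cc v w).mpr ?_⟩, ?_⟩
    · have := deg w; constructor <;> intro _ <;> omega
    · rintro z ⟨hz, hz2⟩
      have hz2 := (cc v z).mp hz2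
      rcases (hadj _ _).mp hz with hz | hz
      · exfalso
        have h5 := B1 v h z hz
        have h6 := hz2.mp h5
        omega
      · apply hwu z ⟨hz, ?_⟩
        have := deg z
        rcases o1 z with h7 | h7
        · omega
        · have := hz2.mp h7; omega
  · have h' : d₂ v = 1 := by have := deg v; omega
    obtain ⟨w, ⟨hw, hw2⟩, hwu⟩ := A1 v h
    refine ⟨w, ⟨(hadj _ _).mpr (Or.inl hw), (cc v w).mpr ?_⟩, ?_⟩
    · constructor <;> intro _ <;> omega
    · rintro z ⟨hz, hz2⟩
      have hz2 := (cc v z).mp hz2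
      rcases (hadj _ _).mp hz with hz | hz
      · exact hwu z ⟨hz, hz2.mpr h⟩
      · exfalso
        have h5 := B2 v h' z hz
        have h6 := hz2.mpr h
        have := deg z
        omega

end Pool.Agent.H1LA
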