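import Pool.Agent.H1LA.InsertA
import Pool.Agent.H1LA.Main

namespace Pool.Agent.H1LA

open SimpleGraph

variable {V W : Type*}

/-- `G` splits into two isomorphic `k`-linear forests. -/
def Splits (k : ℕ) (G : SimpleGraph V) : Prop :=
  ∃ F₁ F₂ : SimpleGraph V, IsDecomp G F₁ F₂ ∧ IsLinearForest k F₁ ∧ IsLinearForest k F₂ ∧
    Nonempty (F₁ ≃g F₂)

theorem decomp_iff {G F₁ F₂ : SimpleGraph V} : IsDecomp G F₁ F₂ ↔
    (∀ x y, G.Adj x y ↔ F₁.Adj x y ∨ F₂.Adj x y) ∧ (∀ x y, F₁.Adj x y → ¬ F₂.Adj x y) := by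
  constructor
  · intro hD
    refine ⟨fun x y => by rw [← mem_edgeSet, hD.1, Set.mem_union, mem_edgeSet, mem_edgeSet], ?_⟩
    intro x y h h'
    exact Set.disjoint_left.mp hD.2 ((mem_edgeSet F₁).mpr h) ((mem_edgeSet F₂).mpr h')
  · rintro ⟨h1, h2⟩
    constructor
    · ext s
      induction s using Sym2.ind with
      | _ x y => rw [Set.mem_union, mem_edgeSet, mem_edgeSet, mem_edgeSet]; exact h1 x y
    · rw [Set.disjoint_left]
      intro s
      induction s using Sym2.ind with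
      | _ x y => rw [mem_edgeSet, mem_edgeSet]; exact h2 x y

theorem diamond_decomp {G F₁ F₂ : SimpleGraph V} {u v : V} (hD : IsDecomp G F₁ F₂)
    (huv : F₁.Adj u v) (S S' : SimpleGraph (Fin 4))
    (hS : ∀ i j, (i ≠ j ∧ ¬ (i = 0 ∧ j = 3) ∧ ¬ (i = 3 ∧ j = 0)) ↔ (S.Adj i j ∨ S'.Adj i j))
    (hS' : ∀ i j, S.Adj i j → ¬ S'.Adj i j) :
    IsDecomp (diamond G u v) (ins F₁ u v S) (F₂ ⊕g S') := by
  rw [decomp_iff] at hD ⊢
  obtain ⟨h1, h2⟩ := hD
  constructor
  · rintro (x | i) (y | j)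
    · change (G.Adj x y ∧ ¬ (x = u ∧ y = v) ∧ ¬ (x = v ∧ y = u)) ↔
        ((F₁.Adj x y ∧ ¬ (x = u ∧ y = v) ∧ ¬ (x = v ∧ y = u)) ∨ F₂.Adj x y)
      rw [h1]
      constructor
      · rintro ⟨h | h, h'⟩
        · exact Or.inl ⟨h, h'⟩
        · exact Or.inr h
      · rintro (⟨h, h'⟩ | h)
        · exact ⟨Or.inl h, h'⟩
        · refine ⟨Or.inr h, ?_, ?_⟩
          · rintro ⟨rfl, rfl⟩; exact h2 _ _ huv h
          · rintro ⟨rfl, rfl⟩; exact h2 _ _ huv h.symm
    · constructor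
      · exact fun h => Or.inl h
      · rintro (h | h)
        · exact h
        · exact absurd h (by simp)
    · constructor
      · exact fun h => Or.inl h
      · rintro (h | h)
        · exact h
        · exact absurd h (by simp)
    · exact hS i j
  · rintro (x | i) (y | j)
    · intro h h'
      exact h2 x y h.1 h'
    · intro h h'
      exact absurd h' (by simp)
    · intro h h'
      exact absurd h' (by simp)
    · exact hS' i j

theorem splits_iso [Finite V] {G : SimpleGraph V} {H : SimpleGraph W} (e : G ≃g H) {k : ℕ}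
    (h : Splits k H) : Splits k G := iso_transfer e h

def sumIso {V V' W W' : Type*} {F : SimpleGraph V} {F' : SimpleGraph V'} {E : SimpleGraph W}
    {E' : SimpleGraph W'} (e : F ≃g F') (e' : E ≃g E') : (F ⊕g E) ≃g (F' ⊕g E') where
  toEquiv := Equiv.sumCongr e.toEquiv e'.toEquiv
  map_rel_iff' := by
    rintro (x | x) (y | y)
    · exact e.map_adj_iff
    · simp
    · simp
    · exact e'.map_adj_iff

theorem splits_core {G F₁ F₂ : SimpleGraph V} {u v : V} (hD : IsDecomp G F₁ F₂)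
    (h1 : IsLinearForest 4 F₁) (h2 : IsLinearForest 4 F₂) (φ : F₁ ≃g F₂) (huv : F₁.Adj u v)
    (hg : GoodEnd F₁ u v) : Splits 4 (diamond G u v) := by
  classical
  have hp : IsLinearForest 4 pth := pth_linear
  rcases hg with h | ⟨a, hav, hua, h, h'⟩
  · obtain ⟨e⟩ := insB huv h
    exact ⟨ins F₁ u v sB, F₂ ⊕g sB', diamond_decomp hD huv _ _ (by decide) (by decide),
      iso_linear e (sum_linear h1 hp), sum_linear h2 (iso_linear isoB hp),
      ⟨e.trans (sumIso φ isoB.symm)⟩⟩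
  · obtain ⟨e⟩ := insA huv hav hua h h'
    exact ⟨ins F₁ u v sA, F₂ ⊕g sA', diamond_decomp hD huv _ _ (by decide) (by decide),
      iso_linear e (sum_linear h1 hp), sum_linear h2 (iso_linear isoA hp),
      ⟨e.trans (sumIso φ isoA.symm)⟩⟩

def flipIso (G : SimpleGraph V) (u v : V) : diamond G u v ≃g diamond G v u where
  toEquiv := Equiv.sumCongr (Equiv.refl V) Fin.revPerm
  map_rel_iff' := by
    have r0 : ∀ i : Fin 4, Fin.rev i = 0 ↔ i = 3 := by decide
    have r3 : ∀ i : Fin 4, Fin.rev i = 3 ↔ i = 0 := by decide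
    rintro (x | i) (y | j)
    · change (G.Adj x y ∧ ¬ (x = v ∧ y = u) ∧ ¬ (x = u ∧ y = v)) ↔
        (G.Adj x y ∧ ¬ (x = u ∧ y = v) ∧ ¬ (x = v ∧ y = u))
      tauto
    · change ((x = v ∧ Fin.rev j = 0) ∨ (x = u ∧ Fin.rev j = 3)) ↔
        ((x = u ∧ j = 0) ∨ (x = v ∧ j = 3))
      rw [r0, r3]; tauto
    · change ((y = v ∧ Fin.rev i = 0) ∨ (y = u ∧ Fin.rev i = 3)) ↔
        ((y = u ∧ i = 0) ∨ (y = v ∧ i = 3))
      rw [r0, r3]; tauto
    · change (Fin.rev i ≠ Fin.rev j ∧ ¬ (Fin.rev i = 0 ∧ Fin.rev j = 3) ∧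
        ¬ (Fin.rev i = 3 ∧ Fin.rev j = 0)) ↔ (i ≠ j ∧ ¬ (i = 0 ∧ j = 3) ∧ ¬ (i = 3 ∧ j = 0))
      revert i j
      decide

theorem splits_diamond [Finite V] {G : SimpleGraph V} (h : Splits 4 G) {u v : V}
    (huv : G.Adj u v) : Splits 4 (diamond G u v) := by
  obtain ⟨F₁, F₂, hD, h1, h2, ⟨φ⟩⟩ := h
  have key : ∀ F₁ F₂ : SimpleGraph V, IsDecomp G F₁ F₂ → IsLinearForest 4 F₁ →
      IsLinearForest 4 F₂ → (F₁ ≃g F₂) → F₁.Adj u v → Splits 4 (diamond G u v) := by
    intro F₁ F₂ hD h1 h2 φ huv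
    rcases goodEnd_or h1 huv with hg | hg
    · exact splits_core hD h1 h2 φ huv hg
    · exact splits_iso (flipIso G u v) (splits_core hD h1 h2 φ huv.symm hg)
  have hD' : IsDecomp G F₂ F₁ := by
    rw [decomp_iff] at hD ⊢
    exact ⟨fun x y => by rw [hD.1]; exact or_comm, fun x y h h' => hD.2 x y h' h⟩
  rcases ((decomp_iff.mp hD).1 u v).mp huv with h | h
  · exact key F₁ F₂ hD h1 h2 φ h
  · exact key F₂ F₁ hD' h2 h1 φ.symm h

theorem splits_mono {G : SimpleGraph V} {k l : ℕ} (hkl : k ≤ l) (h : Splits k G) :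
    Splits l G := by
  obtain ⟨F₁, F₂, hD, h1, h2, φ⟩ := h
  exact ⟨F₁, F₂, hD, ⟨h1.1, h1.2.1, fun u v p hp => (h1.2.2 u v p hp).trans hkl⟩,
    ⟨h2.1, h2.2.1, fun u v p hp => (h2.2.2 u v p hp).trans hkl⟩, φ⟩

theorem cubic_K4 : IsCubic (⊤ : SimpleGraph (Fin 4)) := by
  intro v
  have : (⊤ : SimpleGraph (Fin 4)).neighborSet v =
      ((Finset.univ.erase v : Finset (Fin 4)) : Set (Fin 4)) := by
    ext w; simp [eq_comm]
  rw [this, Set.encard_coe_eq_coe_finsetCard, Finset.card_erase_of_mem (Finset.mem_univ v)]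
  simp

theorem col_K4 : ∀ v : Fin 4, ∃! w : Fin 4, (⊤ : SimpleGraph (Fin 4)).Adj v w ∧
    decide (w.val < 2) = decide (v.val < 2) := by
  simp only [top_adj, ExistsUnique]
  decide

theorem splits_K4 (h4 : Nat.card V = 4) : Splits 4 (⊤ : SimpleGraph V) := by
  classical
  have : Finite V := Nat.finite_of_card_ne_zero (by omega)
  have := Fintype.ofFinite V
  have hc4 : Fintype.card V = Fintype.card (Fin 4) := by
    rw [← Nat.card_eq_fintype_card, h4]; simp
  let e : V ≃ Fin 4 := Fintype.equivOfCardEq hc4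
  have h : Splits 3 (⊤ : SimpleGraph (Fin 4)) :=
    forward (c := fun i => decide (i.val < 2)) cubic_K4 col_K4
  exact splits_iso (Iso.completeGraph e) (splits_mono (by norm_num) h)

end Pool.Agent.H1LA
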