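import Pool.Agent.H1LA.Final
import Pool.Agent.H43LA.TwoEdge
import Pool.Agent.LinFor.Pet

namespace Pool.Agent.H1LA

open SimpleGraph

universe u0

/-- no vertex has three pairwise non-adjacent neighbours -/
def ClawFree {V : Type u0} (G : SimpleGraph V) : Prop :=
  ∀ x a b c, G.Adj x a → G.Adj x b → G.Adj x c → a ≠ b → a ≠ c → b ≠ c →
    G.Adj a b ∨ G.Adj a c ∨ G.Adj b c

theorem tri_of_clawFree {V : Type u0} {G : SimpleGraph V} (hG : IsCubic G) (hc : ClawFree G) :
    ∀ x, ∃ y z, G.Adj x y ∧ G.Adj x z ∧ G.Adj y z := by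
  intro x
  obtain ⟨a, b, c, hab, hac, hbc, hS⟩ := Set.encard_eq_three.1 (hG x)
  have hm : ∀ t, G.Adj x t ↔ t = a ∨ t = b ∨ t = c := by
    intro t
    rw [← mem_neighborSet, hS]
    simp
  have ha := (hm a).mpr (by simp)
  have hb := (hm b).mpr (by simp)
  have hc' := (hm c).mpr (by simp)
  rcases hc x a b c ha hb hc' hab hac hbc with h | h | h
  · exact ⟨a, b, ha, hb, h⟩
  · exact ⟨a, c, ha, hc', h⟩
  · exact ⟨b, c, hb, hc', h⟩

theorem clawFree_main (V : Type u0) [Finite V] (G : SimpleGraph V) (hG : IsCubic G)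
    (hconn : G.Connected) (hbr : ∀ e ∈ G.edgeSet, ¬ G.IsBridge e) (hclaw : ClawFree G)
    (h4 : 4 ∣ Nat.card V) : Splits 4 G := by
  refine induct ?_ (Nat.card V) V G rfl hconn.nonempty hG h4 (tri_of_clawFree hG hclaw)
    (H43LA.twoEdge_of hconn hbr)
  intro V _ G hne hG h4 htri hone h2
  have h2' : H43LA.TwoEdge G := h2
  exact claw_main hG (H43LA.conn_of_twoEdge h2') h4 htri hone
    (LinFor.Pet.pet_match hG (H43LA.bridgeless_of_twoEdge h2') htri hone)

end Pool.Agent.H1LA
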