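import Pool.Agent.H1LA.Pos

namespace Pool.Agent.H1LA

open SimpleGraph

/-- the three edge ends at a vertex: matching edge, outgoing and incoming edge -/
inductive Port
  | m | o | i
  deriving DecidableEq

variable {V : Type*}

/-- data on the vertex set of `H`: the matching `m`, the cyclic orientation `s` of the
complementary 2-factor and the labels `l`. -/
structure Dat (V : Type*) where
  m : V → V
  s : Equiv.Perm V
  l : V → Bool
  mm : ∀ x, m (m x) = x
  mx : ∀ x, m x ≠ x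
  sx : ∀ x, s x ≠ x
  sys : ∀ x, ((l x).xor (l (s x))).xor ((l (m x)).xor (l (s (m x)))) = true

namespace Dat

variable (D : Dat V)

/-- colour of the matching edge at `x` -/
def kap (x : V) : Bool := if D.l x = D.l (D.s x) then D.l (D.s (D.m x)) else D.l (D.s x)

/-- adjacency in the truncation, in port coordinates -/
def TAdj : V × Port → V × Port → Prop
  | (x, .m), (y, .m) => y = D.m x
  | (x, .m), (y, .o) => y = x
  | (x, .o), (y, .m) => y = x
  | (x, .m), (y, .i) => y = x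
  | (x, .i), (y, .m) => y = x
  | (x, .o), (y, .i) => y = x ∨ y = D.s x
  | (x, .i), (y, .o) => y = x ∨ x = D.s y
  | (_, .o), (_, .o) => False
  | (_, .i), (_, .i) => False

/-- adjacency in the colour class `c` -/
def FAdj (c : Bool) : V × Port → V × Port → Prop
  | (x, .m), (y, .m) => y = D.m x ∧ c = D.kap x
  | (x, .m), (y, .o) => y = x ∧ c ≠ D.l x
  | (x, .o), (y, .m) => y = x ∧ c ≠ D.l x
  | (x, .m), (y, .i) => y = x ∧ c = D.l x
  | (x, .i), (y, .m) => y = x ∧ c = D.l x
  | (x, .o), (y, .i) => (y = x ∧ c = D.l x) ∨ (y = D.s x ∧ c ≠ D.l y)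
  | (x, .i), (y, .o) => (y = x ∧ c = D.l x) ∨ (x = D.s y ∧ c ≠ D.l x)
  | (_, .o), (_, .o) => False
  | (_, .i), (_, .i) => False

/-- place of a vertex in its path of colour `c` -/
def plc (c : Bool) : V × Port → Fin 12
  | (x, .m) => if D.l x = D.l (D.s x) then (if c = D.l (D.m x) then 4 else 9)
      else (if c = D.l x then 0 else 8)
  | (x, .o) => if D.l x = D.l (D.s x) then
        (if c = D.l (D.m x) then (if D.l x = D.l (D.m x) then 6 else 5)
          else (if D.l x = D.l (D.m x) then 10 else 11))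
      else (if c = D.l x then 2 else 7)
  | (x, .i) => if c = D.l x then
        (if D.l x = D.l (D.s x) then (if D.l x = D.l (D.m x) then 5 else 10) else 1)
      else (if D.l (D.s.symm x) = D.l x then
        (if D.l (D.s.symm x) = D.l (D.m (D.s.symm x)) then 11 else 6) else 3)

theorem kap_m (x : V) : D.kap (D.m x) = D.kap x := by
  have h := D.sys x
  unfold kap
  rw [D.mm]
  cases h1 : D.l x <;> cases h2 : D.l (D.s x) <;> cases h3 : D.l (D.m x) <;>
    cases h4 : D.l (D.s (D.m x)) <;> simp_all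

theorem FAdj_symm (c : Bool) (a b : V × Port) (h : D.FAdj c a b) : D.FAdj c b a := by
  obtain ⟨x, i⟩ := a
  obtain ⟨y, j⟩ := b
  cases i <;> cases j <;> simp only [FAdj] at h ⊢
  · obtain ⟨rfl, h⟩ := h; exact ⟨(D.mm x).symm, by rw [D.kap_m]; exact h⟩
  · obtain ⟨rfl, h⟩ := h; exact ⟨rfl, h⟩
  · obtain ⟨rfl, h⟩ := h; exact ⟨rfl, h⟩
  · obtain ⟨rfl, h⟩ := h; exact ⟨rfl, h⟩
  · rcases h with ⟨rfl, h⟩ | ⟨rfl, h⟩
    · exact Or.inl ⟨rfl, h⟩
    · exact Or.inr ⟨rfl, h⟩
  · obtain ⟨rfl, h⟩ := h; exact ⟨rfl, h⟩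
  · rcases h with ⟨rfl, h⟩ | ⟨rfl, h⟩
    · exact Or.inl ⟨rfl, h⟩
    · exact Or.inr ⟨rfl, h⟩

theorem plc_step (c : Bool) (a b : V × Port) (h : D.FAdj c a b) :
    base.Adj (D.plc c a) (D.plc c b) := by
  obtain ⟨x, i⟩ := a
  obtain ⟨y, j⟩ := b
  have hs := D.sys x
  have hm := D.mm x
  cases i <;> cases j <;> simp only [FAdj] at h
  · obtain ⟨rfl, h⟩ := h
    unfold kap at h
    subst h
    cases h1 : D.l x <;> cases h2 : D.l (D.s x) <;> cases h3 : D.l (D.m x) <;>
      cases h4 : D.l (D.s (D.m x)) <;> simp [plc, h1, h2, h3, h4, hm] at hs ⊢ <;> decide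
  · obtain ⟨rfl, h⟩ := h
    cases c <;> cases h1 : D.l y <;> cases h2 : D.l (D.s y) <;> cases h3 : D.l (D.m y) <;>
      simp [plc, h1, h2, h3, hm] at h ⊢ <;> decide
  · obtain ⟨rfl, h⟩ := h
    cases c <;> cases h1 : D.l y <;> cases h2 : D.l (D.s y) <;> cases h3 : D.l (D.m y) <;>
      simp [plc, h1, h2, h3, hm] at h ⊢ <;> decide
  · obtain ⟨rfl, h⟩ := h
    cases c <;> cases h1 : D.l y <;> cases h2 : D.l (D.s y) <;> cases h3 : D.l (D.m y) <;>
      simp [plc, h1, h2, h3, hm] at h ⊢ <;> decide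
  · rcases h with ⟨rfl, h⟩ | ⟨rfl, h⟩
    · cases c <;> cases h1 : D.l y <;> cases h2 : D.l (D.s y) <;> cases h3 : D.l (D.m y) <;>
        simp [plc, h1, h2, h3, hm] at h ⊢ <;> decide
    · cases c <;> cases h1 : D.l x <;> cases h2 : D.l (D.s x) <;> cases h3 : D.l (D.m x) <;>
        simp [plc, h1, h2, h3, hm] at h ⊢ <;> decide
  · obtain ⟨rfl, h⟩ := h
    cases c <;> cases h1 : D.l y <;> cases h2 : D.l (D.s y) <;> cases h3 : D.l (D.m y) <;>
      simp [plc, h1, h2, h3, hm] at h ⊢ <;> decide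
  · rcases h with ⟨rfl, h⟩ | ⟨rfl, h⟩
    · cases c <;> cases h1 : D.l y <;> cases h2 : D.l (D.s y) <;> cases h3 : D.l (D.m y) <;>
        simp [plc, h1, h2, h3, hm] at h ⊢ <;> decide
    · cases c <;> cases h1 : D.l y <;> cases h2 : D.l (D.s y) <;> cases h3 : D.l (D.m y) <;>
        simp [plc, h1, h2, h3, hm] at h ⊢ <;> decide

theorem plc_inj (c : Bool) (a b b' : V × Port) (h : D.FAdj c a b) (h' : D.FAdj c a b')
    (hf : D.plc c b = D.plc c b') : b = b' := by
  obtain ⟨x, i⟩ := a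
  obtain ⟨y, j⟩ := b
  obtain ⟨z, k⟩ := b'
  have hs := D.sys x
  have hm := D.mm x
  cases i <;> cases j <;> cases k <;> simp only [FAdj] at h h'
  · rw [h.1, h'.1]
  · exfalso
    obtain ⟨rfl, h⟩ := h
    obtain ⟨rfl, h'⟩ := h'
    unfold kap at h
    subst h
    revert hf
    cases h1 : D.l z <;> cases h2 : D.l (D.s z) <;> cases h3 : D.l (D.m z) <;>
      cases h4 : D.l (D.s (D.m z)) <;> simp [plc, h1, h2, h3, h4, hm] at hs h' ⊢
  · exfalso
    obtain ⟨rfl, h⟩ := h
    obtain ⟨rfl, h'⟩ := h'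
    unfold kap at h
    subst h
    revert hf
    cases h1 : D.l z <;> cases h2 : D.l (D.s z) <;> cases h3 : D.l (D.m z) <;>
      cases h4 : D.l (D.s (D.m z)) <;> simp [plc, h1, h2, h3, h4, hm] at hs h' ⊢
  · exfalso
    obtain ⟨rfl, h⟩ := h
    obtain ⟨rfl, h'⟩ := h'
    unfold kap at h'
    subst h'
    revert hf
    cases h1 : D.l y <;> cases h2 : D.l (D.s y) <;> cases h3 : D.l (D.m y) <;>
      cases h4 : D.l (D.s (D.m y)) <;> simp [plc, h1, h2, h3, h4, hm] at hs h ⊢
  · rw [h.1, h'.1]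
  · exact absurd h'.2 h.2
  · exfalso
    obtain ⟨rfl, h⟩ := h
    obtain ⟨rfl, h'⟩ := h'
    unfold kap at h'
    subst h'
    revert hf
    cases h1 : D.l y <;> cases h2 : D.l (D.s y) <;> cases h3 : D.l (D.m y) <;>
      cases h4 : D.l (D.s (D.m y)) <;> simp [plc, h1, h2, h3, h4, hm] at hs h ⊢
  · exact absurd h.2 h'.2
  · rw [h.1, h'.1]
  · rw [h.1, h'.1]
  · exfalso
    obtain ⟨rfl, h⟩ := h
    revert hf
    rcases h' with ⟨rfl, h'⟩ | ⟨rfl, h'⟩
    · exact absurd h' h
    · cases c <;> cases h1 : D.l y <;> cases h2 : D.l (D.s y) <;> cases h3 : D.l (D.m y) <;>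
        simp [plc, h1, h2, h3] at h h' ⊢
  · exfalso
    obtain ⟨rfl, h'⟩ := h'
    revert hf
    rcases h with ⟨rfl, h⟩ | ⟨rfl, h⟩
    · exact absurd h h'
    · cases c <;> cases h1 : D.l z <;> cases h2 : D.l (D.s z) <;> cases h3 : D.l (D.m z) <;>
        simp [plc, h1, h2, h3] at h h' ⊢
  · rcases h with ⟨rfl, h⟩ | ⟨rfl, h⟩ <;> rcases h' with ⟨rfl, h'⟩ | ⟨rfl, h'⟩
    · rfl
    · exfalso
      revert hf
      cases c <;> cases h1 : D.l y <;> cases h2 : D.l (D.s y) <;> cases h3 : D.l (D.m y) <;>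
        simp [plc, h1, h2, h3] at h h' ⊢
    · exfalso
      revert hf
      cases c <;> cases h1 : D.l z <;> cases h2 : D.l (D.s z) <;> cases h3 : D.l (D.m z) <;>
        simp [plc, h1, h2, h3] at h h' ⊢
    · rfl
  · rw [h.1, h'.1]
  · exfalso
    obtain ⟨rfl, h⟩ := h
    revert hf
    rcases h' with ⟨rfl, h'⟩ | ⟨rfl, h'⟩
    · cases c <;> cases h1 : D.l z <;> cases h2 : D.l (D.s z) <;> cases h3 : D.l (D.m z) <;>
        simp [plc, h1, h2, h3] at h h' ⊢
    · exact absurd h h'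
  · exfalso
    obtain ⟨rfl, h'⟩ := h'
    revert hf
    rcases h with ⟨rfl, h⟩ | ⟨rfl, h⟩
    · cases c <;> cases h1 : D.l y <;> cases h2 : D.l (D.s y) <;> cases h3 : D.l (D.m y) <;>
        simp [plc, h1, h2, h3] at h h' ⊢
    · exact absurd h' h
  · rcases h with ⟨rfl, h⟩ | ⟨hy, h⟩ <;> rcases h' with ⟨rfl, h'⟩ | ⟨hz, h'⟩
    · rfl
    · exact absurd h h'
    · exact absurd h' h
    · rw [D.s.injective (hy.symm.trans hz)]

theorem plc_surj (c : Bool) (a : V × Port) (j : Fin 12) (h : base.Adj (D.plc c a) j) :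
    ∃ b, D.FAdj c a b ∧ D.plc c b = j := by
  obtain ⟨x, i⟩ := a
  have hs := D.sys x
  have hm := D.mm x
  cases i
  · revert h
    cases c <;> cases h1 : D.l x <;> cases h2 : D.l (D.s x) <;> cases h3 : D.l (D.m x) <;>
      cases h4 : D.l (D.s (D.m x)) <;> simp only [h1, h2, h3, h4] at hs <;>
      first
        | (exact absurd hs (by decide))
        | (simp only [plc, h1, h2, h3]
           fin_cases j <;> intro h <;>
           first
             | (exact absurd h (by decide))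
             | (refine ⟨(x, .i), ?_, ?_⟩ <;> (simp [FAdj, kap, plc, h1, h2, h3, h4, hm]; done))
             | (refine ⟨(x, .o), ?_, ?_⟩ <;> (simp [FAdj, kap, plc, h1, h2, h3, h4, hm]; done))
             | (refine ⟨(D.m x, .m), ?_, ?_⟩ <;> (simp [FAdj, kap, plc, h1, h2, h3, h4, hm]; done)))
  · revert h
    cases c <;> cases h1 : D.l x <;> cases h2 : D.l (D.s x) <;> cases h3 : D.l (D.m x) <;>
      simp only [plc, h1, h2, h3] <;>
      fin_cases j <;> intro h <;>
           first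
             | (exact absurd h (by decide))
             | (refine ⟨(x, .i), ?_, ?_⟩ <;> (simp [FAdj, kap, plc, h1, h2, h3, hm]; done))
             | (refine ⟨(x, .m), ?_, ?_⟩ <;> (simp [FAdj, kap, plc, h1, h2, h3, hm]; done))
             | (refine ⟨(D.s x, .i), ?_, ?_⟩ <;> (simp [FAdj, kap, plc, h1, h2, h3, hm]; done))
  · by_cases hc : c = D.l x
    · subst hc
      revert h
      cases h1 : D.l x <;> cases h2 : D.l (D.s x) <;> cases h3 : D.l (D.m x) <;>
        simp only [plc, h1, h2, h3, ↓reduceIte, reduceCtorEq] <;>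
        fin_cases j <;> intro h <;>
           first
             | (exact absurd h (by decide))
             | (refine ⟨(x, .o), ?_, ?_⟩ <;> (simp [FAdj, kap, plc, h1, h2, h3, hm]; done))
             | (refine ⟨(x, .m), ?_, ?_⟩ <;> (simp [FAdj, kap, plc, h1, h2, h3, hm]; done))
    · obtain ⟨y, rfl⟩ := D.s.surjective x
      revert h hc
      cases c <;> cases h1 : D.l y <;> cases h2 : D.l (D.s y) <;> cases h3 : D.l (D.m y) <;>
        simp only [plc, h1, h2, h3, Equiv.symm_apply_apply, ↓reduceIte, reduceCtorEq] <;>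
        fin_cases j <;> intro h hc <;>
           first
             | (exact absurd trivial hc)
             | (exact absurd h (by decide))
             | (refine ⟨(y, .o), ?_, ?_⟩ <;> (simp [FAdj, kap, plc, h1, h2, h3]; done))

/-- the colour class `c` -/
def F (c : Bool) : SimpleGraph (V × Port) where
  Adj := D.FAdj c
  symm := ⟨fun a b h => D.FAdj_symm c a b h⟩
  loopless := ⟨fun a h => (D.plc_step c a a h).ne rfl⟩

theorem covering (c : Bool) : IsCovering (D.F c) base (D.plc c) := by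
  intro a
  refine ⟨fun b hb => D.plc_step c a b hb, fun b hb b' hb' h => D.plc_inj c a b b' hb hb' h, ?_⟩
  intro j hj
  obtain ⟨b, hb, hbj⟩ := D.plc_surj c a j hj
  exact ⟨b, hb, hbj⟩

theorem F_linear (c : Bool) : IsLinearForest 4 (D.F c) := linear_lift (D.covering c) base_linear

end Dat

end Pool.Agent.H1LA
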