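import Pool.Agent.H1LA.Basic

namespace Pool.Agent.H1LA

open SimpleGraph Finset

variable {V : Type*}

/-- Hall matching along the two-coloured edges, one side. -/
theorem hall_side [Fintype V] {G : SimpleGraph V} {c : V → Bool}
    (X : V → Finset V) (hX : ∀ v w, w ∈ X v ↔ G.Adj v w ∧ c w ≠ c v)
    (hX2 : ∀ v, (X v).card = 2) (β : Bool) :
    ∃ a : {v // c v = β} → V, Function.Injective a ∧ ∀ v, a v ∈ X v.1 := by
  classical
  rw [← Finset.all_card_le_biUnion_card_iff_exists_injective (fun v : {v // c v = β} => X v.1)]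
  intro s
  have h := Finset.card_mul_le_card_mul (s := s)
    (t := s.biUnion (fun v : {v // c v = β} => X v.1)) (m := 2) (n := 2)
    (fun (v : {v // c v = β}) (w : V) => w ∈ X v.1) ?_ ?_
  · omega
  · intro v hv
    rw [← hX2 v.1]
    apply Finset.card_le_card
    intro w hw
    rw [Finset.mem_bipartiteAbove, Finset.mem_biUnion]
    exact ⟨⟨v, hv, hw⟩, hw⟩
  · intro w hw
    rw [← hX2 w]
    apply Finset.card_le_card_of_injOn (fun v => v.1)
    · intro v hv
      have hv := (Finset.mem_bipartiteBelow _).mp (Finset.mem_coe.mp hv)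
      have := (hX _ _).mp hv.2
      exact Finset.mem_coe.mpr ((hX _ _).mpr ⟨this.1.symm, fun h => this.2 h.symm⟩)
    · intro x _ y _ h
      exact Subtype.ext h

theorem exists_matchings [Fintype V] {G : SimpleGraph V} {c : V → Bool} (hG : IsCubic G)
    (hc : ∀ v, ∃! w, G.Adj v w ∧ c w = c v) :
    ∃ m a b : V → V, (∀ x, m (m x) = x) ∧ (∀ x, a (a x) = x) ∧ (∀ x, b (b x) = x) ∧
      (∀ x, c (m x) = c x) ∧ (∀ x, c (a x) ≠ c x) ∧ (∀ x, c (b x) ≠ c x) ∧
      (∀ x, a x ≠ b x) ∧ ∀ x y, G.Adj x y ↔ y = m x ∨ y = a x ∨ y = b x := by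
  classical
  choose m hm hmu using hc
  set X : V → Finset V := fun v => (G.neighborFinset v).filter (fun w => c w ≠ c v) with hXdef
  have hX : ∀ v w, w ∈ X v ↔ G.Adj v w ∧ c w ≠ c v := by
    intro v w; simp [hXdef]
  have hX2 : ∀ v, (X v).card = 2 := by
    intro v
    have h1 : (G.neighborFinset v).card = 3 := by
      have := hG v
      rw [← SimpleGraph.coe_neighborFinset, Set.encard_coe_eq_coe_finsetCard] at this
      exact_mod_cast this
    have h2 : (G.neighborFinset v).filter (fun w => ¬ c w ≠ c v) = {m v} := by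
      ext w
      simp only [Finset.mem_filter, SimpleGraph.mem_neighborFinset, Finset.mem_singleton, not_not]
      constructor
      · intro h; exact hmu v w h
      · rintro rfl; exact hm v
    have h3 := Finset.card_filter_add_card_filter_not (s := G.neighborFinset v) (fun w => c w ≠ c v)
    rw [h2, h1, Finset.card_singleton] at h3
    simp only [hXdef]
    omega
  have hXs : ∀ v w, w ∈ X v ↔ v ∈ X w := by
    intro v w
    rw [hX, hX]
    exact ⟨fun h => ⟨h.1.symm, fun e => h.2 e.symm⟩, fun h => ⟨h.1.symm, fun e => h.2 e.symm⟩⟩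
  obtain ⟨f, hf, hfX⟩ := hall_side X hX hX2 true
  obtain ⟨g, hg, hgX⟩ := hall_side X hX hX2 false
  have cf : ∀ v, c (f v) = false := by
    intro v
    have := ((hX _ _).mp (hfX v)).2
    rw [v.2] at this
    simpa using this
  have cg : ∀ v, c (g v) = true := by
    intro v
    have := ((hX _ _).mp (hgX v)).2
    rw [v.2] at this
    simpa using this
  let f' : {v // c v = true} → {v // c v = false} := fun v => ⟨f v, cf v⟩
  let g' : {v // c v = false} → {v // c v = true} := fun v => ⟨g v, cg v⟩
  have hf' : Function.Injective f' := by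
    intro x y h
    exact hf (congrArg Subtype.val h)
  have hg' : Function.Injective g' := by
    intro x y h
    exact hg (congrArg Subtype.val h)
  have hcard : Fintype.card {v // c v = true} = Fintype.card {v // c v = false} :=
    le_antisymm (Fintype.card_le_of_injective f' hf') (Fintype.card_le_of_injective g' hg')
  have hfb : Function.Bijective f' := (Fintype.bijective_iff_injective_and_card f').mpr ⟨hf', hcard⟩
  let ef := Equiv.ofBijective f' hfb
  -- the involution a
  let a : V → V := fun v => if h : c v = true then (ef ⟨v, h⟩).1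
    else (ef.symm ⟨v, by simpa using h⟩).1
  have ha1 : ∀ v (h : c v = true), a v = f ⟨v, h⟩ := by
    intro v h
    simp only [a, dif_pos h]
    rfl
  have ha2 : ∀ v, c v = false → c (a v) = true ∧ a (a v) = v := by
    intro v h
    have h' : ¬ c v = true := by simp [h]
    have e1 : a v = (ef.symm ⟨v, h⟩).1 := by simp only [a, dif_neg h']
    have e2 : c (a v) = true := by rw [e1]; exact (ef.symm ⟨v, h⟩).2
    refine ⟨e2, ?_⟩
    rw [ha1 _ e2]
    have e3 : (⟨a v, e2⟩ : {v // c v = true}) = ef.symm ⟨v, h⟩ := Subtype.ext e1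
    rw [e3]
    have e4 : ef (ef.symm ⟨v, h⟩) = ⟨v, h⟩ := ef.apply_symm_apply _
    exact congrArg Subtype.val e4
  have ha3 : ∀ v, c v = true → c (a v) = false ∧ a (a v) = v := by
    intro v h
    have e1 := ha1 v h
    have e2 : c (a v) = false := by rw [e1]; exact cf _
    refine ⟨e2, ?_⟩
    have h' : ¬ c (a v) = true := by simp [e2]
    have e3 : a (a v) = (ef.symm ⟨a v, e2⟩).1 := by simp only [a, dif_neg h']
    have e4 : (⟨a v, e2⟩ : {v // c v = false}) = ef ⟨v, h⟩ := Subtype.ext e1
    rw [e3, e4, ef.symm_apply_apply]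
  have haX : ∀ v, a v ∈ X v := by
    intro v
    cases h : c v with
    | true => rw [ha1 v h]; exact hfX ⟨v, h⟩
    | false =>
      obtain ⟨e2, e3⟩ := ha2 v h
      rw [hXs]
      have := hfX ⟨a v, e2⟩
      rw [← ha1 _ e2, e3] at this
      exact this
  have haa : ∀ v, a (a v) = v := by
    intro v
    cases h : c v with
    | true => exact (ha3 v h).2
    | false => exact (ha2 v h).2
  -- the other neighbour b
  have hb : ∀ v, ∃ w, w ≠ a v ∧ X v = {a v, w} := by
    intro v
    obtain ⟨x, y, hxy, hxy'⟩ := Finset.card_eq_two.mp (hX2 v)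
    have := haX v
    rw [hxy', Finset.mem_insert, Finset.mem_singleton] at this
    rcases this with h | h
    · exact ⟨y, by rw [h]; exact hxy.symm, by rw [hxy', h]⟩
    · exact ⟨x, by rw [h]; exact hxy, by rw [hxy', h, Finset.pair_comm]⟩
  choose b hba hbX using hb
  have hbX' : ∀ v, b v ∈ X v := by
    intro v; rw [hbX v]; simp
  have hbb : ∀ v, b (b v) = v := by
    intro v
    have h1 : v ∈ X (b v) := (hXs _ _).mp (hbX' v)
    rw [hbX (b v), Finset.mem_insert, Finset.mem_singleton] at h1
    rcases h1 with h1 | h1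
    · exfalso
      apply hba v
      have h2 : a v = a (a (b v)) := congrArg a h1
      rw [haa] at h2
      exact h2.symm
    · exact h1.symm
  refine ⟨m, a, b, ?_, haa, hbb, fun x => (hm x).2, ?_, ?_, fun x h => hba x h.symm, ?_⟩
  · intro x
    symm
    exact hmu (m x) x ⟨(hm x).1.symm, (hm x).2.symm⟩
  · intro x; exact ((hX _ _).mp (haX x)).2
  · intro x; exact ((hX _ _).mp (hbX' x)).2
  · intro x y
    constructor
    · intro h
      by_cases hxy : c y = c x
      · left; exact hmu x y ⟨h, hxy⟩
      · right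
        have := (hX x y).mpr ⟨h, hxy⟩
        rw [hbX x] at this
        simpa using this
    · rintro (h | h | h)
      · rw [h]; exact (hm x).1
      · rw [h]; exact ((hX _ _).mp (haX x)).1
      · rw [h]; exact ((hX _ _).mp (hbX' x)).1

end Pool.Agent.H1LA
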