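import Pool.Agent.H1LA.Cover

namespace Pool.Agent.H1LA

open SimpleGraph

variable {V W : Type*}

/-- A graph with a position function such that every vertex has at most one neighbour one step
up and at most one neighbour one step down, and no other neighbours, is a linear forest. -/
theorem linear_of_pos {F : SimpleGraph V} {k : ℕ} (pos : V → ℕ) (hk : ∀ x, pos x ≤ k)
    (hstep : ∀ x y, F.Adj x y → pos y = pos x + 1 ∨ pos x = pos y + 1)
    (hup : ∀ x y z, F.Adj x y → F.Adj x z → pos y = pos x + 1 → pos z = pos x + 1 → y = z)
    (hdown : ∀ x y z, F.Adj x y → F.Adj x z → pos x = pos y + 1 → pos x = pos z + 1 → y = z) :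
    IsLinearForest k F := by
  -- a path is monotone
  have mono : ∀ (u v : V) (p : F.Walk u v), p.IsPath → 
      (∀ i, i ≤ p.length → pos (p.getVert i) = pos u + i) ∨
      (∀ i, i ≤ p.length → pos (p.getVert i) + i = pos u) := by
    intro u v p
    induction p with
    | nil => intro _; left; intro i hi; simp at hi; simp [hi]
    | @cons u w v huw p ih =>
      intro hp
      rw [Walk.cons_isPath_iff] at hp
      have ih' := ih hp.1
      have hne : ∀ i, i ≤ p.length → p.getVert i ≠ u := by
        intro i hi h
        apply hp.2
        rw [← h]
        exact p.getVert_mem_support i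
      by_cases hl : p.length = 0
      · rcases hstep u w huw with h | h
        · left; intro i hi
          rw [Walk.length_cons, hl] at hi
          rcases Nat.le_one_iff_eq_zero_or_eq_one.mp hi with rfl | rfl
          · simp
          · simp [h]
        · right; intro i hi
          rw [Walk.length_cons, hl] at hi
          rcases Nat.le_one_iff_eq_zero_or_eq_one.mp hi with rfl | rfl
          · simp
          · simp [h]
      · have h01 : F.Adj w (p.getVert 1) := by
          have := p.adj_getVert_succ (i := 0) (by omega)
          simpa using this
        rcases ih' with h1 | h1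
        · -- going up from w; then u is below w
          have e1 := h1 1 (by omega)
          rcases hstep u w huw with h | h
          · left
            intro i hi
            cases i with
            | zero => simp
            | succ i =>
              rw [Walk.length_cons] at hi
              have := h1 i (by omega)
              rw [Walk.getVert_cons_succ, this]; omega
          · exfalso
            exact hne 1 (by omega) (hup w _ _ h01 huw.symm e1 h)
        · have e1 := h1 1 (by omega)
          rcases hstep u w huw with h | h
          · exfalso
            exact hne 1 (by omega) (hdown w _ _ h01 huw.symm e1.symm h)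
          · right
            intro i hi
            cases i with
            | zero => simp
            | succ i =>
              rw [Walk.length_cons] at hi
              have := h1 i (by omega)
              rw [Walk.getVert_cons_succ]; omega
  refine ⟨?_, ?_, ?_⟩
  · intro v w hw
    obtain ⟨u, e, p, rfl⟩ : ∃ u, ∃ (e : F.Adj v u) (p : F.Walk u v), w = Walk.cons e p := by
      cases w with
      | nil => exact absurd hw (by simp)
      | cons e p => exact ⟨_, e, p, rfl⟩
    have hlen := hw.three_le_length
    rw [Walk.cons_isCycle_iff] at hw
    have hlen : 2 ≤ p.length := by simpa using hlen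
    rcases mono _ _ p hw.1 with h | h
    · have := h p.length le_rfl
      rw [Walk.getVert_length] at this
      rcases hstep _ _ e with h' | h' <;> omega
    · have := h p.length le_rfl
      rw [Walk.getVert_length] at this
      rcases hstep _ _ e with h' | h' <;> omega
  · intro x
    by_contra hcon
    push Not at hcon
    have h3 : (3 : ℕ∞) ≤ (F.neighborSet x).encard := by
      have := Order.add_one_le_of_lt hcon
      norm_num at this
      exact this
    obtain ⟨t, hts, ht⟩ := Set.exists_subset_encard_eq h3
    obtain ⟨a, b, c, hab, hac, hbc, rfl⟩ := Set.encard_eq_three.mp ht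
    have ha : F.Adj x a := hts (by simp)
    have hb : F.Adj x b := hts (by simp)
    have hc : F.Adj x c := hts (by simp)
    rcases hstep x a ha with h1 | h1 <;> rcases hstep x b hb with h2 | h2 <;>
      rcases hstep x c hc with h3 | h3
    · exact hab (hup x a b ha hb h1 h2)
    · exact hab (hup x a b ha hb h1 h2)
    · exact hac (hup x a c ha hc h1 h3)
    · exact hbc (hdown x b c hb hc h2 h3)
    · exact hbc (hup x b c hb hc h2 h3)
    · exact hac (hdown x a c ha hc h1 h3)
    · exact hab (hdown x a b ha hb h1 h2)
    · exact hab (hdown x a b ha hb h1 h2)
  · intro u v p hp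
    rcases mono _ _ p hp with h | h
    · have := h p.length le_rfl
      have := hk (p.getVert p.length)
      omega
    · have := h p.length le_rfl
      have := hk u
      omega

/-- the disjoint union of paths with 4, 3 and 5 vertices (0-3, 4-6, 7-11) -/
def base : SimpleGraph (Fin 12) where
  Adj i j := (i.val + 1 = j.val ∧ i.val ≠ 3 ∧ i.val ≠ 6) ∨ (j.val + 1 = i.val ∧ j.val ≠ 3 ∧ j.val ≠ 6)
  symm := ⟨fun _ _ h => h.symm⟩
  loopless := ⟨fun i h => by omega⟩

instance : DecidableRel base.Adj := fun i j => by unfold base; infer_instance

theorem base_linear : IsLinearForest 4 base := by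
  refine linear_of_pos (fun i => if i.val < 4 then i.val else if i.val < 7 then i.val - 4 else i.val - 7)
    ?_ ?_ ?_ ?_
  · decide
  · decide
  · decide
  · decide

theorem card_fibre_adj [Finite V] {E : SimpleGraph V} {F : SimpleGraph W} {f : V → W}
    (h : IsCovering E F f) {w w' : W} (hw : F.Adj w w') :
    Nat.card {x // f x = w} = Nat.card {x // f x = w'} := by
  have aux : ∀ w w', F.Adj w w' → Nat.card {x // f x = w} ≤ Nat.card {x // f x = w'} := by
    intro w w' hw
    have hex : ∀ x : {x // f x = w}, ∃ y, E.Adj x.1 y ∧ f y = w' := by
      rintro ⟨x, rfl⟩
      obtain ⟨y, hy, hyw⟩ := (h x).2.2 hw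
      exact ⟨y, hy, hyw⟩
    choose g hg hg' using hex
    apply Nat.card_le_card_of_injective (fun x => (⟨g x, hg' x⟩ : {x // f x = w'}))
    intro x x' hxx
    have h1 : g x = g x' := congrArg Subtype.val hxx
    have m1 : x.1 ∈ E.neighborSet (g x) := (hg x).symm
    have m2 : x'.1 ∈ E.neighborSet (g x) := by rw [h1]; exact (hg x').symm
    exact Subtype.ext ((h (g x)).2.1 m1 m2 (x.2.trans x'.2.symm))
  exact le_antisymm (aux _ _ hw) (aux _ _ hw.symm)

end Pool.Agent.H1LA
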