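import Pool.Agent.H1LA.Extract

namespace Pool.Agent.H1LA

open SimpleGraph

universe u0

variable {V : Type u0}

/-- the reduced graph -/
def red (G : SimpleGraph V) (x y z w u v : V) :
    SimpleGraph {a : V // a ≠ x ∧ a ≠ y ∧ a ≠ z ∧ a ≠ w} where
  Adj a b := G.Adj a.1 b.1 ∨ (a.1 = u ∧ b.1 = v ∧ u ≠ v) ∨ (a.1 = v ∧ b.1 = u ∧ u ≠ v)
  symm := ⟨by
    rintro a b (h | h | h)
    · exact Or.inl h.symm
    · exact Or.inr (Or.inr ⟨h.2.1, h.1, h.2.2⟩)
    · exact Or.inr (Or.inl ⟨h.2.1, h.1, h.2.2⟩)⟩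
  loopless := ⟨by
    rintro a (h | h | h)
    · exact G.irrefl h
    · exact h.2.2 (h.1.symm.trans h.2.1)
    · exact h.2.2 (h.2.1.symm.trans h.1)⟩

section

variable {G : SimpleGraph V} {x y z w u v : V} (E : Ext G x y z w u v)

include E

theorem Ext.ax {t : V} (h1 : t ≠ y) (h2 : t ≠ z) (h3 : t ≠ w) : ¬ G.Adj x t := fun h => by
  rcases (E.Nx t).mp h with h' | h' | h' <;> contradiction

theorem Ext.ay {t : V} (h1 : t ≠ x) (h2 : t ≠ z) (h3 : t ≠ w) : ¬ G.Adj y t := fun h => by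
  rcases (E.Ny t).mp h with h' | h' | h' <;> contradiction

theorem Ext.az {t : V} (h1 : t ≠ x) (h2 : t ≠ y) (h3 : t ≠ u) : ¬ G.Adj z t := fun h => by
  rcases (E.Nz t).mp h with h' | h' | h' <;> contradiction

theorem Ext.aw {t : V} (h1 : t ≠ x) (h2 : t ≠ y) (h3 : t ≠ v) : ¬ G.Adj w t := fun h => by
  rcases (E.Nw t).mp h with h' | h' | h' <;> contradiction

theorem Ext.phi_bij : Function.Bijective
    (Sum.elim Subtype.val ![z, x, y, w] :
      {a : V // a ≠ x ∧ a ≠ y ∧ a ≠ z ∧ a ≠ w} ⊕ Fin 4 → V) := by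
  have h1 := E.xy
  have h2 := E.xz
  have h3 := E.xw
  have h4 := E.yz
  have h5 := E.yw
  have h6 := E.zw
  constructor
  · rintro (⟨a, a1, a2, a3, a4⟩ | i) (⟨b, b1, b2, b3, b4⟩ | j) h
    · simp only [Sum.elim_inl] at h
      subst h; rfl
    · exfalso
      fin_cases j
      · exact a3 h
      · exact a1 h
      · exact a2 h
      · exact a4 h
    · exfalso
      fin_cases i
      · exact b3 h.symm
      · exact b1 h.symm
      · exact b2 h.symm
      · exact b4 h.symm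
    · fin_cases i <;> fin_cases j <;> simp_all
  · intro a
    by_cases ax : a = x
    · exact ⟨.inr 1, by simp [ax]⟩
    by_cases ay : a = y
    · exact ⟨.inr 2, by simp [ay]⟩
    by_cases az : a = z
    · exact ⟨.inr 0, by simp [az]⟩
    by_cases aw : a = w
    · exact ⟨.inr 3, by simp [aw]⟩
    exact ⟨.inl ⟨a, ax, ay, az, aw⟩, rfl⟩

theorem Ext.card [Finite V] :
    Nat.card V = Nat.card {a : V // a ≠ x ∧ a ≠ y ∧ a ≠ z ∧ a ≠ w} + 4 := by
  rw [← Nat.card_congr (Equiv.ofBijective _ E.phi_bij), Nat.card_sum]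
  simp

theorem Ext.iso : Nonempty (G ≃g diamond (red G x y z w u v) ⟨u, E.ux, E.uy, E.uz, E.uw⟩
    ⟨v, E.vx, E.vy, E.vz, E.vw⟩) := by
  have key : ∀ a b : {a : V // a ≠ x ∧ a ≠ y ∧ a ≠ z ∧ a ≠ w} ⊕ Fin 4,
      G.Adj (Sum.elim Subtype.val ![z, x, y, w] a) (Sum.elim Subtype.val ![z, x, y, w] b) ↔
      (diamond (red G x y z w u v) ⟨u, E.ux, E.uy, E.uz, E.uw⟩
        ⟨v, E.vx, E.vy, E.vz, E.vw⟩).Adj a b := by
    have h1 := E.xy
    have h2 := E.xz
    have h3 := E.xw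
    have h4 := E.yz
    have h5 := E.yw
    have h6 := E.zw
    have mixed : ∀ (a : V) (ha : a ≠ x ∧ a ≠ y ∧ a ≠ z ∧ a ≠ w) (j : Fin 4),
        G.Adj (![z, x, y, w] j) a ↔ (((⟨a, ha⟩ : {a : V // a ≠ x ∧ a ≠ y ∧ a ≠ z ∧ a ≠ w}) =
          ⟨u, E.ux, E.uy, E.uz, E.uw⟩ ∧ j = 0) ∨
          ((⟨a, ha⟩ : {a : V // a ≠ x ∧ a ≠ y ∧ a ≠ z ∧ a ≠ w}) =
          ⟨v, E.vx, E.vy, E.vz, E.vw⟩ ∧ j = 3)) := by
      rintro a ⟨a1, a2, a3, a4⟩ j
      fin_cases j
      · change G.Adj z a ↔ _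
        rw [E.Nz]; simp [a1, a2]
      · change G.Adj x a ↔ _
        rw [E.Nx]; simp [a2, a3, a4]
      · change G.Adj y a ↔ _
        rw [E.Ny]; simp [a1, a3, a4]
      · change G.Adj w a ↔ _
        rw [E.Nw]; simp [a1, a2]
    rintro (⟨a, ha⟩ | i) (⟨b, hb⟩ | j)
    · change G.Adj a b ↔ (G.Adj a b ∨ (a = u ∧ b = v ∧ u ≠ v) ∨ (a = v ∧ b = u ∧ u ≠ v)) ∧
        ¬ ((⟨a, ha⟩ : {a : V // a ≠ x ∧ a ≠ y ∧ a ≠ z ∧ a ≠ w}) =
          ⟨u, E.ux, E.uy, E.uz, E.uw⟩ ∧ (⟨b, hb⟩ : {a : V // a ≠ x ∧ a ≠ y ∧ a ≠ z ∧ a ≠ w}) =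
          ⟨v, E.vx, E.vy, E.vz, E.vw⟩) ∧ ¬ ((⟨a, ha⟩ : {a : V // a ≠ x ∧ a ≠ y ∧ a ≠ z ∧ a ≠ w}) =
          ⟨v, E.vx, E.vy, E.vz, E.vw⟩ ∧ (⟨b, hb⟩ : {a : V // a ≠ x ∧ a ≠ y ∧ a ≠ z ∧ a ≠ w}) =
          ⟨u, E.ux, E.uy, E.uz, E.uw⟩)
      simp only [Subtype.mk.injEq]
      constructor
      · intro h
        refine ⟨Or.inl h, ?_, ?_⟩
        · rintro ⟨rfl, rfl⟩; exact E.nadj h
        · rintro ⟨rfl, rfl⟩; exact E.nadj h.symm
      · rintro ⟨h | h | h, h7, h8⟩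
        · exact h
        · exact absurd ⟨h.1, h.2.1⟩ h7
        · exact absurd ⟨h.1, h.2.1⟩ h8
    · rw [G.adj_comm]
      exact mixed a ha j
    · exact mixed b hb i
    · change G.Adj (![z, x, y, w] i) (![z, x, y, w] j) ↔
        (i ≠ j ∧ ¬ (i = 0 ∧ j = 3) ∧ ¬ (i = 3 ∧ j = 0))
      have u1 := E.ux
      have u2 := E.uy
      have u3 := E.uz
      have u4 := E.uw
      have v1 := E.vx
      have v2 := E.vy
      have v3 := E.vz
      have v4 := E.vw
      have Nx := E.Nx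
      have Ny := E.Ny
      have Nz := E.Nz
      have Nw := E.Nw
      fin_cases i <;> fin_cases j <;>
        simp [Nx, Ny, Nz, Nw, h1, h2, h3, h4, h5, h6, h1.symm, h2.symm, h3.symm, h4.symm,
          h5.symm, h6.symm, u1.symm, u2.symm, u3.symm, u4.symm, v1.symm, v2.symm, v3.symm,
          v4.symm]
  exact ⟨(⟨Equiv.ofBijective _ E.phi_bij, fun {a b} => key a b⟩ :
    diamond (red G x y z w u v) ⟨u, E.ux, E.uy, E.uz, E.uw⟩
      ⟨v, E.vx, E.vy, E.vz, E.vw⟩ ≃g G).symm⟩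

theorem Ext.cubic (hG : IsCubic G) : IsCubic (red G x y z w u v) := by
  rintro ⟨a, a1, a2, a3, a4⟩
  rw [← Subtype.val_injective.injOn.encard_image]
  have hx := E.ax a2 a3 a4
  have hy := E.ay a1 a3 a4
  by_cases au : a = u
  · have hz : z ∈ G.neighborSet a := by rw [au]; exact ((E.Nz u).mpr (by simp)).symm
    have : Subtype.val '' ((red G x y z w u v).neighborSet ⟨a, a1, a2, a3, a4⟩) =
        insert v (G.neighborSet a \ {z}) := by
      ext t
      simp only [Set.mem_image, mem_neighborSet, Subtype.exists, exists_and_right, exists_eq_right,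
        Set.mem_insert_iff, Set.mem_diff, Set.mem_singleton_iff]
      constructor
      · rintro ⟨ht, h | h | h⟩
        · exact Or.inr ⟨h, ht.2.2.1⟩
        · exact Or.inl h.2.1
        · exact absurd (au.symm.trans h.1) E.uv
      · rintro (h | h)
        · subst h
          exact ⟨⟨E.vx, E.vy, E.vz, E.vw⟩, Or.inr (Or.inl ⟨au, rfl, E.uv⟩)⟩
        · refine ⟨⟨?_, ?_, h.2, ?_⟩, Or.inl h.1⟩
          · rintro rfl; exact hx h.1.symm
          · rintro rfl; exact hy h.1.symm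
          · rintro rfl; exact E.aw a1 a2 (au ▸ E.uv) h.1.symm
    rw [this, Set.encard_insert_of_notMem, Set.encard_diff_singleton_add_one hz, hG a]
    rintro ⟨h, _⟩
    rw [au] at h
    exact E.nadj h
  by_cases av : a = v
  · have hw : w ∈ G.neighborSet a := by rw [av]; exact ((E.Nw v).mpr (by simp)).symm
    have : Subtype.val '' ((red G x y z w u v).neighborSet ⟨a, a1, a2, a3, a4⟩) =
        insert u (G.neighborSet a \ {w}) := by
      ext t
      simp only [Set.mem_image, mem_neighborSet, Subtype.exists, exists_and_right, exists_eq_right,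
        Set.mem_insert_iff, Set.mem_diff, Set.mem_singleton_iff]
      constructor
      · rintro ⟨ht, h | h | h⟩
        · exact Or.inr ⟨h, ht.2.2.2⟩
        · exact absurd h.1 au
        · exact Or.inl h.2.1
      · rintro (h | h)
        · subst h
          exact ⟨⟨E.ux, E.uy, E.uz, E.uw⟩, Or.inr (Or.inr ⟨av, rfl, E.uv⟩)⟩
        · refine ⟨⟨?_, ?_, ?_, h.2⟩, Or.inl h.1⟩
          · rintro rfl; exact hx h.1.symm
          · rintro rfl; exact hy h.1.symm
          · rintro rfl; exact E.az a1 a2 au h.1.symm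
    rw [this, Set.encard_insert_of_notMem, Set.encard_diff_singleton_add_one hw, hG a]
    rintro ⟨h, _⟩
    rw [av] at h
    exact E.nadj (G.adj_symm h)
  have : Subtype.val '' ((red G x y z w u v).neighborSet ⟨a, a1, a2, a3, a4⟩) =
      G.neighborSet a := by
    ext t
    simp only [Set.mem_image, mem_neighborSet, Subtype.exists, exists_and_right, exists_eq_right]
    constructor
    · rintro ⟨ht, h | h | h⟩
      · exact h
      · exact absurd h.1 au
      · exact absurd h.1 av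
    · intro h
      refine ⟨⟨?_, ?_, ?_, ?_⟩, Or.inl h⟩
      · rintro rfl; exact hx h.symm
      · rintro rfl; exact hy h.symm
      · rintro rfl; exact E.az a1 a2 au h.symm
      · rintro rfl; exact E.aw a1 a2 av h.symm
  rw [this, hG a]

theorem Ext.tri (htri : ∀ x, ∃ y z, G.Adj x y ∧ G.Adj x z ∧ G.Adj y z) :
    ∀ a, ∃ b c, (red G x y z w u v).Adj a b ∧ (red G x y z w u v).Adj a c ∧
      (red G x y z w u v).Adj b c := by
  rintro ⟨a, a1, a2, a3, a4⟩
  have hx := E.ax a2 a3 a4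
  have hy := E.ay a1 a3 a4
  have inV : ∀ p q, G.Adj a p → G.Adj a q → G.Adj p q → p ≠ x ∧ p ≠ y ∧ p ≠ z ∧ p ≠ w := by
    intro p q hp hq hpq
    refine ⟨?_, ?_, ?_, ?_⟩
    · rintro rfl; exact hx hp.symm
    · rintro rfl; exact hy hp.symm
    · rintro rfl
      have au : a = u := by
        rcases (E.Nz a).mp hp.symm with h | h | h
        · exact absurd h a1
        · exact absurd h a2
        · exact h
      rcases (E.Nz q).mp hpq with rfl | rfl | rfl
      · exact hx hq.symm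
      · exact hy hq.symm
      · exact hq.ne au
    · rintro rfl
      have av : a = v := by
        rcases (E.Nw a).mp hp.symm with h | h | h
        · exact absurd h a1
        · exact absurd h a2
        · exact h
      rcases (E.Nw q).mp hpq with rfl | rfl | rfl
      · exact hx hq.symm
      · exact hy hq.symm
      · exact hq.ne av
  obtain ⟨p, q, hp, hq, hpq⟩ := htri a
  exact ⟨⟨p, inV p q hp hq hpq⟩, ⟨q, inV q p hq hp hpq.symm⟩, Or.inl hp, Or.inl hq, Or.inl hpq⟩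

theorem Ext.two (h2 : TwoEdge' G) : TwoEdge' (red G x y z w u v) := by
  classical
  intro S' hS hSc
  let u' : {a : V // a ≠ x ∧ a ≠ y ∧ a ≠ z ∧ a ≠ w} := ⟨u, E.ux, E.uy, E.uz, E.uw⟩
  let v' : {a : V // a ≠ x ∧ a ≠ y ∧ a ≠ z ∧ a ≠ w} := ⟨v, E.vx, E.vy, E.vz, E.vw⟩
  let π : V → {a : V // a ≠ x ∧ a ≠ y ∧ a ≠ z ∧ a ≠ w} := fun a =>
    if h : a ≠ x ∧ a ≠ y ∧ a ≠ z ∧ a ≠ w then ⟨a, h⟩ else u'
  have π1 : ∀ a (h : a ≠ x ∧ a ≠ y ∧ a ≠ z ∧ a ≠ w), π a = ⟨a, h⟩ := fun a h => dif_pos h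
  have πx : π x = u' := dif_neg (by simp)
  have πy : π y = u' := dif_neg (by simp)
  have πz : π z = u' := dif_neg (by simp)
  have πw : π w = u' := dif_neg (by simp)
  have πu : π u = u' := π1 u _
  have πv : π v = v' := π1 v _
  obtain ⟨s, hs⟩ := hS
  obtain ⟨t, ht⟩ := hSc
  obtain ⟨p, q, p', q', hp, hq, hpq, hp', hq', hpq', hd⟩ := h2 {a | π a ∈ S'}
    ⟨s.1, by change π s.1 ∈ S'; rw [π1 s.1 s.2]; exact hs⟩
    ⟨t.1, by change ¬ π t.1 ∈ S'; rw [π1 t.1 t.2]; exact ht⟩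
  have half : ∀ p q, π p ≠ π q → G.Adj p q → ¬ (p ≠ x ∧ p ≠ y ∧ p ≠ z ∧ p ≠ w) →
      p = w ∧ q = v := by
    intro p q hne hpq hp
    have hp' : p = x ∨ p = y ∨ p = z ∨ p = w := by tauto
    rcases hp' with h | h | h | h
    · rw [h] at hpq hne
      rcases (E.Nx q).mp hpq with h' | h' | h'
      · rw [h', πx, πy] at hne; exact absurd rfl hne
      · rw [h', πx, πz] at hne; exact absurd rfl hne
      · rw [h', πx, πw] at hne; exact absurd rfl hne
    · rw [h] at hpq hne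
      rcases (E.Ny q).mp hpq with h' | h' | h'
      · rw [h', πx, πy] at hne; exact absurd rfl hne
      · rw [h', πy, πz] at hne; exact absurd rfl hne
      · rw [h', πy, πw] at hne; exact absurd rfl hne
    · rw [h] at hpq hne
      rcases (E.Nz q).mp hpq with h' | h' | h'
      · rw [h', πx, πz] at hne; exact absurd rfl hne
      · rw [h', πy, πz] at hne; exact absurd rfl hne
      · rw [h', πu, πz] at hne; exact absurd rfl hne
    · rw [h] at hpq hne
      rcases (E.Nw q).mp hpq with h' | h' | h'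
      · rw [h', πx, πw] at hne; exact absurd rfl hne
      · rw [h', πy, πw] at hne; exact absurd rfl hne
      · exact ⟨h, h'⟩
  have cases3 : ∀ p q, π p ∈ S' → π q ∉ S' → G.Adj p q →
      ((p ≠ x ∧ p ≠ y ∧ p ≠ z ∧ p ≠ w) ∧ (q ≠ x ∧ q ≠ y ∧ q ≠ z ∧ q ≠ w)) ∨
      (p = w ∧ q = v) ∨ (p = v ∧ q = w) := by
    intro p q hp hq hpq
    have hne : π p ≠ π q := fun h => hq (h ▸ hp)
    by_cases h1 : (p ≠ x ∧ p ≠ y ∧ p ≠ z ∧ p ≠ w)
    · by_cases h3 : (q ≠ x ∧ q ≠ y ∧ q ≠ z ∧ q ≠ w)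
      · exact Or.inl ⟨h1, h3⟩
      · have := half q p hne.symm hpq.symm h3
        exact Or.inr (Or.inr ⟨this.2, this.1⟩)
    · exact Or.inr (Or.inl (half p q hne hpq h1))
  have adj : ∀ p q, π p ∈ S' → π q ∉ S' → G.Adj p q → (red G x y z w u v).Adj (π p) (π q) := by
    intro p q hp hq hpq
    rcases cases3 p q hp hq hpq with ⟨h1, h3⟩ | ⟨h1, h3⟩ | ⟨h1, h3⟩
    · rw [π1 p h1, π1 q h3]; exact Or.inl hpq
    · rw [h1, h3, πw, πv]; exact Or.inr (Or.inl ⟨rfl, rfl, E.uv⟩)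
    · rw [h1, h3, πw, πv]; exact Or.inr (Or.inr ⟨rfl, rfl, E.uv⟩)
  refine ⟨π p, π q, π p', π q', hp, hq, adj p q hp hq hpq, hp', hq', adj p' q' hp' hq' hpq', ?_⟩
  rintro ⟨e1, e2⟩
  have half2 : ∀ p q p' q', ((p ≠ x ∧ p ≠ y ∧ p ≠ z ∧ p ≠ w) ∧ (q ≠ x ∧ q ≠ y ∧ q ≠ z ∧ q ≠ w)) →
      G.Adj p q → ((p' = w ∧ q' = v) ∨ (p' = v ∧ q' = w)) → π p = π p' → π q = π q' → False := by
    rintro p q p' q' ⟨h1, h3⟩ hpq (⟨h4, h5⟩ | ⟨h4, h5⟩) e1 e2
    · rw [h4, πw, π1 p h1] at e1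
      rw [h5, πv, π1 q h3] at e2
      have e1 : p = u := congrArg Subtype.val e1
      have e2 : q = v := congrArg Subtype.val e2
      rw [e1, e2] at hpq
      exact E.nadj hpq
    · rw [h4, πv, π1 p h1] at e1
      rw [h5, πw, π1 q h3] at e2
      have e1 : p = v := congrArg Subtype.val e1
      have e2 : q = u := congrArg Subtype.val e2
      rw [e1, e2] at hpq
      exact E.nadj hpq.symm
  have ne : u' ≠ v' := fun h => E.uv (congrArg Subtype.val h)
  rcases cases3 p q hp hq hpq with h | h <;> rcases cases3 p' q' hp' hq' hpq' with h' | h'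
  · rw [π1 p h.1, π1 p' h'.1] at e1
    rw [π1 q h.2, π1 q' h'.2] at e2
    exact hd ⟨congrArg Subtype.val e1, congrArg Subtype.val e2⟩
  · exact half2 p q p' q' h hpq h' e1 e2
  · exact half2 p' q' p q h' hpq' h e1.symm e2.symm
  · rcases h with h | h <;> rcases h' with h' | h'
    · exact hd ⟨h.1.trans h'.1.symm, h.2.trans h'.2.symm⟩
    · rw [h.1, h'.1, πw, πv] at e1; exact ne e1
    · rw [h.1, h'.1, πw, πv] at e1; exact ne e1.symm
    · exact hd ⟨h.1.trans h'.1.symm, h.2.trans h'.2.symm⟩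

end

end Pool.Agent.H1LA
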