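import Pool.Agent.H1LA.Glob

namespace Pool.Agent.H1LA

open SimpleGraph

variable {V : Type*}

theorem solve [Fintype V] [DecidableEq V] {H : SimpleGraph V} (hconn : H.Connected) (m : V → V)
    (s : Equiv.Perm V) (mm : ∀ x, m (m x) = x) (mx : ∀ x, m x ≠ x)
    (hadj : ∀ x y, H.Adj x y → y = m x ∨ y = s x ∨ y = s.symm x) (h4 : 4 ∣ Fintype.card V) :
    ∃ l : V → ZMod 2, ∀ x, l x + l (s x) + (l (m x) + l (s (m x))) = 1 := by
  let L : (V → ZMod 2) →ₗ[ZMod 2] (V → ZMod 2) :=
    { toFun := fun y x => y x + y (s x) + (y (m x) + y (s (m x)))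
      map_add' := fun y z => by ext x; simp only [Pi.add_apply]; ring
      map_smul' := fun a y => by ext x; simp only [Pi.smul_apply, smul_eq_mul, RingHom.id_apply]; ring }
  have hL : ∀ y x, L y x = y x + y (s x) + (y (m x) + y (s (m x))) := fun _ _ => rfl
  by_cases hmem : (1 : V → ZMod 2) ∈ LinearMap.range L
  · obtain ⟨l, hl⟩ := hmem
    refine ⟨l, fun x => ?_⟩
    rw [← hL, hl]; rfl
  exfalso
  obtain ⟨φ, hφ1, hφ⟩ := Submodule.exists_dual_map_eq_bot_of_notMem hmem inferInstance
  have hφL : ∀ y, φ (L y) = 0 := by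
    intro y
    have : φ (L y) ∈ (LinearMap.range L).map φ := Submodule.mem_map_of_mem (LinearMap.mem_range_self L y)
    rw [hφ] at this
    simpa using this
  set c : V → ZMod 2 := fun x => φ (Pi.single x 1) with hc
  have hsum : ∀ y, φ y = ∑ x, y x * c x := by
    intro y
    rw [LinearMap.pi_apply_eq_sum_univ φ y]
    apply Finset.sum_congr rfl
    intro x _
    rw [smul_eq_mul, hc]
    congr 2
    ext z
    simp [Pi.single_apply, eq_comm]
  have key : ∀ z, c z + c (s.symm z) + (c (m z) + c (m (s.symm z))) = 0 := by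
    intro z
    have h0 := hφL (Pi.single z 1)
    rw [hsum] at h0
    simp only [hL, add_mul, Finset.sum_add_distrib] at h0
    have e1 : ∑ x, (Pi.single z (1 : ZMod 2) : V → ZMod 2) x * c x = c z := by
      simp [Pi.single_apply]
    have e2 : ∑ x, (Pi.single z (1 : ZMod 2) : V → ZMod 2) (s x) * c x = c (s.symm z) := by
      rw [← Equiv.sum_comp s.symm]
      simp [Pi.single_apply]
    let mE : Equiv.Perm V := ⟨m, m, mm, mm⟩
    have e3 : ∑ x, (Pi.single z (1 : ZMod 2) : V → ZMod 2) (m x) * c x = c (m z) := by
      rw [← Equiv.sum_comp mE]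
      have : ∀ x, mE x = m x := fun _ => rfl
      simp [Pi.single_apply, this, mm]
    have e4 : ∑ x, (Pi.single z (1 : ZMod 2) : V → ZMod 2) (s (m x)) * c x = c (m (s.symm z)) := by
      rw [← Equiv.sum_comp mE, ← Equiv.sum_comp s.symm]
      have : ∀ x, mE x = m x := fun _ => rfl
      simp [Pi.single_apply, this, mm]
    rw [e1, e2, e3, e4] at h0
    exact h0
  set C : V → ZMod 2 := fun x => c x + c (m x) with hC
  have two : ∀ a b : ZMod 2, a + b = 0 → a = b := by decide
  have C1 : ∀ z, C z = C (s.symm z) := by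
    intro z
    apply two
    have := key z
    simp only [hC]
    rw [← this]; ring
  have C2 : ∀ z, C (m z) = C z := by
    intro z
    simp only [hC, mm]; ring
  have C3 : ∀ x y, H.Adj x y → C x = C y := by
    intro x y h
    rcases hadj x y h with rfl | rfl | rfl
    · exact (C2 x).symm
    · rw [C1 (s x), s.symm_apply_apply]
    · exact C1 x
  have C4 : ∀ x y, C x = C y := by
    intro x y
    obtain ⟨p⟩ := hconn.preconnected x y
    induction p with
    | nil => rfl
    | cons h _ ih => exact (C3 _ _ h).trans ih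
  apply hφ1
  rw [hsum]
  simp only [Pi.one_apply, one_mul]
  let e := Fintype.equivFin V
  let A := Finset.univ.filter (fun x => e x < e (m x))
  let B := Finset.univ.filter (fun x => ¬ e x < e (m x))
  have hB : ∑ x ∈ B, c x = ∑ x ∈ A, c (m x) := by
    apply Finset.sum_bij' (fun x _ => m x) (fun x _ => m x)
    · intro x hx
      simp only [B, A, Finset.mem_filter, Finset.mem_univ, true_and, mm, not_lt] at hx ⊢
      apply lt_of_le_of_ne hx
      intro h
      exact mx x (e.injective h)
    · intro x hx
      simp only [B, A, Finset.mem_filter, Finset.mem_univ, true_and, mm, not_lt] at hx ⊢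
      exact hx.le
    · intro x _; exact mm x
    · intro x _; exact mm x
    · intro x _; rw [mm]
  have hAB : A.card = B.card := by
    apply Finset.card_bij' (fun x _ => m x) (fun x _ => m x)
    · intro x hx
      simp only [B, A, Finset.mem_filter, Finset.mem_univ, true_and, mm, not_lt] at hx ⊢
      exact hx.le
    · intro x hx
      simp only [B, A, Finset.mem_filter, Finset.mem_univ, true_and, mm, not_lt] at hx ⊢
      apply lt_of_le_of_ne hx
      intro h
      exact mx x (e.injective h)
    · intro x _; exact mm x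
    · intro x _; exact mm x
  have hcard : A.card + B.card = Fintype.card V := by
    have := Finset.card_filter_add_card_filter_not (s := (Finset.univ : Finset V)) (fun x => e x < e (m x))
    simpa [A, B, Finset.card_univ] using this
  have hsplit : ∑ x, c x = ∑ x ∈ A, c x + ∑ x ∈ B, c x :=
    (Finset.sum_filter_add_sum_filter_not Finset.univ _ _).symm
  rw [hsplit, hB, ← Finset.sum_add_distrib]
  have hev : 2 ∣ A.card := by omega
  obtain ⟨k, hk⟩ := hev
  by_cases hne : Nonempty V
  · obtain ⟨x0⟩ := hne
    have : ∑ x ∈ A, (c x + c (m x)) = ∑ x ∈ A, C x0 := by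
      apply Finset.sum_congr rfl
      intro x _
      exact C4 x x0
    rw [this, Finset.sum_const, hk, nsmul_eq_mul]
    have h2 : ((2 * k : ℕ) : ZMod 2) = 0 := by
      push_cast
      have : (2 : ZMod 2) = 0 := by decide
      rw [this, zero_mul]
    rw [h2, zero_mul]
  · have : A = ∅ := by
      apply Finset.eq_empty_of_forall_notMem
      intro x _
      exact hne ⟨x⟩
    rw [this, Finset.sum_empty]

end Pool.Agent.H1LA
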