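import Pool.Agent.H1LA.Solve

namespace Pool.Agent.H1LA

open SimpleGraph Finset

variable {V W : Type*}

/-- The truncation of `H`: every vertex is replaced by a triangle. The vertices are the darts
(ordered adjacent pairs) `(v, w)`; `(v, w)` is joined to the other darts at `v` and to `(w, v)`. -/
def truncation (H : SimpleGraph V) : SimpleGraph H.Dart where
  Adj d e := (d.fst = e.fst ∧ d ≠ e) ∨ e = d.symm
  symm := ⟨by
    rintro d e (⟨h1, h2⟩ | rfl)
    · exact Or.inl ⟨h1.symm, h2.symm⟩
    · exact Or.inr (Dart.symm_symm d).symm⟩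
  loopless := ⟨by
    rintro d (⟨_, h⟩ | h)
    · exact h rfl
    · exact d.symm_ne h.symm⟩

theorem exists_orientation [Fintype V] [DecidableEq V] {H : SimpleGraph V} (hH : IsCubic H)
    (m : V → V) (mm : ∀ x, m (m x) = x) (hm : ∀ x, H.Adj x (m x)) :
    ∃ s : Equiv.Perm V, (∀ x, s x ≠ m x) ∧ (∀ x, s.symm x ≠ m x) ∧ (∀ x, s x ≠ s.symm x) ∧
      ∀ x y, H.Adj x y ↔ y = m x ∨ y = s x ∨ y = s.symm x := by
  classical
  set N : V → Finset V := fun v => (H.neighborFinset v).erase (m v) with hN
  have memN : ∀ v w, w ∈ N v ↔ w ≠ m v ∧ H.Adj v w := by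
    intro v w; simp [hN]
  have cardN : ∀ v, (N v).card = 2 := by
    intro v
    have h3 := hH v
    rw [← coe_neighborFinset, Set.encard_coe_eq_coe_finsetCard] at h3
    have h4 : (H.neighborFinset v).card = 3 := by exact_mod_cast h3
    simp only [hN]
    rw [Finset.card_erase_of_mem (by simpa using hm v), h4]
  have symN : ∀ v w, w ∈ N v → v ∈ N w := by
    intro v w h
    rw [memN] at h ⊢
    refine ⟨?_, h.2.symm⟩
    intro h'
    apply h.1
    rw [h', mm]
  let t : V → Finset (Sym2 V) := fun v => (N v).image (fun w => s(v, w))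
  have cardt : ∀ v, (t v).card = 2 := by
    intro v
    rw [← cardN v]
    apply Finset.card_image_of_injOn
    intro a _ b _ h
    have h' : s(v, a) = s(v, b) := h
    rw [Sym2.eq_iff] at h'
    rcases h' with h' | h'
    · exact h'.2
    · rw [h'.2, ← h'.1]
  have vmem : ∀ v e, e ∈ t v → v ∈ e := by
    intro v e he
    simp only [t, Finset.mem_image] at he
    obtain ⟨w, _, rfl⟩ := he
    simp
  obtain ⟨b, hbinj, hbt⟩ := (Finset.all_card_le_biUnion_card_iff_exists_injective t).mp (by
    intro S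
    have h := Finset.card_mul_le_card_mul (s := S) (t := S.biUnion t) (m := 2) (n := 2)
      (fun (v : V) (e : Sym2 V) => e ∈ t v) ?_ ?_
    · omega
    · intro v hv
      rw [← cardt v]
      apply Finset.card_le_card
      intro e he
      rw [Finset.mem_bipartiteAbove, Finset.mem_biUnion]
      exact ⟨⟨v, hv, he⟩, he⟩
    · intro e _
      induction e using Sym2.ind with
      | _ x y =>
        have hsub : Finset.bipartiteBelow (fun (v : V) (e : Sym2 V) => e ∈ t v) S s(x, y) ⊆ {x, y} := by
          intro v hv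
          rw [Finset.mem_bipartiteBelow] at hv
          have := vmem v _ hv.2
          rw [Sym2.mem_iff] at this
          simpa using this
        exact (Finset.card_le_card hsub).trans Finset.card_le_two)
  have hp : ∀ v, ∃ w, w ∈ N v ∧ s(v, w) = b v := by
    intro v
    have := hbt v
    simp only [t, Finset.mem_image] at this
    exact this
  choose p hpN hpb using hp
  have pne : ∀ v, p v ≠ v := by
    intro v h
    have := ((memN _ _).mp (hpN v)).2
    rw [h] at this
    exact H.irrefl this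
  have ppne : ∀ v, p (p v) ≠ v := by
    intro v h
    have h1 := hpb (p v)
    rw [h] at h1
    have h2 := hpb v
    have h3 : b (p v) = b v := by rw [← h1, ← h2]; exact Sym2.eq_swap
    exact pne v (hbinj h3)
  have pinj : Function.Injective p := by
    intro v w h
    by_contra hvw
    have hv : v ∈ N (p v) := symN _ _ (hpN v)
    have hw : w ∈ N (p v) := by rw [h]; exact symN _ _ (hpN w)
    have hset : N (p v) = {v, w} := by
      symm
      apply Finset.eq_of_subset_of_card_le
      · intro z hz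
        rw [Finset.mem_insert, Finset.mem_singleton] at hz
        rcases hz with rfl | rfl
        · exact hv
        · exact hw
      · rw [cardN, Finset.card_pair hvw]
    have hpp := hpN (p v)
    rw [hset, Finset.mem_insert, Finset.mem_singleton] at hpp
    rcases hpp with h1 | h1
    · exact ppne v h1
    · apply ppne w
      rw [← h]; exact h1
  let s : Equiv.Perm V := (Equiv.ofBijective p (Finite.injective_iff_bijective.mp pinj)).symm
  have hs : ∀ x, s.symm x = p x := fun _ => rfl
  have hps : ∀ x, p (s x) = x := fun x => s.symm_apply_apply x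
  have sN : ∀ x, s x ∈ N x := by
    intro x
    have := symN _ _ (hpN (s x))
    rwa [hps] at this
  have sne : ∀ x, s x ≠ p x := by
    intro x h
    apply ppne x
    rw [← h, hps]
  refine ⟨s, fun x => ((memN _ _).mp (sN x)).1, ?_, ?_, ?_⟩
  · intro x
    rw [hs]; exact ((memN _ _).mp (hpN x)).1
  · intro x; rw [hs]; exact sne x
  · intro x y
    rw [hs]
    have hset : N x = {s x, p x} := by
      symm
      apply Finset.eq_of_subset_of_card_le
      · intro z hz
        rw [Finset.mem_insert, Finset.mem_singleton] at hz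
        rcases hz with rfl | rfl
        · exact sN x
        · exact hpN x
      · rw [cardN, Finset.card_pair (sne x)]
    constructor
    · intro h
      by_cases hy : y = m x
      · exact Or.inl hy
      · right
        have := (memN x y).mpr ⟨hy, h⟩
        rw [hset] at this
        simpa using this
    · rintro (rfl | rfl | rfl)
      · exact hm x
      · exact ((memN _ _).mp (sN x)).2
      · exact ((memN _ _).mp (hpN x)).2

theorem iso_transfer [Finite V] {G : SimpleGraph V} {H : SimpleGraph W} (e : G ≃g H) {k : ℕ}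
    (hH : ∃ F₁ F₂ : SimpleGraph W, IsDecomp H F₁ F₂ ∧ IsLinearForest k F₁ ∧
      IsLinearForest k F₂ ∧ Nonempty (F₁ ≃g F₂)) :
    ∃ F₁ F₂ : SimpleGraph V, IsDecomp G F₁ F₂ ∧ IsLinearForest k F₁ ∧
      IsLinearForest k F₂ ∧ Nonempty (F₁ ≃g F₂) := by
  refine cover_main (f := e) (d := 1) ?_ ?_ hH
  · intro x
    refine ⟨?_, ?_, ?_⟩
    · intro y hy; exact e.map_adj_iff.mpr hy
    · intro y _ z _ h; exact e.injective h
    · intro w hw
      refine ⟨e.symm w, ?_, e.apply_symm_apply w⟩
      have : H.Adj (e x) (e (e.symm w)) := by rw [e.apply_symm_apply]; exact hw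
      exact e.map_adj_iff.mp this
  · intro w
    rw [Nat.card_eq_one_iff_unique]
    refine ⟨⟨?_⟩, ⟨⟨e.symm w, e.apply_symm_apply w⟩⟩⟩
    rintro ⟨a, ha⟩ ⟨b, hb⟩
    exact Subtype.ext (e.injective (ha.trans hb.symm))

theorem trunc_main [Finite V] {H : SimpleGraph V} (hH : IsCubic H) (hconn : H.Connected)
    (hM : ∃ M : H.Subgraph, M.IsPerfectMatching) (h4 : 4 ∣ Nat.card V) :
    ∃ F₁ F₂ : SimpleGraph H.Dart, IsDecomp (truncation H) F₁ F₂ ∧ IsLinearForest 4 F₁ ∧
      IsLinearForest 4 F₂ ∧ Nonempty (F₁ ≃g F₂) := by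
  classical
  haveI := Fintype.ofFinite V
  obtain ⟨M, hM⟩ := hM
  rw [Subgraph.isPerfectMatching_iff] at hM
  choose m hm hmu using hM
  have mm : ∀ x, m (m x) = x := fun x => (hmu (m x) x (hm x).symm).symm
  have hmadj : ∀ x, H.Adj x (m x) := fun x => (hm x).adj_sub
  have mx : ∀ x, m x ≠ x := fun x h => by
    have := hmadj x
    rw [h] at this
    exact H.irrefl this
  obtain ⟨s, s1, s2, s3, hadj⟩ := exists_orientation hH m mm hmadj
  have sx : ∀ x, s x ≠ x := by
    intro x h
    have := (hadj x (s x)).mpr (Or.inr (Or.inl rfl))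
    rw [h] at this
    exact H.irrefl this
  rw [Nat.card_eq_fintype_card] at h4
  obtain ⟨l, hl⟩ := solve hconn m s mm mx (fun x y h => (hadj x y).mp h) h4
  have conv : ∀ a b c d : ZMod 2, a + b + (c + d) = 1 →
      ((decide (a = 1)).xor (decide (b = 1))).xor ((decide (c = 1)).xor (decide (d = 1))) = true := by
    decide
  let D : Dat V :=
    { m := m
      s := s
      l := fun x => decide (l x = 1)
      mm := mm
      mx := mx
      sx := sx
      sys := fun x => conv _ _ _ _ (hl x) }
  -- the isomorphism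
  let g : V × Port → H.Dart := fun a => match a with
    | (x, .m) => ⟨(x, m x), hmadj x⟩
    | (x, .o) => ⟨(x, s x), (hadj x _).mpr (Or.inr (Or.inl rfl))⟩
    | (x, .i) => ⟨(x, s.symm x), (hadj x _).mpr (Or.inr (Or.inr rfl))⟩
  have g1 : ∀ x, g (x, .m) = ⟨(x, m x), hmadj x⟩ := fun _ => rfl
  have g2 : ∀ x, g (x, .o) = ⟨(x, s x), (hadj x _).mpr (Or.inr (Or.inl rfl))⟩ := fun _ => rfl
  have g3 : ∀ x, g (x, .i) = ⟨(x, s.symm x), (hadj x _).mpr (Or.inr (Or.inr rfl))⟩ := fun _ => rfl
  have gfst : ∀ a, (g a).fst = a.1 := by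
    rintro ⟨x, q⟩
    cases q <;> rfl
  have gbij : Function.Bijective g := by
    constructor
    · rintro ⟨x, q⟩ ⟨y, r⟩ h
      have h1 : x = y := by
        have := congrArg (fun d : H.Dart => d.fst) h
        simp only [gfst] at this
        exact this
      subst h1
      have h2 := congrArg (fun d : H.Dart => d.snd) h
      cases q <;> cases r <;> first | rfl | (exfalso)
      · exact s1 x h2.symm
      · exact s2 x h2.symm
      · exact s1 x h2
      · exact s3 x h2
      · exact s2 x h2
      · exact s3 x h2.symm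
    · rintro ⟨⟨x, y⟩, hxy⟩
      rcases (hadj x y).mp hxy with rfl | rfl | rfl
      · exact ⟨(x, .m), rfl⟩
      · exact ⟨(x, .o), rfl⟩
      · exact ⟨(x, .i), rfl⟩
  have hsymm : ∀ d e : H.Dart, e = d.symm ↔ e.fst = d.snd ∧ e.snd = d.fst := by
    intro d e
    constructor
    · rintro rfl; exact ⟨rfl, rfl⟩
    · rintro ⟨h1, h2⟩
      exact Dart.ext _ _ (Prod.ext h1 h2)
  have f2 : ∀ x, s (m x) ≠ x := by
    intro x h; apply s2 x; rw [Equiv.symm_apply_eq]; exact h.symm
  have f1 : ∀ x, s.symm (m x) ≠ x := by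
    intro x h; apply s1 x; rw [Equiv.symm_apply_eq] at h; exact h.symm
  have f3 : ∀ x, s (s x) ≠ x := by
    intro x h; apply s3 x; rw [Equiv.eq_symm_apply]; exact h
  have f4 : ∀ x, s.symm (s.symm x) ≠ x := by
    intro x h; apply s3 x; rw [Equiv.symm_apply_eq] at h; exact h.symm
  have f5 : ∀ x, m (s x) ≠ x := by
    intro x h; apply s1 x; rw [← mm (s x), h]
  have f6 : ∀ x, m (s.symm x) ≠ x := by
    intro x h; apply s2 x; rw [← mm (s.symm x), h]
  have gadj : ∀ a b, (truncation H).Adj (g a) (g b) ↔ D.T.Adj a b := by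
    intro a b
    change ((g a).fst = (g b).fst ∧ g a ≠ g b) ∨ g b = (g a).symm ↔ D.TAdj a b
    rw [hsymm, gbij.1.ne_iff, gfst, gfst]
    obtain ⟨x, q⟩ := a
    obtain ⟨y, r⟩ := b
    cases q <;> cases r <;> simp only [Dat.TAdj]
    · change (x = y ∧ (x, Port.m) ≠ (y, Port.m)) ∨ (y = m x ∧ m y = x) ↔ y = m x
      constructor
      · rintro (⟨rfl, h⟩ | h)
        · exact absurd rfl h
        · exact h.1
      · rintro rfl; exact Or.inr ⟨rfl, mm x⟩
    · change (x = y ∧ (x, Port.m) ≠ (y, Port.o)) ∨ (y = m x ∧ s y = x) ↔ y = x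
      constructor
      · rintro (⟨rfl, h⟩ | ⟨rfl, h⟩)
        · rfl
        · exact absurd h (f2 x)
      · rintro rfl; exact Or.inl ⟨rfl, by simp⟩
    · change (x = y ∧ (x, Port.m) ≠ (y, Port.i)) ∨ (y = m x ∧ s.symm y = x) ↔ y = x
      constructor
      · rintro (⟨rfl, h⟩ | ⟨rfl, h⟩)
        · rfl
        · exact absurd h (f1 x)
      · rintro rfl; exact Or.inl ⟨rfl, by simp⟩
    · change (x = y ∧ (x, Port.o) ≠ (y, Port.m)) ∨ (y = s x ∧ m y = x) ↔ y = x
      constructor
      · rintro (⟨rfl, h⟩ | ⟨rfl, h⟩)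
        · rfl
        · exact absurd h (f5 x)
      · rintro rfl; exact Or.inl ⟨rfl, by simp⟩
    · change (x = y ∧ (x, Port.o) ≠ (y, Port.o)) ∨ (y = s x ∧ s y = x) ↔ False
      constructor
      · rintro (⟨rfl, h⟩ | ⟨rfl, h⟩)
        · exact absurd rfl h
        · exact absurd h (f3 x)
      · exact False.elim
    · change (x = y ∧ (x, Port.o) ≠ (y, Port.i)) ∨ (y = s x ∧ s.symm y = x) ↔ y = x ∨ y = s x
      constructor
      · rintro (⟨rfl, h⟩ | ⟨rfl, h⟩)
        · exact Or.inl rfl
        · exact Or.inr rfl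
      · rintro (rfl | rfl)
        · exact Or.inl ⟨rfl, by simp⟩
        · exact Or.inr ⟨rfl, by simp⟩
    · change (x = y ∧ (x, Port.i) ≠ (y, Port.m)) ∨ (y = s.symm x ∧ m y = x) ↔ y = x
      constructor
      · rintro (⟨rfl, h⟩ | ⟨rfl, h⟩)
        · rfl
        · exact absurd h (f6 x)
      · rintro rfl; exact Or.inl ⟨rfl, by simp⟩
    · change (x = y ∧ (x, Port.i) ≠ (y, Port.o)) ∨ (y = s.symm x ∧ s y = x) ↔ y = x ∨ x = s y
      constructor
      · rintro (⟨rfl, h⟩ | ⟨rfl, h⟩)
        · exact Or.inl rfl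
        · exact Or.inr h.symm
      · rintro (rfl | rfl)
        · exact Or.inl ⟨rfl, by simp⟩
        · exact Or.inr ⟨by simp, rfl⟩
    · change (x = y ∧ (x, Port.i) ≠ (y, Port.i)) ∨ (y = s.symm x ∧ s.symm y = x) ↔ False
      constructor
      · rintro (⟨rfl, h⟩ | ⟨rfl, h⟩)
        · exact absurd rfl h
        · exact absurd h (f4 x)
      · exact False.elim
  haveI : Finite Port := by
    haveI : Fintype Port := ⟨{.m, .o, .i}, fun p => by cases p <;> simp⟩
    infer_instance
  let e : D.T ≃g truncation H := ⟨Equiv.ofBijective g gbij, fun {a b} => gadj a b⟩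
  haveI : Finite H.Dart := Finite.of_equiv _ e.toEquiv
  exact iso_transfer e.symm D.T_main

end Pool.Agent.H1LA
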